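import Mathlib

/-!
Covering systems: every `(k+s)`-subset contains a member, the members being `k`-sets.
-/

set_option autoImplicit false
set_option linter.unusedSectionVars false

namespace Pool.Agent.H613T

open Finset

/-- `F` consists of `k`-subsets of `B` and every `(k+s)`-subset of `B` contains a member -/
def CovS {V : Type} (B : Finset V) (s k : ℕ) (F : Finset (Finset V)) : Prop :=
  (∀ Z ∈ F, Z ⊆ B ∧ Z.card = k) ∧ ∀ Y ⊆ B, Y.card = k + s → ∃ Z ∈ F, Z ⊆ Y

/-- for every `n` there is a covering system of relative size at most `c` -/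
def TD (s k : ℕ) (c : ℝ) : Prop :=
  ∀ n : ℕ, ∃ F : Finset (Finset (Fin n)), CovS univ s k F ∧ (F.card : ℝ) ≤ c * (n.choose k : ℝ)

theorem TD.mono {s k : ℕ} {c c' : ℝ} (h : TD s k c) (hc : c ≤ c') : TD s k c' := by
  intro n
  obtain ⟨F, h1, h2⟩ := h n
  exact ⟨F, h1, h2.trans (mul_le_mul_of_nonneg_right hc (Nat.cast_nonneg _))⟩

theorem cov_all {V : Type} (B : Finset V) (s k : ℕ) : CovS B s k (powersetCard k B) := by
  refine ⟨fun Z hZ => mem_powersetCard.1 hZ, fun Y hY hYc => ?_⟩
  obtain ⟨Z, hZ, hZc⟩ := exists_subset_card_eq (show k ≤ Y.card by omega)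
  exact ⟨Z, mem_powersetCard.2 ⟨hZ.trans hY, hZc⟩, hZ⟩

theorem TD.trivial (s k : ℕ) : TD s k 1 := by
  intro n
  refine ⟨powersetCard k univ, cov_all _ _ _, ?_⟩
  rw [card_powersetCard, card_univ, Fintype.card_fin, one_mul]

section
variable {V : Type} [Fintype V] [DecidableEq V]

theorem TD.transport {s k : ℕ} {c : ℝ} (h : TD s k c) (B : Finset V) :
    ∃ G : Finset (Finset V), CovS B s k G ∧ (G.card : ℝ) ≤ c * (B.card.choose k : ℝ) := by
  obtain ⟨F, ⟨hF1, hF2⟩, hF3⟩ := h B.card
  set e : Fin B.card ≃ B := B.equivFin.symm with he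
  set f : Fin B.card ↪ V := e.toEmbedding.trans (Function.Embedding.subtype _) with hf
  have hfB : ∀ i, f i ∈ B := fun i => (e i).2
  have hfs : ∀ v ∈ B, ∃ i, f i = v := by
    intro v hv
    refine ⟨e.symm ⟨v, hv⟩, ?_⟩
    simp [hf]
  refine ⟨F.image (fun Z => Z.map f), ⟨?_, ?_⟩, ?_⟩
  · intro Z hZ
    obtain ⟨W, hW, rfl⟩ := Finset.mem_image.mp hZ
    refine ⟨?_, ?_⟩
    · intro v hv
      obtain ⟨i, _, rfl⟩ := Finset.mem_map.mp hv
      exact hfB i
    · rw [Finset.card_map]
      exact (hF1 W hW).2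
  · intro Y hYB hY
    have h1 : (univ.filter fun i => f i ∈ Y).map f = Y := by
      ext v
      rw [Finset.mem_map]
      constructor
      · rintro ⟨i, hi, rfl⟩
        exact (Finset.mem_filter.mp hi).2
      · intro hv
        obtain ⟨i, rfl⟩ := hfs v (hYB hv)
        exact ⟨i, Finset.mem_filter.mpr ⟨Finset.mem_univ _, hv⟩, rfl⟩
    have h2 : (univ.filter fun i => f i ∈ Y).card = k + s := by
      rw [← Finset.card_map f, h1, hY]
    obtain ⟨Z, hZ, hZY⟩ := hF2 _ (Finset.subset_univ _) h2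
    refine ⟨Z.map f, Finset.mem_image_of_mem _ hZ, ?_⟩
    rw [← h1]
    exact Finset.map_subset_map.mpr hZY
  · refine le_trans ?_ hF3
    exact_mod_cast Finset.card_image_le

/-- a system on any type gives the bound -/
theorem TD.of_type {s k : ℕ} {c : ℝ}
    (h : ∀ n : ℕ, ∃ F : Finset (Finset (Fin n)), CovS univ s k F ∧
      (F.card : ℝ) ≤ c * (n.choose k : ℝ)) : TD s k c := h

end

theorem sum_choose_aux (r : ℕ) : ∀ n : ℕ, ∑ m ∈ range n, m.choose r = n.choose (r + 1)
  | 0 => by simp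
  | n + 1 => by
    rw [sum_range_succ, sum_choose_aux r n, Nat.choose_succ_succ, add_comm]

/-- monotonicity in the uniformity -/
theorem TD.succ {s r : ℕ} {t : ℝ} (h : TD s r t) : TD s (r + 1) t := by
  intro n
  have h1 : ∀ m : Fin n, ∃ G : Finset (Finset (Fin n)), CovS (Finset.Iio m) s r G ∧
      (G.card : ℝ) ≤ t * ((m : ℕ).choose r : ℝ) := by
    intro m
    obtain ⟨G, hG1, hG2⟩ := h.transport (Finset.Iio m)
    refine ⟨G, hG1, ?_⟩
    rw [Fin.card_Iio] at hG2
    exact hG2
  choose G hG1 hG2 using h1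
  refine ⟨univ.biUnion fun m => (G m).image (insert m), ⟨?_, ?_⟩, ?_⟩
  · intro Z hZ
    simp only [mem_biUnion, mem_univ, true_and, mem_image] at hZ
    obtain ⟨m, Z', hZ', rfl⟩ := hZ
    obtain ⟨h2, h3⟩ := (hG1 m).1 Z' hZ'
    refine ⟨subset_univ _, ?_⟩
    rw [card_insert_of_notMem, h3]
    intro hm
    exact absurd (Finset.mem_Iio.1 (h2 hm)) (lt_irrefl _)
  · intro W _ hW
    have hne : W.Nonempty := by
      rw [← card_pos]
      omega
    set m := W.max' hne with hm
    have hmW : m ∈ W := W.max'_mem hne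
    obtain ⟨Z, hZ1, hZ2⟩ := (hG1 m).2 (W.erase m) (by
      intro v hv
      rw [mem_erase] at hv
      exact Finset.mem_Iio.2 (lt_of_le_of_ne (W.le_max' v hv.2) hv.1)) (by
      rw [card_erase_of_mem hmW]
      omega)
    refine ⟨insert m Z, ?_, ?_⟩
    · simp only [mem_biUnion, mem_univ, true_and, mem_image]
      exact ⟨m, Z, hZ1, rfl⟩
    · intro v hv
      rcases mem_insert.1 hv with rfl | hv
      · exact hmW
      · exact (mem_erase.1 (hZ2 hv)).2
  · calc ((univ.biUnion fun m => (G m).image (insert m)).card : ℝ)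
        ≤ ((∑ m : Fin n, (G m).card : ℕ) : ℝ) := by
          exact_mod_cast (card_biUnion_le.trans (sum_le_sum fun m _ => card_image_le))
      _ = ∑ m : Fin n, ((G m).card : ℝ) := by push_cast; rfl
      _ ≤ ∑ m : Fin n, t * ((m : ℕ).choose r : ℝ) := sum_le_sum fun m _ => hG2 m
      _ = t * ((∑ m ∈ range n, m.choose r : ℕ) : ℝ) := by
          rw [← mul_sum, ← Fin.sum_univ_eq_sum_range (fun m => m.choose r) n]
          push_cast
          rfl
      _ = _ := by rw [sum_choose_aux]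

theorem TD.of_le {s r r' : ℕ} {t : ℝ} (h : TD s r t) (hr : r ≤ r') : TD s r' t := by
  induction r', hr using Nat.le_induction with
  | base => exact h
  | succ m _ ih => exact ih.succ

/-- the system of all sets, `s = 0` -/
theorem TD.zero (k : ℕ) : TD 0 k 1 := TD.trivial 0 k

end Pool.Agent.H613T
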