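import Pool.Agent.H613T.Defs
import Pool.Agent.H123R2.Avg

/-!
Turán systems for large `k` from random patterns of types: greedy covering, lifting, partition.
-/

set_option autoImplicit false
set_option linter.unusedSectionVars false

namespace Pool.Agent.H613T

open Finset Pool.Agent.H123R2

section
variable {V : Type} [Fintype V] [DecidableEq V]

theorem sum_pairs (P U : Finset (Finset V)) :
    ∑ Z ∈ P, ((U.filter (fun W => Z ⊆ W)).card : ℝ) =
      ∑ W ∈ U, ((P.filter (fun Z => Z ⊆ W)).card : ℝ) := by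
  simp only [card_filter, Nat.cast_sum]
  exact sum_comm

theorem sub_count {r d : ℕ} {W : Finset V} (hW : W.card = d) :
    ((powersetCard r (univ : Finset V)).filter (fun Z => Z ⊆ W)).card = d.choose r := by
  rw [← hW, ← card_powersetCard]
  congr 1
  ext Z
  simp only [mem_filter, mem_powersetCard, subset_univ, true_and]
  tauto

/-- one greedy step -/
theorem greedy_step {r d : ℕ} (hrd : r ≤ d) (hd : d ≤ Fintype.card V) (U : Finset (Finset V))
    (hU : ∀ W ∈ U, W.card = d) :
    ∃ Z : Finset V, Z.card = r ∧ ((U.filter (fun W => ¬ Z ⊆ W)).card : ℝ) ≤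
      (U.card : ℝ) * (1 - (d.choose r : ℝ) / ((Fintype.card V).choose r : ℝ)) := by
  have hnr : 0 < (Fintype.card V).choose r := Nat.choose_pos (hrd.trans hd)
  have hnr' : (0 : ℝ) < ((Fintype.card V).choose r : ℝ) := by exact_mod_cast hnr
  obtain ⟨Z, hZ, hZle⟩ : ∃ Z ∈ powersetCard r (univ : Finset V),
      (U.card : ℝ) * (d.choose r : ℝ) / ((Fintype.card V).choose r : ℝ) ≤
        ((U.filter (fun W => Z ⊆ W)).card : ℝ) := by
    apply exists_le_of_sum_le
    · rw [powersetCard_nonempty, card_univ]; exact hrd.trans hd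
    · have e1 : ∑ W ∈ U, (((powersetCard r (univ : Finset V)).filter (fun Z => Z ⊆ W)).card : ℝ) =
          (U.card : ℝ) * (d.choose r : ℝ) := by
        rw [sum_congr rfl (g := fun _ => (d.choose r : ℝ)), sum_const, nsmul_eq_mul]
        intro W hW
        rw [sub_count (hU W hW)]
      rw [sum_pairs, e1, sum_const, card_powersetCard, card_univ, nsmul_eq_mul]
      apply le_of_eq
      field_simp
  refine ⟨Z, (mem_powersetCard.1 hZ).2, ?_⟩
  have e4 : ((U.filter (fun W => Z ⊆ W)).card : ℝ) + ((U.filter (fun W => ¬ Z ⊆ W)).card : ℝ) =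
      (U.card : ℝ) := by
    exact_mod_cast card_filter_add_card_filter_not (s := U) (fun W => Z ⊆ W)
  have : (U.card : ℝ) * (1 - (d.choose r : ℝ) / ((Fintype.card V).choose r : ℝ)) =
    (U.card : ℝ) - (U.card : ℝ) * (d.choose r : ℝ) / ((Fintype.card V).choose r : ℝ) := by
    ring
  rw [this]
  linarith

/-- greedy covering -/
theorem greedy {r d : ℕ} (hrd : r ≤ d) (hd : d ≤ Fintype.card V) (m : ℕ) :
    ∃ G : Finset (Finset V), (∀ Z ∈ G, Z.card = r) ∧ G.card ≤ m ∧
      (((powersetCard d (univ : Finset V)).filter (fun W => ∀ Z ∈ G, ¬ Z ⊆ W)).card : ℝ) ≤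
        ((Fintype.card V).choose d : ℝ) *
          (1 - (d.choose r : ℝ) / ((Fintype.card V).choose r : ℝ)) ^ m := by
  have hnr : 0 < (Fintype.card V).choose r := Nat.choose_pos (hrd.trans hd)
  have hnr' : (0 : ℝ) < ((Fintype.card V).choose r : ℝ) := by exact_mod_cast hnr
  induction m with
  | zero =>
    refine ⟨∅, by simp, by simp, ?_⟩
    rw [pow_zero, mul_one]
    refine le_trans (Nat.cast_le.2 (card_filter_le _ _)) ?_
    rw [card_powersetCard, card_univ]
  | succ m ih =>
    obtain ⟨G, h1, h2, h3⟩ := ih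
    obtain ⟨Z, hZ, hZ2⟩ := greedy_step hrd hd
      ((powersetCard d (univ : Finset V)).filter (fun W => ∀ Z ∈ G, ¬ Z ⊆ W))
      (fun W hW => (mem_powersetCard.1 (mem_filter.1 hW).1).2)
    refine ⟨insert Z G, ?_, ?_, ?_⟩
    · intro Z' hZ'
      rcases mem_insert.1 hZ' with rfl | h
      · exact hZ
      · exact h1 _ h
    · exact (card_insert_le _ _).trans (by omega)
    · have e3 : (powersetCard d (univ : Finset V)).filter (fun W => ∀ Z' ∈ insert Z G, ¬ Z' ⊆ W) =
          ((powersetCard d (univ : Finset V)).filter (fun W => ∀ Z ∈ G, ¬ Z ⊆ W)).filter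
            (fun W => ¬ Z ⊆ W) := by
        rw [filter_filter]
        apply filter_congr
        intro W _
        rw [forall_mem_insert]
        exact and_comm
      rw [e3]
      refine hZ2.trans ?_
      rw [pow_succ, ← mul_assoc]
      apply mul_le_mul_of_nonneg_right h3
      rw [sub_nonneg, div_le_one hnr']
      exact_mod_cast Nat.choose_le_choose r hd

/-- sets whose set of types is small or belongs to `G` -/
def typeFam {N : ℕ} (r u : ℕ) (g : V → Fin N) (G : Finset (Finset (Fin N))) : Finset (Finset V) :=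
  (powersetCard r (univ : Finset V)).filter (fun Z => (Z.image g).card ≤ u ∨ Z.image g ∈ G)

theorem typeFam_cover {N r s u h d : ℕ} (hu : u + h = r) (hh : 2 * h ≤ r) (hd : d + h = r + s + 1)
    (g : V → Fin N) {G : Finset (Finset (Fin N))} (hG1 : ∀ Z ∈ G, Z.card = r)
    (hG2 : ∀ D : Finset (Fin N), D.card = d → ∃ Z ∈ G, Z ⊆ D) :
    CovS univ s r (typeFam r u g G) := by
  classical
  refine ⟨fun Z hZ => ⟨subset_univ _, (mem_powersetCard.1 (mem_filter.1 hZ).1).2⟩, ?_⟩
  intro W _ hW
  rcases W.eq_empty_or_nonempty with hWe | ⟨w₀, hw₀⟩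
  · have h0 : r + s = 0 := by rw [← hW, hWe, card_empty]
    refine ⟨∅, ?_, empty_subset _⟩
    unfold typeFam
    rw [mem_filter, mem_powersetCard]
    refine ⟨⟨subset_univ _, by rw [card_empty]; omega⟩, Or.inl ?_⟩
    rw [image_empty, card_empty]
    exact Nat.zero_le _
  have h1 : ∀ y : Fin N, ∃ v : V, y ∈ W.image g → v ∈ W ∧ g v = y := by
    intro y
    by_cases hy : y ∈ W.image g
    · obtain ⟨v, hv, rfl⟩ := mem_image.1 hy
      exact ⟨v, fun _ => ⟨hv, rfl⟩⟩
    · exact ⟨w₀, fun h => absurd h hy⟩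
  choose f hf using h1
  by_cases hcase : d ≤ (W.image g).card
  · obtain ⟨D, hD, hDc⟩ := exists_subset_card_eq hcase
    obtain ⟨Z', hZ', hZD⟩ := hG2 D hDc
    have hinj : Set.InjOn f (Z' : Set (Fin N)) := by
      intro a ha b hb hab
      have ha' := (hf a (hD (hZD ha))).2
      have hb' := (hf b (hD (hZD hb))).2
      rw [← ha', ← hb', hab]
    have himg : (Z'.image f).image g = Z' := by
      rw [image_image]
      conv_rhs => rw [← image_id (s := Z')]
      apply image_congr
      intro a ha
      exact (hf a (hD (hZD ha))).2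
    refine ⟨Z'.image f, ?_, ?_⟩
    · unfold typeFam
      rw [mem_filter, mem_powersetCard]
      refine ⟨⟨subset_univ _, ?_⟩, Or.inr ?_⟩
      · rw [card_image_of_injOn hinj]
        exact hG1 _ hZ'
      · rw [himg]; exact hZ'
    · intro v hv
      obtain ⟨a, ha, rfl⟩ := mem_image.1 hv
      exact (hf a (hD (hZD ha))).1
  · push Not at hcase
    set R := (W.image g).image f with hR
    have hRW : R ⊆ W := by
      intro v hv
      obtain ⟨a, ha, rfl⟩ := mem_image.1 hv
      exact (hf a ha).1
    have hRc : R.card ≤ (W.image g).card := card_image_le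
    have h2 : h ≤ (W \ R).card := by
      rw [card_sdiff_of_subset hRW, hW]
      omega
    obtain ⟨Y, hY, hYc⟩ := exists_subset_card_eq h2
    have hYW : Y ⊆ W := hY.trans sdiff_subset
    set Y' := (Y.image g).image f with hY'
    have hY'R : Y' ⊆ R := image_subset_image (image_subset_image hYW)
    have hinj : Set.InjOn f ((Y.image g : Finset (Fin N)) : Set (Fin N)) := by
      intro a ha b hb hab
      have ha' := (hf a (image_subset_image hYW ha)).2
      have hb' := (hf b (image_subset_image hYW hb)).2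
      rw [← ha', ← hb', hab]
    have hY'c : Y'.card = (Y.image g).card := card_image_of_injOn hinj
    have hdisj : Disjoint Y Y' := by
      rw [disjoint_left]
      intro v hv hv'
      exact (mem_sdiff.1 (hY hv)).2 (hY'R hv')
    have hXc : (Y ∪ Y').card = h + (Y.image g).card := by
      rw [card_union_of_disjoint hdisj, hYc, hY'c]
    have hYi : (Y.image g).card ≤ h := by rw [← hYc]; exact card_image_le
    have hXW : Y ∪ Y' ⊆ W := union_subset hYW (hY'R.trans hRW)
    have hXi : (Y ∪ Y').image g = Y.image g := by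
      rw [image_union, hY', image_image]
      have : (Y.image g).image (g ∘ f) = Y.image g := by
        conv_rhs => rw [← image_id (s := Y.image g)]
        apply image_congr
        intro a ha
        exact (hf a (image_subset_image hYW ha)).2
      rw [this, union_self]
    obtain ⟨Z, hXZ, hZW, hZc⟩ := exists_subsuperset_card_eq hXW (show (Y ∪ Y').card ≤ r by omega)
      (show r ≤ W.card by omega)
    refine ⟨Z, ?_, hZW⟩
    unfold typeFam
    rw [mem_filter, mem_powersetCard]
    refine ⟨⟨subset_univ _, hZc⟩, Or.inl ?_⟩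
    have h3 : Z.image g ⊆ (Y ∪ Y').image g ∪ (Z \ (Y ∪ Y')).image g := by
      rw [← image_union, union_sdiff_of_subset hXZ]
    have h4 := card_le_card h3
    have h5 := card_union_le ((Y ∪ Y').image g) ((Z \ (Y ∪ Y')).image g)
    have h6 : ((Z \ (Y ∪ Y')).image g).card ≤ (Z \ (Y ∪ Y')).card := card_image_le
    rw [card_sdiff_of_subset hXZ, hXc, hZc] at h6
    rw [hXi] at h5 h4
    omega

/-- the uniform weights -/
noncomputable def uw (N : ℕ) : Fin N → ℝ := fun _ => 1 / (N : ℝ)

theorem uw_nonneg (N : ℕ) (i : Fin N) : 0 ≤ uw N i := by unfold uw; positivity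

theorem uw_sum {N : ℕ} (hN : 1 ≤ N) : ∑ i, uw N i = 1 := by
  unfold uw
  rw [sum_const, card_univ, Fintype.card_fin, nsmul_eq_mul]
  have : (N : ℝ) ≠ 0 := by positivity
  field_simp

/-- the average of a product over a set -/
theorem avg_on {N : ℕ} (hN : 1 ≤ N) (Z : Finset V) (S : V → Finset (Fin N)) :
    avg (uw N) (fun g : V → Fin N => if ∀ v ∈ Z, g v ∈ S v then (1 : ℝ) else 0) =
      ∏ v ∈ Z, ((S v).card / (N : ℝ)) := by
  have h1 : (fun g : V → Fin N => if ∀ v ∈ Z, g v ∈ S v then (1 : ℝ) else 0) =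
      fun g => ∏ v, (if v ∈ Z then (if g v ∈ S v then (1 : ℝ) else 0) else 1) := by
    funext g
    rw [prod_ite_mem, univ_inter]
    rw [prod_ite_zero]
    simp
  rw [h1, avg_prod (uw N) (fun v c => if v ∈ Z then (if c ∈ S v then (1 : ℝ) else 0) else 1)]
  have h2 : ∀ v : V, ∑ c, uw N c * (if v ∈ Z then (if c ∈ S v then (1 : ℝ) else 0) else 1) =
      if v ∈ Z then ((S v).card / (N : ℝ)) else 1 := by
    intro v
    split_ifs with h
    · unfold uw
      simp only [mul_ite, mul_one, mul_zero]
      rw [sum_ite_mem, univ_inter, sum_const, nsmul_eq_mul]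
      ring
    · simp only [mul_one]
      exact uw_sum hN
  rw [prod_congr rfl fun v _ => h2 v, prod_ite_mem, univ_inter]

theorem avg_sub {N r : ℕ} (hN : 1 ≤ N) {Z : Finset V} (hZ : Z.card = r) (S : Finset (Fin N)) :
    avg (uw N) (fun g : V → Fin N => if Z.image g ⊆ S then (1 : ℝ) else 0) =
      ((S.card : ℝ) / N) ^ r := by
  have h := avg_on hN Z (fun _ => S)
  rw [prod_const, hZ] at h
  rw [← h]
  congr 1
  funext g
  simp only [image_subset_iff]

theorem avg_eq {N r : ℕ} (hN : 1 ≤ N) {Z : Finset V} (hZ : Z.card = r) {S : Finset (Fin N)}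
    (hS : S.card = r) :
    avg (uw N) (fun g : V → Fin N => if Z.image g = S then (1 : ℝ) else 0) ≤
      (r.factorial : ℝ) / (N : ℝ) ^ r := by
  classical
  have hpt : ∀ g : V → Fin N, (if Z.image g = S then (1 : ℝ) else 0) ≤
      ∑ σ : Z ≃ S, (if ∀ v ∈ Z, g v ∈ (if h : v ∈ Z then ({(σ ⟨v, h⟩ : Fin N)} : Finset (Fin N))
        else univ) then (1 : ℝ) else 0) := by
    intro g
    by_cases hg : Z.image g = S
    · rw [if_pos hg]
      have hinj : Set.InjOn g (Z : Set V) := by
        rw [← card_image_iff, hg, hS, hZ]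
      have hbij : Function.Bijective (fun v : Z => (⟨g v, hg ▸ mem_image_of_mem g v.2⟩ : S)) := by
        constructor
        · intro a b hab
          have : g a = g b := congrArg Subtype.val hab
          exact Subtype.ext (hinj a.2 b.2 this)
        · rintro ⟨y, hy⟩
          rw [← hg] at hy
          obtain ⟨v, hv, rfl⟩ := mem_image.1 hy
          exact ⟨⟨v, hv⟩, rfl⟩
      have h1 : (1 : ℝ) = (if ∀ v ∈ Z, g v ∈ (if h : v ∈ Z then
          ({((Equiv.ofBijective _ hbij) ⟨v, h⟩ : Fin N)} : Finset (Fin N))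
        else univ) then (1 : ℝ) else 0) := by
        rw [if_pos]
        intro v hv
        rw [dif_pos hv, mem_singleton]
        rfl
      refine le_trans (le_of_eq h1) ?_
      exact single_le_sum (f := fun σ : Z ≃ S => (if ∀ v ∈ Z, g v ∈ (if h : v ∈ Z then
        ({(σ ⟨v, h⟩ : Fin N)} : Finset (Fin N)) else univ) then (1 : ℝ) else 0))
        (fun σ _ => by positivity) (mem_univ _)
    · rw [if_neg hg]
      exact sum_nonneg fun σ _ => by positivity
  refine (avg_mono (uw N) (uw_nonneg N) hpt).trans ?_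
  rw [avg_sum]
  have h2 : ∀ σ ∈ (univ : Finset (Z ≃ S)), avg (uw N) (fun g : V → Fin N =>
      (if ∀ v ∈ Z, g v ∈ (if h : v ∈ Z then ({(σ ⟨v, h⟩ : Fin N)} : Finset (Fin N))
        else univ) then (1 : ℝ) else 0)) = 1 / (N : ℝ) ^ r := by
    intro σ _
    rw [avg_on hN]
    rw [prod_congr rfl (g := fun _ => 1 / (N : ℝ)), prod_const, hZ, one_div, one_div, inv_pow]
    intro v hv
    rw [dif_pos hv, card_singleton, Nat.cast_one]
  rw [sum_congr rfl h2, sum_const, card_univ, nsmul_eq_mul]
  have h3 : Fintype.card (Z ≃ S) = r.factorial := by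
    have e : Z ≃ S := Fintype.equivOfCardEq (by simp [hZ, hS])
    rw [Fintype.card_equiv e, Fintype.card_coe, hZ]
  rw [h3]
  apply le_of_eq
  ring

/-- a good assignment of types -/
theorem typeFam_avg {N r u : ℕ} (hN : 1 ≤ N) (hu : u ≤ N) {G : Finset (Finset (Fin N))}
    (hG : ∀ Z ∈ G, Z.card = r) :
    ∃ g : V → Fin N, ((typeFam r u g G).card : ℝ) ≤
      ((N.choose u : ℝ) * ((u : ℝ) / N) ^ r + (G.card : ℝ) * ((r.factorial : ℝ) / (N : ℝ) ^ r)) *
        ((Fintype.card V).choose r : ℝ) := by
  classical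
  obtain ⟨g, hg⟩ := exists_le_avg (uw N) (uw_nonneg N) (uw_sum hN)
    (fun g : V → Fin N => ((typeFam r u g G).card : ℝ))
  refine ⟨g, hg.trans ?_⟩
  have h1 : ∀ g : V → Fin N, ((typeFam r u g G).card : ℝ) ≤
      ∑ Z ∈ powersetCard r (univ : Finset V),
        ((∑ S ∈ powersetCard u (univ : Finset (Fin N)), if Z.image g ⊆ S then (1 : ℝ) else 0) +
          ∑ S ∈ G, if Z.image g = S then (1 : ℝ) else 0) := by
    intro g
    unfold typeFam
    rw [card_filter]
    push_cast
    refine sum_le_sum fun Z hZ => ?_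
    have hA : (0 : ℝ) ≤ ∑ S ∈ powersetCard u (univ : Finset (Fin N)),
        if Z.image g ⊆ S then (1 : ℝ) else 0 := sum_nonneg fun _ _ => by positivity
    have hB : (0 : ℝ) ≤ ∑ S ∈ G, if Z.image g = S then (1 : ℝ) else 0 :=
      sum_nonneg fun _ _ => by positivity
    by_cases hc : (Z.image g).card ≤ u ∨ Z.image g ∈ G
    · rw [if_pos hc]
      rcases hc with hc | hc
      · obtain ⟨S, hS1, hS2⟩ : ∃ S : Finset (Fin N), Z.image g ⊆ S ∧ S.card = u := by
          obtain ⟨S, h1, _, h2⟩ := exists_subsuperset_card_eq (subset_univ (Z.image g)) hc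
            (by rw [card_univ, Fintype.card_fin]; exact hu)
          exact ⟨S, h1, h2⟩
        have : (1 : ℝ) ≤ ∑ S ∈ powersetCard u (univ : Finset (Fin N)),
            if Z.image g ⊆ S then (1 : ℝ) else 0 := by
          refine le_trans ?_ (single_le_sum (f := fun S => if Z.image g ⊆ S then (1 : ℝ) else 0)
            (fun S _ => by positivity) (mem_powersetCard.2 ⟨subset_univ S, hS2⟩))
          simp only [if_pos hS1, le_refl]
        linarith
      · have : (1 : ℝ) ≤ ∑ S ∈ G, if Z.image g = S then (1 : ℝ) else 0 := by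
          refine le_trans ?_ (single_le_sum (f := fun S => if Z.image g = S then (1 : ℝ) else 0)
            (fun S _ => by positivity) hc)
          simp
        linarith
    · rw [if_neg hc]
      positivity
  refine (avg_mono (uw N) (uw_nonneg N) h1).trans ?_
  rw [avg_sum]
  have h2 : ∀ Z ∈ powersetCard r (univ : Finset V), avg (uw N) (fun g : V → Fin N =>
      ((∑ S ∈ powersetCard u (univ : Finset (Fin N)), if Z.image g ⊆ S then (1 : ℝ) else 0) +
          ∑ S ∈ G, if Z.image g = S then (1 : ℝ) else 0)) ≤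
      (N.choose u : ℝ) * ((u : ℝ) / N) ^ r + (G.card : ℝ) * ((r.factorial : ℝ) / (N : ℝ) ^ r) := by
    intro Z hZ
    have hZc := (mem_powersetCard.1 hZ).2
    rw [avg_add, avg_sum, avg_sum]
    apply add_le_add
    · rw [sum_congr rfl (g := fun _ => ((u : ℝ) / N) ^ r), sum_const, card_powersetCard, card_univ,
        Fintype.card_fin, nsmul_eq_mul]
      intro S hS
      rw [avg_sub hN hZc, (mem_powersetCard.1 hS).2]
    · refine (sum_le_sum fun S hS => avg_eq hN hZc (hG S hS)).trans ?_
      rw [sum_const, nsmul_eq_mul]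
  refine (sum_le_sum h2).trans ?_
  rw [sum_const, card_powersetCard, card_univ, nsmul_eq_mul, mul_comm]

end

/-- the density of the type construction -/
theorem TD.types {N r s u h d : ℕ} (hN : 1 ≤ N) (huN : u ≤ N) (hu : u + h = r) (hh : 2 * h ≤ r)
    (hd : d + h = r + s + 1) {G : Finset (Finset (Fin N))} (hG1 : ∀ Z ∈ G, Z.card = r)
    (hG2 : ∀ D : Finset (Fin N), D.card = d → ∃ Z ∈ G, Z ⊆ D) :
    TD s r ((N.choose u : ℝ) * ((u : ℝ) / N) ^ r +
      (G.card : ℝ) * ((r.factorial : ℝ) / (N : ℝ) ^ r)) := by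
  intro n
  obtain ⟨g, hg⟩ := typeFam_avg (V := Fin n) hN huN hG1
  rw [Fintype.card_fin] at hg
  exact ⟨_, typeFam_cover hu hh hd g hG1 hG2, hg⟩

/-- splitting into `m` parts -/
theorem TD.partition {s s' r m : ℕ} {c : ℝ} (h : TD s r c) (hc : 0 ≤ c) (hm : 1 ≤ m) (hr : 1 ≤ r)
    (hs : m * (r + s - 1) + 1 ≤ r + s') : TD s' r (c / (m : ℝ) ^ (r - 1)) := by
  classical
  intro n
  choose G hG1 hG2 using fun B : Finset (Fin n) => h.transport B
  obtain ⟨g, hg⟩ := exists_le_avg (uw m) (uw_nonneg m) (uw_sum hm)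
    (fun g : Fin n → Fin m => ∑ i, c * (((univ.filter fun v => g v = i).card.choose r : ℕ) : ℝ))
  refine ⟨univ.biUnion fun i => G (univ.filter fun v => g v = i), ⟨?_, ?_⟩, ?_⟩
  · intro Z hZ
    obtain ⟨i, _, hi⟩ := mem_biUnion.1 hZ
    exact ⟨subset_univ _, ((hG1 _).1 Z hi).2⟩
  · intro Y _ hY
    have h1 : ∑ i : Fin m, (Y.filter fun v => g v = i).card = Y.card := by
      rw [card_eq_sum_card_fiberwise (f := g) (t := univ) (fun _ _ => mem_univ _)]
    obtain ⟨i, hi⟩ : ∃ i : Fin m, r + s ≤ (Y.filter fun v => g v = i).card := by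
      by_contra hcon
      push Not at hcon
      have h2 : ∑ i : Fin m, (Y.filter fun v => g v = i).card ≤ ∑ _i : Fin m, (r + s - 1) :=
        sum_le_sum fun i _ => by have := hcon i; omega
      rw [h1, sum_const, card_univ, Fintype.card_fin, smul_eq_mul] at h2
      omega
    obtain ⟨Y', hY', hY'c⟩ := exists_subset_card_eq hi
    obtain ⟨Z, hZ, hZY⟩ := (hG1 (univ.filter fun v => g v = i)).2 Y' (by
      intro v hv
      exact mem_filter.2 ⟨mem_univ _, (mem_filter.1 (hY' hv)).2⟩) hY'c
    exact ⟨Z, mem_biUnion.2 ⟨i, mem_univ _, hZ⟩, hZY.trans (hY'.trans (filter_subset _ _))⟩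
  · have h1 : (((univ.biUnion fun i => G (univ.filter fun v => g v = i)).card : ℕ) : ℝ) ≤
        ∑ i, c * (((univ.filter fun v => g v = i).card.choose r : ℕ) : ℝ) := by
      refine le_trans (Nat.cast_le.2 card_biUnion_le) ?_
      push_cast
      exact sum_le_sum fun i _ => hG2 _
    refine h1.trans (hg.trans ?_)
    have h2 : (fun g : Fin n → Fin m => ∑ i, c * (((univ.filter fun v => g v = i).card.choose r : ℕ) : ℝ)) =
        fun g => c * ∑ Z ∈ powersetCard r (univ : Finset (Fin n)), ∑ i : Fin m,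
          if Z.image g ⊆ {i} then (1 : ℝ) else 0 := by
      funext g
      rw [← mul_sum, sum_comm]
      congr 1
      refine sum_congr rfl fun i _ => ?_
      rw [← card_powersetCard]
      have e1 : powersetCard r (univ.filter fun v => g v = i) =
          (powersetCard r (univ : Finset (Fin n))).filter (fun Z => Z.image g ⊆ {i}) := by
        ext Z
        rw [mem_filter, mem_powersetCard, mem_powersetCard]
        constructor
        · rintro ⟨h1, h2⟩
          refine ⟨⟨subset_univ _, h2⟩, ?_⟩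
          intro x hx
          obtain ⟨v, hv, rfl⟩ := mem_image.1 hx
          rw [mem_singleton]
          exact (mem_filter.1 (h1 hv)).2
        · rintro ⟨⟨_, h2⟩, h3⟩
          refine ⟨fun v hv => mem_filter.2 ⟨mem_univ _, ?_⟩, h2⟩
          have := h3 (mem_image_of_mem g hv)
          rwa [mem_singleton] at this
      rw [e1, card_filter]
      push_cast
      rfl
    rw [h2, avg_mul_left, avg_sum]
    have h3 : ∀ Z ∈ powersetCard r (univ : Finset (Fin n)), avg (uw m) (fun g : Fin n → Fin m =>
        ∑ i : Fin m, if Z.image g ⊆ {i} then (1 : ℝ) else 0) = 1 / (m : ℝ) ^ (r - 1) := by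
      intro Z hZ
      rw [avg_sum, sum_congr rfl (g := fun _ => ((1 : ℝ) / m) ^ r), sum_const,
        card_univ, Fintype.card_fin, nsmul_eq_mul]
      swap
      · intro i _
        rw [avg_sub hm (mem_powersetCard.1 hZ).2 {i}, card_singleton, Nat.cast_one]
      obtain ⟨q, rfl⟩ : ∃ q, r = q + 1 := ⟨r - 1, by omega⟩
      have hm0 : (m : ℝ) ≠ 0 := by positivity
      rw [Nat.add_sub_cancel, div_pow, one_pow, pow_succ]
      field_simp
    rw [sum_congr rfl h3, sum_const, card_powersetCard, card_univ, Fintype.card_fin, nsmul_eq_mul]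
    apply le_of_eq
    ring

end Pool.Agent.H613T
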