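import Pool.Agent.H613T.Large1

/-!
Turán systems for large `k`: the explicit bound.
-/

set_option autoImplicit false
set_option linter.unusedSectionVars false

namespace Pool.Agent.H613T

open Finset

theorem cover_exists {N r d : ℕ} (hrd : r ≤ d) (hd : d ≤ N) :
    ∃ G : Finset (Finset (Fin N)), (∀ Z ∈ G, Z.card = r) ∧
      (∀ D : Finset (Fin N), D.card = d → ∃ Z ∈ G, Z ⊆ D) ∧
      (G.card : ℝ) ≤ Real.log (N.choose d) * (N.choose r : ℝ) / (d.choose r : ℝ) + 1 := by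
  set L := Real.log (N.choose d) with hL
  have hNd : 0 < N.choose d := Nat.choose_pos hd
  have hNr : 0 < N.choose r := Nat.choose_pos (hrd.trans hd)
  have hdr : 0 < d.choose r := Nat.choose_pos hrd
  have hNd' : (0 : ℝ) < (N.choose d : ℝ) := by exact_mod_cast hNd
  have hNr' : (0 : ℝ) < (N.choose r : ℝ) := by exact_mod_cast hNr
  have hdr' : (0 : ℝ) < (d.choose r : ℝ) := by exact_mod_cast hdr
  have hL0 : 0 ≤ L := Real.log_nonneg (by exact_mod_cast hNd)
  set ρ : ℝ := (d.choose r : ℝ) / (N.choose r : ℝ) with hρ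
  have hρ0 : 0 < ρ := by positivity
  have hρ1 : ρ ≤ 1 := by
    rw [hρ, div_le_one hNr']
    exact_mod_cast Nat.choose_le_choose r hd
  obtain ⟨G, h1, h2, h3⟩ := greedy (V := Fin N) hrd (by rw [Fintype.card_fin]; exact hd)
    (⌊L / ρ⌋₊ + 1)
  rw [Fintype.card_fin] at h3
  have h4 : (N.choose d : ℝ) * (1 - ρ) ^ (⌊L / ρ⌋₊ + 1) < 1 := by
    have e1 : (1 - ρ) ^ (⌊L / ρ⌋₊ + 1) ≤ Real.exp (-(ρ * ((⌊L / ρ⌋₊ + 1 : ℕ) : ℝ))) := by
      calc (1 - ρ) ^ (⌊L / ρ⌋₊ + 1) ≤ (Real.exp (-ρ)) ^ (⌊L / ρ⌋₊ + 1) :=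
            pow_le_pow_left₀ (by linarith) (Real.one_sub_le_exp_neg ρ) _
        _ = _ := by
            rw [← Real.exp_nat_mul]
            congr 1
            ring
    have e2 : L < ρ * ((⌊L / ρ⌋₊ + 1 : ℕ) : ℝ) := by
      have := Nat.lt_floor_add_one (L / ρ)
      rw [div_lt_iff₀ hρ0] at this
      push_cast
      linarith
    have e3 : (N.choose d : ℝ) = Real.exp L := by rw [hL, Real.exp_log hNd']
    calc (N.choose d : ℝ) * (1 - ρ) ^ (⌊L / ρ⌋₊ + 1)
        ≤ (N.choose d : ℝ) * Real.exp (-(ρ * ((⌊L / ρ⌋₊ + 1 : ℕ) : ℝ))) :=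
          mul_le_mul_of_nonneg_left e1 hNd'.le
      _ = Real.exp (L - ρ * ((⌊L / ρ⌋₊ + 1 : ℕ) : ℝ)) := by
          rw [e3, ← Real.exp_add]; congr 1
      _ < 1 := by
          rw [Real.exp_lt_one_iff]
          linarith
  refine ⟨G, h1, ?_, ?_⟩
  · intro D hD
    by_contra hcon
    push Not at hcon
    have h5 : D ∈ (powersetCard d (univ : Finset (Fin N))).filter (fun W => ∀ Z ∈ G, ¬ Z ⊆ W) :=
      mem_filter.2 ⟨mem_powersetCard.2 ⟨subset_univ _, hD⟩, hcon⟩
    have h6 : 1 ≤ ((powersetCard d (univ : Finset (Fin N))).filter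
        (fun W => ∀ Z ∈ G, ¬ Z ⊆ W)).card := card_pos.2 ⟨D, h5⟩
    have h7 : (1 : ℝ) ≤ (((powersetCard d (univ : Finset (Fin N))).filter
        (fun W => ∀ Z ∈ G, ¬ Z ⊆ W)).card : ℝ) := by exact_mod_cast h6
    linarith
  · have h5 : ((⌊L / ρ⌋₊ + 1 : ℕ) : ℝ) ≤ L / ρ + 1 := by
      push_cast
      have := Nat.floor_le (show 0 ≤ L / ρ by positivity)
      linarith
    have h6 : (G.card : ℝ) ≤ ((⌊L / ρ⌋₊ + 1 : ℕ) : ℝ) := by exact_mod_cast h2
    refine h6.trans (h5.trans (le_of_eq ?_))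
    rw [hρ]
    field_simp

theorem pow_self_le (n : ℕ) : (n : ℝ) ^ n ≤ 3 ^ n * (n.factorial : ℝ) := by
  have h1 := Real.pow_div_factorial_le_exp (n : ℝ) (Nat.cast_nonneg _) n
  have h2 : Real.exp (n : ℝ) ≤ 3 ^ n := by
    rw [← Real.exp_one_pow]
    exact pow_le_pow_left₀ (Real.exp_pos _).le Real.exp_one_lt_three.le n
  have h3 : (0 : ℝ) < (n.factorial : ℝ) := by exact_mod_cast n.factorial_pos
  rw [div_le_iff₀ h3] at h1
  exact h1.trans (mul_le_mul_of_nonneg_right h2 h3.le)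

theorem log_choose_le {N d : ℕ} (hd : 1 ≤ d) (hdN : d ≤ N) :
    Real.log (N.choose d) ≤ (d : ℝ) * (1 + Real.log ((N : ℝ) / d)) := by
  have hd0 : (0 : ℝ) < d := by exact_mod_cast hd
  have hN0 : (0 : ℝ) < N := by exact_mod_cast (lt_of_lt_of_le hd hdN)
  have hf : (0 : ℝ) < (d.factorial : ℝ) := by exact_mod_cast d.factorial_pos
  have h1 : (N.choose d : ℝ) ≤ (N : ℝ) ^ d / (d.factorial : ℝ) := Nat.choose_le_pow_div d N
  have h2 := Real.pow_div_factorial_le_exp (d : ℝ) hd0.le d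
  have h3 : (N.choose d : ℝ) ≤ Real.exp (d * (1 + Real.log ((N : ℝ) / d))) := by
    have e1 : Real.exp (d * (1 + Real.log ((N : ℝ) / d))) = Real.exp d * ((N : ℝ) / d) ^ d := by
      rw [mul_add, mul_one, Real.exp_add]
      congr 1
      rw [mul_comm, Real.exp_mul, Real.exp_log (by positivity), Real.rpow_natCast]
    rw [e1]
    refine h1.trans ?_
    calc (N : ℝ) ^ d / (d.factorial : ℝ) = ((d : ℝ) ^ d / (d.factorial : ℝ)) * ((N : ℝ) / d) ^ d := by
          rw [div_pow]; field_simp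
      _ ≤ Real.exp d * ((N : ℝ) / d) ^ d := mul_le_mul_of_nonneg_right h2 (by positivity)
  have h4 : (0 : ℝ) < (N.choose d : ℝ) := by exact_mod_cast Nat.choose_pos hdN
  rw [← Real.log_exp (d * (1 + Real.log ((N : ℝ) / d)))]
  exact Real.log_le_log h4 h3

/-- the degenerate sets -/
theorem deg_bound {q r h u α : ℕ} (hr : 18 ≤ r) (hu : u + h = r) (hh : 2 * h ≤ r)
    (huh : u ≤ h + 1) (hα : 1 ≤ α) (hq : α ≤ q * r) {N : ℕ} (hN : (N : ℝ) = 108 * q * (α : ℝ)) :
    (N.choose u : ℝ) * ((u : ℝ) / N) ^ r ≤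
      (r.factorial : ℝ) / (α : ℝ) ^ (r - 1) := by
  have hq1 : 1 ≤ q := by
    rcases Nat.eq_zero_or_pos q with h0 | h0
    · rw [h0] at hq; omega
    · exact h0
  have hq0 : (1 : ℝ) ≤ q := by exact_mod_cast hq1
  have hr0 : (18 : ℝ) ≤ r := by exact_mod_cast hr
  set a : ℝ := (α : ℝ) with ha
  have ha0 : 0 < a := by rw [ha]; exact_mod_cast hα
  have haq : a ≤ q * r := by rw [ha]; exact_mod_cast hq
  have hN0 : (0 : ℝ) < N := by rw [hN]; positivity
  have hu9 : (9 : ℝ) ≤ u := by exact_mod_cast (show 9 ≤ u by omega)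
  have hu0 : (0 : ℝ) < u := by linarith
  have hfu : (0 : ℝ) < (u.factorial : ℝ) := by exact_mod_cast u.factorial_pos
  have hfr : (0 : ℝ) < (r.factorial : ℝ) := by exact_mod_cast r.factorial_pos
  have h2u : (r : ℝ) ≤ 2 * u := by exact_mod_cast (show r ≤ 2 * u by omega)
  have key1 : a ^ (r - 1) * 3 ^ (r + u) ≤ (u : ℝ) ^ u * (N : ℝ) ^ h := by
    have hr1 : r - 1 = h + (u - 1) := by omega
    have e1 : a ^ (u - 1) ≤ (2 * q * u) ^ (u - 1) := by
      apply pow_le_pow_left₀ ha0.le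
      nlinarith [mul_nonneg (show (0 : ℝ) ≤ q by positivity) (sub_nonneg.2 h2u)]
    have e2 : (3 : ℝ) ^ (r + u) ≤ 27 ^ h * 9 := by
      calc (3 : ℝ) ^ (r + u) ≤ 3 ^ (3 * h + 2) := pow_le_pow_right₀ (by norm_num) (by omega)
        _ = 27 ^ h * 9 := by rw [pow_add, pow_mul]; norm_num
    have e3 : (2 * (q : ℝ)) ^ (u - 1) ≤ (2 * q) ^ h := by
      apply pow_le_pow_right₀ _ (by omega)
      linarith
    have e4 : (9 : ℝ) ≤ u * 2 ^ h := by
      have : (1 : ℝ) ≤ 2 ^ h := one_le_pow₀ (by norm_num)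
      nlinarith
    calc a ^ (r - 1) * 3 ^ (r + u) = a ^ h * (a ^ (u - 1) * 3 ^ (r + u)) := by
          rw [hr1, pow_add]; ring
      _ ≤ a ^ h * ((2 * q * u) ^ (u - 1) * (27 ^ h * 9)) := by gcongr
      _ = a ^ h * ((2 * q) ^ (u - 1) * (u ^ (u - 1) * 27 ^ h * 9)) := by
          rw [mul_pow (2 * (q : ℝ))]; ring
      _ ≤ a ^ h * ((2 * q) ^ h * (u ^ (u - 1) * 27 ^ h * (u * 2 ^ h))) := by gcongr
      _ = (u : ℝ) ^ u * (N : ℝ) ^ h := by
          rw [hN]
          have : (u : ℝ) ^ u = u ^ (u - 1) * u := by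
            rw [← pow_succ]; congr 1; omega
          rw [this, mul_pow (108 * (q : ℝ)) a h]
          have h108 : (108 * (q : ℝ)) ^ h = (2 * q) ^ h * 27 ^ h * 2 ^ h := by
            rw [← mul_pow, ← mul_pow]; congr 1; ring
          rw [h108]; ring
  have hCu : (N.choose u : ℝ) ≤ (N : ℝ) ^ u / (u.factorial : ℝ) := Nat.choose_le_pow_div u N
  have f1 := pow_self_le u
  have f2 := pow_self_le r
  have f3 : (u : ℝ) ^ r ≤ (r : ℝ) ^ r := by
    apply pow_le_pow_left₀ hu0.le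
    exact_mod_cast (show u ≤ r by omega)
  calc (N.choose u : ℝ) * ((u : ℝ) / N) ^ r
      ≤ (N : ℝ) ^ u / (u.factorial : ℝ) * ((u : ℝ) / N) ^ r :=
        mul_le_mul_of_nonneg_right hCu (by positivity)
    _ = (u : ℝ) ^ r / ((u.factorial : ℝ) * (N : ℝ) ^ h) := by
        have : (N : ℝ) ^ r = (N : ℝ) ^ u * (N : ℝ) ^ h := by rw [← pow_add, hu]
        rw [div_pow, this]
        field_simp
    _ ≤ (r.factorial : ℝ) / a ^ (r - 1) := by
        rw [div_le_div_iff₀ (by positivity) (by positivity)]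
        have g1 : (u : ℝ) ^ r * a ^ (r - 1) * 3 ^ (r + u) ≤
            (3 ^ r * (r.factorial : ℝ)) * ((3 ^ u * (u.factorial : ℝ)) * (N : ℝ) ^ h) := by
          calc (u : ℝ) ^ r * a ^ (r - 1) * 3 ^ (r + u) = (u : ℝ) ^ r * (a ^ (r - 1) * 3 ^ (r + u)) := by
                ring
            _ ≤ (3 ^ r * (r.factorial : ℝ)) * ((u : ℝ) ^ u * (N : ℝ) ^ h) :=
                mul_le_mul (f3.trans f2) key1 (by positivity) (by positivity)
            _ ≤ _ := by gcongr
        have g2 : (0 : ℝ) < 3 ^ (r + u) := by positivity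
        have g3 : (3 ^ r * (r.factorial : ℝ)) * ((3 ^ u * (u.factorial : ℝ)) * (N : ℝ) ^ h) =
            ((r.factorial : ℝ) * ((u.factorial : ℝ) * (N : ℝ) ^ h)) * 3 ^ (r + u) := by
          rw [pow_add]; ring
        rw [g3] at g1
        exact le_of_mul_le_mul_right g1 g2

/-- the base of the construction, `α = k - 1` -/
theorem TD.base {q r s α : ℕ} (hr : 18 ≤ r) (hs : r + s = α + 1) (hα : r ^ 2 ≤ α)
    (hq : α ≤ q * r) :
    TD s r ((r.factorial : ℝ) / (α : ℝ) ^ (r - 1) *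
      (Real.exp (4 * r ^ 2 / α) * (1 + Real.log (216 * q)) + 2)) := by
  obtain ⟨h, hh⟩ : ∃ h, h = r / 2 := ⟨_, rfl⟩
  obtain ⟨u, hu⟩ : ∃ u, u = r - h := ⟨_, rfl⟩
  obtain ⟨N, hN⟩ : ∃ N, N = 108 * q * α := ⟨_, rfl⟩
  obtain ⟨d, hd⟩ : ∃ d, d = α + 2 - h := ⟨_, rfl⟩
  have hαr : 18 * r ≤ α := by
    refine le_trans ?_ hα
    calc 18 * r ≤ r * r := Nat.mul_le_mul_right r hr
      _ = r ^ 2 := by ring
  have hq1 : 1 ≤ q := by
    rcases Nat.eq_zero_or_pos q with h0 | h0
    · rw [h0] at hq; omega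
    · exact h0
  have hNα : 108 * α ≤ N := by
    rw [hN]
    calc 108 * α = 108 * 1 * α := by ring
      _ ≤ 108 * q * α := by gcongr
  have hq0 : (1 : ℝ) ≤ q := by exact_mod_cast hq1
  have hr0 : (18 : ℝ) ≤ r := by exact_mod_cast hr
  obtain ⟨G, hG1, hG2, hG3⟩ := cover_exists (N := N) (r := r) (d := d) (by omega) (by omega)
  refine TD.mono (TD.types (N := N) (r := r) (s := s) (u := u) (h := h) (d := d) (by omega)
    (by omega) (by omega) (by omega) (by omega) hG1 hG2) ?_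
  set a : ℝ := (α : ℝ) with haα
  have ha0 : 1 ≤ a := by
    rw [haα]; exact_mod_cast (show 1 ≤ α by omega)
  have hapos : 0 < a := by linarith
  have har : (r : ℝ) ^ 2 ≤ a := by rw [haα]; exact_mod_cast hα
  have hNa : (N : ℝ) = 108 * q * a := by rw [hN, haα]; push_cast; ring
  have hNpos : (0 : ℝ) < N := by rw [hNa]; positivity
  have haN : a ≤ N := by rw [haα]; exact_mod_cast (show α ≤ N by omega)
  have hR : (0 : ℝ) < (r.factorial : ℝ) := by exact_mod_cast r.factorial_pos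
  have T1 := deg_bound hr (show u + h = r by omega) (show 2 * h ≤ r by omega)
    (show u ≤ h + 1 by omega) (show 1 ≤ α by omega) hq hNa
  rw [← haα] at T1
  -- the last term
  have T3 : (r.factorial : ℝ) / (N : ℝ) ^ r ≤ (r.factorial : ℝ) / a ^ (r - 1) := by
    apply div_le_div_of_nonneg_left hR.le (by positivity)
    calc a ^ (r - 1) ≤ a ^ r := pow_le_pow_right₀ ha0 (by omega)
      _ ≤ (N : ℝ) ^ r := pow_le_pow_left₀ hapos.le haN r
  -- the main term
  have hd1 : 1 ≤ d := by omega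
  have hdN : d ≤ N := by omega
  have hdpos : (0 : ℝ) < d := by exact_mod_cast hd1
  have hda : (d : ℝ) ≤ a := by rw [haα]; exact_mod_cast (show d ≤ α by omega)
  have hd2 : a ≤ 2 * d := by rw [haα]; exact_mod_cast (show α ≤ 2 * d by omega)
  have hL0 : 0 ≤ Real.log (N.choose d) := Real.log_nonneg (by
    exact_mod_cast Nat.choose_pos hdN)
  have hlog : Real.log ((N : ℝ) / d) ≤ Real.log (216 * q) := by
    apply Real.log_le_log (by positivity)
    rw [div_le_iff₀ hdpos, hNa]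
    nlinarith [mul_nonneg (show (0 : ℝ) ≤ q by positivity) (sub_nonneg.2 hd2)]
  have hlog0 : 0 ≤ Real.log (216 * q) := Real.log_nonneg (by linarith)
  have hL : Real.log (N.choose d) ≤ a * (1 + Real.log (216 * q)) := by
    refine (log_choose_le hd1 hdN).trans ?_
    apply mul_le_mul hda (by linarith) _ hapos.le
    have : 0 ≤ Real.log ((N : ℝ) / d) := Real.log_nonneg (by
      rw [le_div_iff₀ hdpos, one_mul]; exact_mod_cast hdN)
    linarith
  set b : ℝ := ((d + 1 - r : ℕ) : ℝ) with hb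
  have hb1 : a - 3 / 2 * r ≤ b := by
    have e1 : 2 * α ≤ 2 * (d + 1 - r) + 3 * r := by omega
    have e2 : (2 : ℝ) * α ≤ 2 * ((d + 1 - r : ℕ) : ℝ) + 3 * r := by exact_mod_cast e1
    rw [← haα] at e2
    rw [hb]
    linarith
  have h18 : (18 : ℝ) * r ≤ a := by rw [haα]; exact_mod_cast hαr
  have hbpos : 0 < b := by nlinarith
  have hab : a ^ r ≤ Real.exp (4 * r ^ 2 / a) * b ^ r := by
    have e1 : a ≤ b * (1 + 4 * r / a) := by
      have e2 : (a - 3 / 2 * r) * (1 + 4 * r / a) ≤ b * (1 + 4 * r / a) :=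
        mul_le_mul_of_nonneg_right hb1 (by positivity)
      have e3 : a * (4 * r / a) = 4 * r := by field_simp
      have e4 : (3 / 2 * (r : ℝ)) * (4 * r / a) = 6 * r ^ 2 / a := by ring
      have e5 : 6 * (r : ℝ) ^ 2 / a ≤ 6 := by
        rw [div_le_iff₀ hapos]; linarith
      nlinarith
    have e2 : a ≤ b * Real.exp (4 * r / a) := by
      refine e1.trans (mul_le_mul_of_nonneg_left ?_ hbpos.le)
      have := Real.add_one_le_exp (4 * (r : ℝ) / a)
      linarith
    calc a ^ r ≤ (b * Real.exp (4 * r / a)) ^ r := pow_le_pow_left₀ hapos.le e2 r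
      _ = Real.exp (4 * r ^ 2 / a) * b ^ r := by
          rw [mul_pow, ← Real.exp_nat_mul, mul_comm]
          congr 2
          ring
  have hCd : b ^ r / (r.factorial : ℝ) ≤ (d.choose r : ℝ) := Nat.pow_le_choose r d
  have hCN : (N.choose r : ℝ) ≤ (N : ℝ) ^ r / (r.factorial : ℝ) := Nat.choose_le_pow_div r N
  have hCd0 : (0 : ℝ) < (d.choose r : ℝ) := by
    exact_mod_cast Nat.choose_pos (show r ≤ d by omega)
  have T2 : Real.log (N.choose d) * (N.choose r : ℝ) / (d.choose r : ℝ) *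
      ((r.factorial : ℝ) / (N : ℝ) ^ r) ≤
      (r.factorial : ℝ) / a ^ (r - 1) * (Real.exp (4 * r ^ 2 / a) * (1 + Real.log (216 * q))) := by
    have e1 : (N.choose r : ℝ) * ((r.factorial : ℝ) / (N : ℝ) ^ r) ≤ 1 := by
      rw [← mul_div_assoc, div_le_one (by positivity)]
      rwa [le_div_iff₀ hR] at hCN
    have e2 : Real.log (N.choose d) * (N.choose r : ℝ) / (d.choose r : ℝ) *
      ((r.factorial : ℝ) / (N : ℝ) ^ r) = (Real.log (N.choose d) / (d.choose r : ℝ)) *
      ((N.choose r : ℝ) * ((r.factorial : ℝ) / (N : ℝ) ^ r)) := by ring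
    rw [e2]
    have e3 : Real.log (N.choose d) / (d.choose r : ℝ) ≤
        (a * (1 + Real.log (216 * q))) / (b ^ r / (r.factorial : ℝ)) := by
      apply div_le_div₀ (by positivity) hL (by positivity) hCd
    calc (Real.log (N.choose d) / (d.choose r : ℝ)) *
        ((N.choose r : ℝ) * ((r.factorial : ℝ) / (N : ℝ) ^ r))
        ≤ (Real.log (N.choose d) / (d.choose r : ℝ)) * 1 :=
          mul_le_mul_of_nonneg_left e1 (by positivity)
      _ ≤ (a * (1 + Real.log (216 * q))) / (b ^ r / (r.factorial : ℝ)) := by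
          rw [mul_one]; exact e3
      _ = (r.factorial : ℝ) * (1 + Real.log (216 * q)) * (a / b ^ r) := by
          field_simp
      _ ≤ (r.factorial : ℝ) * (1 + Real.log (216 * q)) *
          (Real.exp (4 * r ^ 2 / a) / a ^ (r - 1)) := by
          apply mul_le_mul_of_nonneg_left _ (by positivity)
          rw [div_le_div_iff₀ (by positivity) (by positivity)]
          refine le_trans (le_of_eq ?_) hab
          rw [← pow_succ']
          congr 1
          omega
      _ = _ := by ring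
  have hG4 : (G.card : ℝ) * ((r.factorial : ℝ) / (N : ℝ) ^ r) ≤
      (r.factorial : ℝ) / a ^ (r - 1) * (Real.exp (4 * r ^ 2 / a) * (1 + Real.log (216 * q))) +
        (r.factorial : ℝ) / a ^ (r - 1) := by
    refine (mul_le_mul_of_nonneg_right hG3 (by positivity)).trans ?_
    rw [add_mul, one_mul]
    exact add_le_add T2 T3
  calc (N.choose u : ℝ) * ((u : ℝ) / N) ^ r + (G.card : ℝ) * ((r.factorial : ℝ) / (N : ℝ) ^ r)
      ≤ (r.factorial : ℝ) / a ^ (r - 1) + ((r.factorial : ℝ) / a ^ (r - 1) *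
        (Real.exp (4 * r ^ 2 / a) * (1 + Real.log (216 * q))) +
        (r.factorial : ℝ) / a ^ (r - 1)) := add_le_add T1 hG4
    _ = _ := by ring

/-- the explicit bound for all `k > A r ^ 2` -/
theorem TD.large {A r k : ℕ} (hA : 1 ≤ A) (hr : 18 ≤ r) (hk : A * r ^ 2 < k) :
    TD (k - r) r ((r.factorial : ℝ) / ((k : ℝ) - 1) ^ (r - 1) *
      (Real.exp (1 / r) * (Real.exp (4 / A) * (1 + Real.log (648 * A * r)) + 2))) := by
  have hAr : 0 < A * r ^ 2 := by positivity
  obtain ⟨m, hm⟩ : ∃ m, m = (k - 1) / (A * r ^ 2) := ⟨_, rfl⟩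
  have hm1 : 1 ≤ m := by
    rw [hm, Nat.one_le_div_iff hAr]; omega
  obtain ⟨α, hα⟩ : ∃ α, α = (k - 1) / m := ⟨_, rfl⟩
  have h1 : m * (A * r ^ 2) ≤ k - 1 := by rw [hm]; exact Nat.div_mul_le_self _ _
  have h2 : k - 1 < (m + 1) * (A * r ^ 2) := by
    rw [hm]
    have := Nat.lt_div_mul_add (a := k - 1) hAr
    rw [add_mul, one_mul]; exact this
  have hα1 : A * r ^ 2 ≤ α := by
    rw [hα, Nat.le_div_iff_mul_le hm1, mul_comm]; exact h1
  have hα2 : m * α ≤ k - 1 := by rw [hα]; exact Nat.mul_div_le _ _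
  have hα3 : k - 1 < m * α + m := by
    rw [hα, mul_comm]; exact Nat.lt_div_mul_add hm1
  have hα4 : α ≤ 2 * (A * r ^ 2) := by
    have e1 : m * α < 2 * m * (A * r ^ 2) := by
      calc m * α ≤ k - 1 := hα2
        _ < (m + 1) * (A * r ^ 2) := h2
        _ ≤ 2 * m * (A * r ^ 2) := Nat.mul_le_mul_right _ (by omega)
    have e2 : m * α < m * (2 * (A * r ^ 2)) := by linarith
    exact (lt_of_mul_lt_mul_left e2 (Nat.zero_le _)).le
  have hrα : r ^ 2 ≤ α := le_trans (by nlinarith [Nat.mul_le_mul_right (r ^ 2) hA]) hα1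
  have hrα' : r ≤ α := by nlinarith
  have hbase := TD.base (q := 3 * A * r) (r := r) (s := α + 1 - r) (α := α) hr (by omega) hrα
    (by nlinarith)
  have hA0 : (1 : ℝ) ≤ A := by exact_mod_cast hA
  have hr0 : (18 : ℝ) ≤ r := by exact_mod_cast hr
  have ha0 : (0 : ℝ) < α := by
    have : 0 < α := lt_of_lt_of_le hAr hα1
    exact_mod_cast this
  have hlog0 : 0 ≤ Real.log (648 * A * r) := Real.log_nonneg (by nlinarith)
  set X : ℝ := Real.exp (4 / A) * (1 + Real.log (648 * A * r)) + 2 with hX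
  have hX0 : 0 ≤ X := by positivity
  have hR : (0 : ℝ) < (r.factorial : ℝ) := by exact_mod_cast r.factorial_pos
  have hXle : Real.exp (4 * r ^ 2 / α) * (1 + Real.log (216 * ((3 * A * r : ℕ) : ℝ))) + 2 ≤ X := by
    have e1 : Real.exp (4 * r ^ 2 / α) ≤ Real.exp (4 / A) := by
      apply Real.exp_le_exp.2
      rw [div_le_div_iff₀ ha0 (by linarith)]
      have : (A : ℝ) * r ^ 2 ≤ α := by exact_mod_cast hα1
      linarith
    have e2 : (216 : ℝ) * ((3 * A * r : ℕ) : ℝ) = 648 * A * r := by push_cast; ring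
    rw [e2, hX]
    have := mul_le_mul_of_nonneg_right e1 (show 0 ≤ 1 + Real.log (648 * A * r) by linarith)
    linarith
  have hbase2 : TD (α + 1 - r) r ((r.factorial : ℝ) / (α : ℝ) ^ (r - 1) * X) :=
    hbase.mono (mul_le_mul_of_nonneg_left hXle (by positivity))
  refine TD.mono (hbase2.partition (m := m) (s' := k - r) (by positivity) hm1 (by omega) ?_) ?_
  · have e1 : r + (α + 1 - r) - 1 = α := by omega
    have e2 : r + (k - r) = k := by
      have : r ≤ k - 1 := by nlinarith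
      omega
    rw [e1, e2]
    omega
  · have hm0 : (0 : ℝ) < m := by exact_mod_cast hm1
    have hk1 : (0 : ℝ) < (k : ℝ) - 1 := by
      have : (1 : ℝ) < k := by exact_mod_cast (show 1 < k by omega)
      linarith
    have e1 : (k : ℝ) - 1 ≤ (m * α) * Real.exp (1 / α) := by
      have e2 : (k : ℝ) - 1 ≤ m * α + m := by
        have e3 : k ≤ m * α + m + 1 := by omega
        have e4 : (k : ℝ) ≤ m * α + m + 1 := by exact_mod_cast e3
        linarith
      have e5 : (m : ℝ) * α + m = (m * α) * (1 + 1 / α) := by field_simp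
      rw [e5] at e2
      refine e2.trans (mul_le_mul_of_nonneg_left ?_ (by positivity))
      have := Real.add_one_le_exp (1 / (α : ℝ))
      linarith
    have e6 : ((k : ℝ) - 1) ^ (r - 1) ≤ ((m : ℝ) * α) ^ (r - 1) * Real.exp (1 / r) := by
      calc ((k : ℝ) - 1) ^ (r - 1) ≤ ((m * α) * Real.exp (1 / α)) ^ (r - 1) :=
            pow_le_pow_left₀ hk1.le e1 _
        _ = ((m : ℝ) * α) ^ (r - 1) * Real.exp (((r - 1 : ℕ) : ℝ) * (1 / α)) := by
            rw [mul_pow, ← Real.exp_nat_mul]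
        _ ≤ _ := by
            apply mul_le_mul_of_nonneg_left _ (by positivity)
            apply Real.exp_le_exp.2
            rw [mul_one_div, div_le_div_iff₀ ha0 (by linarith), one_mul]
            have e7 : ((r - 1 : ℕ) : ℝ) ≤ r := by exact_mod_cast Nat.sub_le _ _
            have e8 : (r : ℝ) ^ 2 ≤ α := by exact_mod_cast hrα
            nlinarith
    rw [show (r.factorial : ℝ) / (α : ℝ) ^ (r - 1) * X / (m : ℝ) ^ (r - 1) =
      (r.factorial : ℝ) * X * (1 / ((m : ℝ) * α) ^ (r - 1)) by rw [mul_pow]; field_simp]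
    rw [show (r.factorial : ℝ) / ((k : ℝ) - 1) ^ (r - 1) * (Real.exp (1 / r) * X) =
      (r.factorial : ℝ) * X * (Real.exp (1 / r) / ((k : ℝ) - 1) ^ (r - 1)) by ring]
    apply mul_le_mul_of_nonneg_left _ (by positivity)
    rw [div_le_div_iff₀ (by positivity) (by positivity), one_mul]
    linarith

end Pool.Agent.H613T
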