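import Pool.Agent.H613T.Large2

/-!
Turán systems for large `k`: asymptotic forms.
-/

set_option autoImplicit false
set_option linter.unusedSectionVars false

namespace Pool.Agent.H613T

open Finset Filter Topology

theorem TD.large_asymp {ε : ℝ} (hε : 0 < ε) :
    ∃ A t₀ : ℕ, ∀ t k : ℕ, t₀ ≤ t → A * t ^ 2 < k →
      TD (k - t) t ((1 + ε) * Real.log t * ((t.factorial : ℝ) / ((k : ℝ) - 1) ^ (t - 1))) := by
  have h1 : Tendsto (fun A : ℕ => Real.exp (4 / (A : ℝ))) atTop (𝓝 1) := by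
    have := (Real.continuous_exp.tendsto 0).comp
      (tendsto_const_div_atTop_nhds_zero_nat (4 : ℝ))
    rw [Real.exp_zero] at this
    exact this
  obtain ⟨A, hA1, hA⟩ := ((eventually_ge_atTop 1).and
    (h1.eventually (eventually_lt_nhds (show (1 : ℝ) < 1 + ε by linarith)))).exists
  have hA0 : (0 : ℝ) < A := by exact_mod_cast hA1
  set E := Real.exp (4 / (A : ℝ)) with hE
  have hlog : Tendsto (fun t : ℕ => Real.log (t : ℝ)) atTop atTop :=
    Real.tendsto_log_atTop.comp tendsto_natCast_atTop_atTop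
  have hinv : Tendsto (fun t : ℕ => (E * (1 + Real.log (648 * A)) + 2) / Real.log (t : ℝ)) atTop
      (𝓝 0) := hlog.const_div_atTop _
  have hexp : Tendsto (fun t : ℕ => Real.exp (1 / (t : ℝ))) atTop (𝓝 1) := by
    have := (Real.continuous_exp.tendsto 0).comp
      (tendsto_const_div_atTop_nhds_zero_nat (1 : ℝ))
    rw [Real.exp_zero] at this
    exact this
  have hfin : Tendsto (fun t : ℕ => Real.exp (1 / (t : ℝ)) *
      (E + (E * (1 + Real.log (648 * A)) + 2) / Real.log (t : ℝ))) atTop (𝓝 (1 * (E + 0))) :=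
    hexp.mul (tendsto_const_nhds.add hinv)
  rw [add_zero, one_mul] at hfin
  obtain ⟨t₁, ht₁⟩ := eventually_atTop.1 (hfin.eventually (eventually_lt_nhds hA))
  refine ⟨A, max t₁ 18, fun t k ht hk => ?_⟩
  have ht18 : 18 ≤ t := le_trans (le_max_right _ _) ht
  have ht1 := ht₁ t (le_trans (le_max_left _ _) ht)
  have ht0 : (18 : ℝ) ≤ t := by exact_mod_cast ht18
  have hlt : 0 < Real.log (t : ℝ) := Real.log_pos (by linarith)
  have hk1 : (0 : ℝ) < (k : ℝ) - 1 := by
    have : 1 < k := by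
      have : 0 < A * t ^ 2 := by positivity
      omega
    have : (1 : ℝ) < k := by exact_mod_cast this
    linarith
  refine (TD.large hA1 ht18 hk).mono ?_
  rw [mul_comm]
  apply mul_le_mul_of_nonneg_right _ (by positivity)
  have e1 : Real.log (648 * A * t) = Real.log (648 * A) + Real.log t :=
    Real.log_mul (by positivity) (by positivity)
  rw [e1, ← hE]
  have e2 : Real.exp (1 / (t : ℝ)) * (E * (1 + (Real.log (648 * A) + Real.log t)) + 2) =
      Real.exp (1 / (t : ℝ)) * (E + (E * (1 + Real.log (648 * A)) + 2) / Real.log (t : ℝ)) *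
        Real.log t := by
    field_simp
    ring
  rw [e2]
  exact mul_le_mul_of_nonneg_right ht1.le hlt.le

theorem TD.small {t k : ℕ} (ht : 2 ≤ t) (hk : t ^ 2 < k) :
    TD (k - t) t ((2 * ((t : ℝ) - 1)) ^ (t - 1) / ((k : ℝ) - 1) ^ (t - 1)) := by
  obtain ⟨m, hm⟩ : ∃ m, m = (k - 1) / (t - 1) := ⟨_, rfl⟩
  have ht1 : 0 < t - 1 := by omega
  have htk : t ≤ k := by nlinarith
  have hm1 : 1 ≤ m := by
    rw [hm, Nat.one_le_div_iff ht1]; omega
  have h1 : m * (t - 1) ≤ k - 1 := by rw [hm]; exact Nat.div_mul_le_self _ _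
  have h2 : k - 1 < m * (t - 1) + (t - 1) := by rw [hm]; exact Nat.lt_div_mul_add ht1
  refine TD.mono ((TD.zero t).partition (m := m) (s' := k - t) zero_le_one hm1 (by omega) ?_) ?_
  · rw [add_zero]; omega
  · have hk1 : (0 : ℝ) < (k : ℝ) - 1 := by
      have : (1 : ℝ) < k := by exact_mod_cast (show 1 < k by omega)
      linarith
    have hm0 : (1 : ℝ) ≤ m := by exact_mod_cast hm1
    have ht0 : (2 : ℝ) ≤ t := by exact_mod_cast ht
    have e1 : (k : ℝ) - 1 ≤ m * (2 * ((t : ℝ) - 1)) := by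
      have e3 : k ≤ m * (t - 1) + (t - 1) := by omega
      have e4 : (k : ℝ) ≤ m * ((t - 1 : ℕ) : ℝ) + ((t - 1 : ℕ) : ℝ) := by exact_mod_cast e3
      rw [Nat.cast_sub (by omega), Nat.cast_one] at e4
      nlinarith
    rw [div_le_div_iff₀ (by positivity) (by positivity), one_mul, ← mul_pow, mul_comm _ (m : ℝ)]
    exact pow_le_pow_left₀ hk1.le e1 _

/-- one absolute constant for all `k > t ^ 2` -/
theorem TD.large_const : ∃ C : ℝ, 0 < C ∧ ∀ t k : ℕ, 2 ≤ t → t ^ 2 < k →
      TD (k - t) t (C * Real.log t * ((t.factorial : ℝ) / ((k : ℝ) - 1) ^ (t - 1))) := by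
  set C1 : ℝ := Real.exp 1 * (Real.exp 4 * (2 + Real.log 648) + 2) with hC1
  have hl648 : 0 ≤ Real.log 648 := Real.log_nonneg (by norm_num)
  have hC1' : 0 < C1 := by positivity
  refine ⟨C1 + 2 * 34 ^ 17, by positivity, fun t k ht hk => ?_⟩
  have ht0 : (2 : ℝ) ≤ t := by exact_mod_cast ht
  have hlog2 : (1 / 2 : ℝ) ≤ Real.log t := by
    have h1 : Real.log 2 ≤ Real.log t := Real.log_le_log (by norm_num) ht0
    have h2 := Real.log_two_gt_d9
    linarith
  have hk1 : (0 : ℝ) < (k : ℝ) - 1 := by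
    have : (1 : ℝ) < k := by exact_mod_cast (show 1 < k by nlinarith)
    linarith
  have hf1 : (1 : ℝ) ≤ (t.factorial : ℝ) := by exact_mod_cast t.factorial_pos
  by_cases h18 : 18 ≤ t
  · have ht18 : (18 : ℝ) ≤ t := by exact_mod_cast h18
    have hlog1 : 1 ≤ Real.log t := by
      rw [Real.le_log_iff_exp_le (by linarith)]
      have := Real.exp_one_lt_three
      linarith
    refine (TD.large (A := 1) le_rfl h18 (by rw [one_mul]; exact hk)).mono ?_
    rw [mul_comm]
    apply mul_le_mul_of_nonneg_right _ (by positivity)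
    have e1 : Real.log (648 * (1 : ℕ) * t) = Real.log 648 + Real.log t := by
      rw [Nat.cast_one, mul_one]
      exact Real.log_mul (by norm_num) (by positivity)
    rw [e1, Nat.cast_one, div_one]
    have e2 : Real.exp (1 / (t : ℝ)) ≤ Real.exp 1 := by
      apply Real.exp_le_exp.2
      rw [div_le_one (by linarith)]; linarith
    have e3 : Real.exp 4 * (1 + (Real.log 648 + Real.log t)) + 2 ≤
        (Real.exp 4 * (2 + Real.log 648) + 2) * Real.log t := by
      have h4 := Real.exp_pos 4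
      nlinarith [mul_nonneg h4.le hl648, mul_nonneg (mul_nonneg h4.le hl648)
        (sub_nonneg.2 hlog1), mul_nonneg h4.le (sub_nonneg.2 hlog1)]
    calc Real.exp (1 / (t : ℝ)) * (Real.exp 4 * (1 + (Real.log 648 + Real.log t)) + 2)
        ≤ Real.exp 1 * ((Real.exp 4 * (2 + Real.log 648) + 2) * Real.log t) :=
          mul_le_mul e2 e3 (by positivity) (Real.exp_pos 1).le
      _ = C1 * Real.log t := by rw [hC1]; ring
      _ ≤ (C1 + 2 * 34 ^ 17) * Real.log t := by
          apply mul_le_mul_of_nonneg_right _ (by linarith)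
          linarith [show (0 : ℝ) ≤ 2 * 34 ^ 17 by norm_num]
  · push Not at h18
    refine (TD.small ht hk).mono ?_
    rw [← mul_div_assoc]
    apply div_le_div_of_nonneg_right _ (by positivity)
    have e1 : (2 * ((t : ℝ) - 1)) ^ (t - 1) ≤ 34 ^ 17 := by
      have h17 : (t : ℝ) ≤ 17 := by exact_mod_cast (show t ≤ 17 by omega)
      calc (2 * ((t : ℝ) - 1)) ^ (t - 1) ≤ (34 : ℝ) ^ (t - 1) :=
            pow_le_pow_left₀ (by linarith) (by linarith) _
        _ ≤ 34 ^ 17 := pow_le_pow_right₀ (by norm_num) (by omega)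
    have e2 : (34 : ℝ) ^ 17 ≤ (C1 + 2 * 34 ^ 17) * Real.log t := by
      have h3 : (0 : ℝ) < 34 ^ 17 := by positivity
      have h5 : (C1 + 2 * 34 ^ 17) * (1 / 2) ≤ (C1 + 2 * 34 ^ 17) * Real.log t :=
        mul_le_mul_of_nonneg_left hlog2 (by positivity)
      linarith
    calc (2 * ((t : ℝ) - 1)) ^ (t - 1) ≤ 34 ^ 17 := e1
      _ ≤ (C1 + 2 * 34 ^ 17) * Real.log t := e2
      _ = (C1 + 2 * 34 ^ 17) * Real.log t * 1 := by ring
      _ ≤ (C1 + 2 * 34 ^ 17) * Real.log t * (t.factorial : ℝ) :=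
          mul_le_mul_of_nonneg_left hf1 (by positivity)

end Pool.Agent.H613T
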