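import Mathlib

/-!
Linear covering codes of small density: the random base code.
-/

set_option autoImplicit false
set_option linter.unusedSectionVars false

namespace Pool.Agent.H613T.LC

open Finset

/-- every element is the sum of the columns of some index set of size exactly `r` -/
def Cov {ι W : Type} [AddCommGroup W] (a : ι → W) (r : ℕ) : Prop :=
  ∀ s : W, ∃ I : Finset ι, I.card = r ∧ ∑ i ∈ I, a i = s

section count
variable {ι W : Type} [Fintype ι] [DecidableEq ι] [AddCommGroup W] [Fintype W] [DecidableEq W]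

theorem card_one (I : Finset ι) (hI : I.Nonempty) (s : W) :
    ((univ.filter (fun a : ι → W => ∑ i ∈ I, a i = s)).card : ℝ) * Fintype.card W
      = Fintype.card (ι → W) := by
  obtain ⟨i, hi⟩ := hI
  let φ : (ι → W) →+ W :=
    { toFun := fun a => ∑ i ∈ I, a i
      map_zero' := by simp
      map_add' := fun a b => by simp [Finset.sum_add_distrib] }
  have hsurj : ∀ t : W, t ∈ Set.range φ := by
    intro t
    refine ⟨Pi.single i t, ?_⟩
    show ∑ k ∈ I, (Pi.single i t : ι → W) k = t
    rw [Finset.sum_eq_single_of_mem i hi]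
    · simp
    · intro b _ hb; simp [Pi.single_eq_of_ne hb]
  have h : ∀ t : W, (univ.filter (fun a : ι → W => φ a = t)).card
      = (univ.filter (fun a : ι → W => φ a = s)).card := fun t =>
    AddMonoidHom.card_fiber_eq_of_mem_range φ (hsurj t) (hsurj s)
  have h2 : (Fintype.card (ι → W)) = ∑ t : W, (univ.filter (fun a : ι → W => φ a = t)).card := by
    rw [← Finset.card_univ]
    exact Finset.card_eq_sum_card_fiberwise (fun _ _ => by simp)
  rw [Finset.sum_congr rfl fun t _ => h t, Finset.sum_const, Finset.card_univ, smul_eq_mul] at h2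
  have h3 : (univ.filter (fun a : ι → W => ∑ i ∈ I, a i = s))
      = univ.filter (fun a : ι → W => φ a = s) := Finset.filter_congr fun a _ => Iff.rfl
  rw [h3, h2]; push_cast; ring

theorem card_two (I J : Finset ι) (hIJ : I.card = J.card) (hne : I ≠ J) (s t : W) :
    ((univ.filter (fun a : ι → W => ∑ i ∈ I, a i = s ∧ ∑ i ∈ J, a i = t)).card : ℝ) *
      (Fintype.card W : ℝ) ^ 2 = Fintype.card (ι → W) := by
  have h1 : ∃ i ∈ I, i ∉ J := by
    by_contra h
    push Not at h
    exact hne (Finset.eq_of_subset_of_card_le h (le_of_eq hIJ.symm))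
  have h2 : ∃ j ∈ J, j ∉ I := by
    by_contra h
    push Not at h
    exact hne (Finset.eq_of_subset_of_card_le h (le_of_eq hIJ)).symm
  obtain ⟨i, hi, hiJ⟩ := h1
  obtain ⟨j, hj, hjI⟩ := h2
  have hij : i ≠ j := fun h => hiJ (h ▸ hj)
  let φ : (ι → W) →+ W × W :=
    { toFun := fun a => (∑ i ∈ I, a i, ∑ i ∈ J, a i)
      map_zero' := by simp
      map_add' := fun a b => by simp [Finset.sum_add_distrib] }
  have hsurj : ∀ p : W × W, p ∈ Set.range φ := by
    intro p
    refine ⟨fun k => if k = i then p.1 else if k = j then p.2 else 0, ?_⟩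
    show (∑ k ∈ I, _, ∑ k ∈ J, _) = p
    refine Prod.ext ?_ ?_
    · show ∑ k ∈ I, (if k = i then p.1 else if k = j then p.2 else 0) = p.1
      rw [Finset.sum_eq_single_of_mem i hi]
      · simp
      · intro b hb hbi
        have : b ≠ j := fun h => hjI (h ▸ hb)
        simp [hbi, this]
    · show ∑ k ∈ J, (if k = i then p.1 else if k = j then p.2 else 0) = p.2
      rw [Finset.sum_eq_single_of_mem j hj]
      · simp [hij.symm]
      · intro b hb hbj
        have : b ≠ i := fun h => hiJ (h ▸ hb)
        simp [hbj, this]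
  have h : ∀ p : W × W, (univ.filter (fun a : ι → W => φ a = p)).card
      = (univ.filter (fun a : ι → W => φ a = (s, t))).card := fun p =>
    AddMonoidHom.card_fiber_eq_of_mem_range φ (hsurj p) (hsurj (s, t))
  have h2 : (Fintype.card (ι → W))
      = ∑ p : W × W, (univ.filter (fun a : ι → W => φ a = p)).card := by
    rw [← Finset.card_univ]
    exact Finset.card_eq_sum_card_fiberwise (fun _ _ => by simp)
  rw [Finset.sum_congr rfl fun t _ => h t, Finset.sum_const, Finset.card_univ, smul_eq_mul,
    Fintype.card_prod] at h2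
  have h3 : (univ.filter (fun a : ι → W => ∑ i ∈ I, a i = s ∧ ∑ i ∈ J, a i = t))
      = univ.filter (fun a : ι → W => φ a = (s, t)) := by
    refine Finset.filter_congr fun a _ => ?_
    show _ ↔ (∑ i ∈ I, a i, ∑ i ∈ J, a i) = (s, t)
    rw [Prod.mk.injEq]
  rw [h3, h2]; push_cast; ring

/-- number of representations -/
def Nr (r : ℕ) (a : ι → W) (s : W) : ℕ :=
  ((univ.powersetCard r).filter (fun I => ∑ i ∈ I, a i = s)).card

theorem Nr_eq (r : ℕ) (a : ι → W) (s : W) :
    (Nr r a s : ℝ) = ∑ I ∈ univ.powersetCard r, if ∑ i ∈ I, a i = s then (1 : ℝ) else 0 := by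
  unfold Nr
  rw [Finset.sum_boole]

/-- the points without a representation -/
def Un (r : ℕ) (a : ι → W) : Finset W := univ.filter (fun s => Nr r a s = 0)

theorem first_moment (r : ℕ) (hr : 0 < r) (s : W) :
    (∑ a : ι → W, (Nr r a s : ℝ)) * Fintype.card W
      = ((Fintype.card ι).choose r : ℝ) * Fintype.card (ι → W) := by
  have h : ∑ a : ι → W, (Nr r a s : ℝ) = ∑ I ∈ univ.powersetCard r,
      ((univ.filter (fun a : ι → W => ∑ i ∈ I, a i = s)).card : ℝ) := by
    rw [Finset.sum_congr rfl fun a _ => Nr_eq r a s, Finset.sum_comm]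
    refine Finset.sum_congr rfl fun I _ => ?_
    rw [Finset.sum_boole]
  rw [h, Finset.sum_mul, Finset.sum_congr rfl (g := fun _ => (Fintype.card (ι → W) : ℝ))]
  · rw [Finset.sum_const, Finset.card_powersetCard, Finset.card_univ, nsmul_eq_mul]
  · intro I hI
    refine card_one I ?_ s
    rw [← Finset.card_pos, (Finset.mem_powersetCard.mp hI).2]; exact hr

theorem second_moment (r : ℕ) (hr : 0 < r) (s : W) :
    (∑ a : ι → W, (Nr r a s : ℝ) ^ 2) * (Fintype.card W : ℝ) ^ 2
      ≤ (((Fintype.card ι).choose r : ℝ) * Fintype.card W + ((Fintype.card ι).choose r : ℝ) ^ 2) *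
        Fintype.card (ι → W) := by
  set c : ℝ := ((Fintype.card ι).choose r : ℝ) with hc
  set X : ℝ := (Fintype.card (ι → W) : ℝ) with hX
  set w : ℝ := (Fintype.card W : ℝ) with hw
  have h : ∑ a : ι → W, (Nr r a s : ℝ) ^ 2 = ∑ I ∈ univ.powersetCard r,
      ∑ J ∈ univ.powersetCard r,
      ((univ.filter (fun a : ι → W => ∑ i ∈ I, a i = s ∧ ∑ i ∈ J, a i = s)).card : ℝ) := by
    have e : ∀ a : ι → W, (Nr r a s : ℝ) ^ 2 = ∑ I ∈ univ.powersetCard r,
        ∑ J ∈ univ.powersetCard r,
          if (∑ i ∈ I, a i = s ∧ ∑ i ∈ J, a i = s) then (1 : ℝ) else 0 := by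
      intro a
      rw [sq, Nr_eq, Finset.sum_mul_sum]
      refine Finset.sum_congr rfl fun I _ => Finset.sum_congr rfl fun J _ => ?_
      by_cases h1 : ∑ i ∈ I, a i = s <;> by_cases h2 : ∑ i ∈ J, a i = s <;> simp [h1, h2]
    rw [Finset.sum_congr rfl fun a _ => e a, Finset.sum_comm]
    refine Finset.sum_congr rfl fun I _ => ?_
    rw [Finset.sum_comm]
    refine Finset.sum_congr rfl fun J _ => ?_
    rw [Finset.sum_boole]
  rw [h, Finset.sum_mul]
  have hcc : ((univ : Finset ι).powersetCard r).card = (Fintype.card ι).choose r := by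
    rw [Finset.card_powersetCard, Finset.card_univ]
  have hX0 : 0 ≤ X := Nat.cast_nonneg _
  have hw0 : 0 ≤ w := Nat.cast_nonneg _
  calc _ ≤ ∑ I ∈ (univ : Finset ι).powersetCard r, (w * X + c * X) := by
        refine Finset.sum_le_sum fun I hI => ?_
        rw [Finset.sum_mul, ← Finset.add_sum_erase _ _ hI]
        have hI' := (Finset.mem_powersetCard.mp hI).2
        have e1 : ((univ.filter (fun a : ι → W => ∑ i ∈ I, a i = s ∧ ∑ i ∈ I, a i = s)).card : ℝ)
            * w ^ 2 = w * X := by
          have := card_one (W := W) I (by rw [← Finset.card_pos, hI']; exact hr) s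
          simp only [and_self]
          rw [sq, ← mul_assoc, this]; ring
        have e2 : ∑ J ∈ ((univ : Finset ι).powersetCard r).erase I,
            ((univ.filter (fun a : ι → W => ∑ i ∈ I, a i = s ∧ ∑ i ∈ J, a i = s)).card : ℝ) * w ^ 2
            ≤ c * X := by
          rw [Finset.sum_congr rfl (g := fun _ => X)]
          · rw [Finset.sum_const, nsmul_eq_mul]
            refine mul_le_mul_of_nonneg_right ?_ hX0
            rw [hc, ← hcc]
            exact_mod_cast Finset.card_le_card (Finset.erase_subset _ _)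
          · intro J hJ
            have hJ' := (Finset.mem_powersetCard.mp (Finset.mem_of_mem_erase hJ)).2
            exact card_two I J (by rw [hI', hJ']) (Finset.ne_of_mem_erase hJ).symm s s
        linarith [e1, e2]
    _ = (c * w + c ^ 2) * X := by
        rw [Finset.sum_const, hcc, nsmul_eq_mul, ← hc]; ring

/-- a choice of columns with few points without representation -/
theorem exists_base [Nonempty W] (r : ℕ) (hr : 0 < r) :
    ∃ a : ι → W, ((Un r a).card : ℝ) *
      (1 + ((Fintype.card ι).choose r : ℝ) / Fintype.card W) ≤ Fintype.card W := by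
  set c : ℝ := ((Fintype.card ι).choose r : ℝ) with hc
  set X : ℝ := (Fintype.card (ι → W) : ℝ) with hX
  set w : ℝ := (Fintype.card W : ℝ) with hw
  have hw0 : 0 < w := by rw [hw]; exact_mod_cast Fintype.card_pos
  have hX0 : 0 < X := by rw [hX]; exact_mod_cast Fintype.card_pos
  have hc0 : 0 ≤ c := Nat.cast_nonneg _
  -- for each `s` few `a` miss `s`
  have key : ∀ s : W, ((univ.filter (fun a : ι → W => Nr r a s = 0)).card : ℝ) * (1 + c / w)
      ≤ X := by
    intro s
    set P := univ.filter (fun a : ι → W => Nr r a s ≠ 0) with hP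
    have hsplit : ((univ.filter (fun a : ι → W => Nr r a s = 0)).card : ℝ) + P.card = X := by
      have := Finset.card_filter_add_card_filter_not (s := (univ : Finset (ι → W)))
        (fun a : ι → W => Nr r a s = 0)
      rw [hX, ← Finset.card_univ, ← this]; push_cast; rfl
    have hcs : (∑ a : ι → W, (Nr r a s : ℝ)) ^ 2
        ≤ P.card * ∑ a : ι → W, (Nr r a s : ℝ) ^ 2 := by
      have e1 : ∑ a : ι → W, (Nr r a s : ℝ) = ∑ a ∈ P, (Nr r a s : ℝ) := by
        symm
        refine Finset.sum_subset (Finset.subset_univ _) fun a _ ha => ?_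
        have : Nr r a s = 0 := by
          by_contra h
          exact ha (by simp [hP, h])
        simp [this]
      rw [e1]
      refine (sq_sum_le_card_mul_sum_sq).trans ?_
      refine mul_le_mul_of_nonneg_left ?_ (Nat.cast_nonneg _)
      exact Finset.sum_le_sum_of_subset_of_nonneg (Finset.subset_univ _)
        fun _ _ _ => sq_nonneg _
    have h1 := first_moment (ι := ι) r hr s
    have h2 := second_moment (ι := ι) r hr s
    rw [← hc, ← hX, ← hw] at h1 h2
    -- (c X)^2 ≤ P (c w + c^2) X
    have h3 : (c * X) ^ 2 ≤ P.card * ((c * w + c ^ 2) * X) := by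
      rw [← h1, mul_pow]
      calc (∑ a : ι → W, (Nr r a s : ℝ)) ^ 2 * w ^ 2
          ≤ (P.card * ∑ a : ι → W, (Nr r a s : ℝ) ^ 2) * w ^ 2 :=
            mul_le_mul_of_nonneg_right hcs (sq_nonneg _)
        _ = P.card * ((∑ a : ι → W, (Nr r a s : ℝ) ^ 2) * w ^ 2) := by ring
        _ ≤ _ := mul_le_mul_of_nonneg_left h2 (Nat.cast_nonneg _)
    rcases hc0.eq_or_lt with h0 | h0
    · rw [← h0]
      have : (0 : ℝ) ≤ P.card := Nat.cast_nonneg _
      simp only [zero_div, add_zero, mul_one]
      linarith
    · -- divide by c X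
      have h4 : c * X ≤ P.card * (w + c) := by
        have hcX : 0 < c * X := mul_pos h0 hX0
        have h5 : (c * X) * (c * X) ≤ (P.card * (w + c)) * (c * X) := by nlinarith [h3]
        exact le_of_mul_le_mul_right h5 hcX
      have h6 : ((univ.filter (fun a : ι → W => Nr r a s = 0)).card : ℝ) * (w + c) ≤ w * X := by
        have : ((univ.filter (fun a : ι → W => Nr r a s = 0)).card : ℝ) = X - P.card := by
          linarith
        rw [this]; nlinarith [h4]
      have h7 : (1 + c / w) = (w + c) / w := by field_simp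
      rw [h7, ← mul_div_assoc, div_le_iff₀ hw0]
      linarith
  by_contra hcon
  push Not at hcon
  have hsum : ∑ a : ι → W, ((Un r a).card : ℝ)
      = ∑ s : W, ((univ.filter (fun a : ι → W => Nr r a s = 0)).card : ℝ) := by
    have e1 : ∀ a : ι → W, ((Un r a).card : ℝ) = ∑ s : W, if Nr r a s = 0 then (1 : ℝ) else 0 := by
      intro a; rw [Finset.sum_boole]; rfl
    rw [Finset.sum_congr rfl fun a _ => e1 a, Finset.sum_comm]
    exact Finset.sum_congr rfl fun s _ => by rw [Finset.sum_boole]
  have hpos : 0 < 1 + c / w := by positivity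
  have h1 : (∑ a : ι → W, ((Un r a).card : ℝ)) * (1 + c / w) ≤ w * X := by
    rw [hsum, Finset.sum_mul]
    calc _ ≤ ∑ _s : W, X := Finset.sum_le_sum fun s _ => key s
      _ = w * X := by rw [Finset.sum_const, Finset.card_univ, nsmul_eq_mul]
  have h2 : X * w < (∑ a : ι → W, ((Un r a).card : ℝ)) * (1 + c / w) := by
    rw [Finset.sum_mul]
    calc X * w = ∑ _a : ι → W, w := by rw [Finset.sum_const, Finset.card_univ, nsmul_eq_mul]
      _ < _ := Finset.sum_lt_sum_of_nonempty Finset.univ_nonempty fun a _ => hcon a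
  linarith

end count

end Pool.Agent.H613T.LC
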