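import Pool.Agent.H613T.LinCov9

/-!
Linear covering codes: the formula for `f r`.
-/

set_option autoImplicit false
set_option linter.unusedSectionVars false

namespace Pool.Agent.H613T.LC

open Finset Filter N8b55e67f
open scoped Pointwise

theorem attainedV (n r : ℕ) : ∃ V : Submodule (ZMod 2) (Fin n → ZMod 2),
    IsCoveringSubspace n r V ∧ minDensity n r =
      (Nat.card V : ENNReal) * (Nat.card (hammingBall n r) : ENNReal) / (2 ^ n : ENNReal) := by
  classical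
  have hne : Nonempty {V : Submodule (ZMod 2) (Fin n → ZMod 2) // IsCoveringSubspace n r V} := by
    refine ⟨⟨⊤, ?_⟩⟩
    unfold IsCoveringSubspace
    rw [Set.eq_univ_iff_forall]
    intro y
    exact Set.mem_add.mpr ⟨y, by simp, 0, by simp [hammingBall], by simp⟩
  have hmin : minDensity n r = ⨅ V : {V : Submodule (ZMod 2) (Fin n → ZMod 2) //
      IsCoveringSubspace n r V},
      (Nat.card V.1 : ENNReal) * (Nat.card (hammingBall n r) : ENNReal) / (2 ^ n : ENNReal) := by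
    unfold minDensity
    exact iInf_subtype'
  obtain ⟨V, hV⟩ := exists_eq_ciInf_of_finite (f := fun V : {V : Submodule (ZMod 2)
      (Fin n → ZMod 2) // IsCoveringSubspace n r V} =>
      (Nat.card V.1 : ENNReal) * (Nat.card (hammingBall n r) : ENNReal) / (2 ^ n : ENNReal))
  exact ⟨V.1, V.2, by rw [hmin, ← hV]⟩

theorem add_pow_le_eps (n r : ℕ) (hn0 : 1 ≤ n) (ε : ℝ) (hε : 0 < ε) (hε1 : ε ≤ 1)
    (hn : 2 * (r : ℝ) ^ 2 ≤ ε * n) :
    ((n : ℝ) + r) ^ r ≤ (1 + ε) * (n : ℝ) ^ r := by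
  have hn1 : (1 : ℝ) ≤ n := by exact_mod_cast hn0
  have hr0 : (0 : ℝ) ≤ r := Nat.cast_nonneg _
  have hpos : (0 : ℝ) < (n : ℝ) + r := by linarith
  have h1 := one_add_mul_le_pow (a := -((r : ℝ) / ((n : ℝ) + r))) (by
    have : (r : ℝ) / ((n : ℝ) + r) ≤ 1 := by
      rw [div_le_one hpos]; linarith
    linarith) r
  have h2 : 1 - ε / 2 ≤ 1 + (r : ℝ) * -((r : ℝ) / ((n : ℝ) + r)) := by
    have h3 : (r : ℝ) * ((r : ℝ) / ((n : ℝ) + r)) ≤ ε / 2 := by
      rw [← mul_div_assoc, div_le_iff₀ hpos]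
      nlinarith
    linarith
  have h3 : (1 : ℝ) + -((r : ℝ) / ((n : ℝ) + r)) = n / (n + r) := by
    field_simp; ring
  rw [h3, div_pow] at h1
  have h4 := h2.trans h1
  rw [le_div_iff₀ (by positivity)] at h4
  have h6 : 0 ≤ ε * (1 - ε) * ((n : ℝ) + r) ^ r := by
    have : 0 ≤ 1 - ε := by linarith
    positivity
  nlinarith [mul_le_mul_of_nonneg_left h4 (by linarith : (0 : ℝ) ≤ 1 + ε)]

theorem f_eq (r : ℕ) (hr : 1 ≤ r) :
    f r = ⨅ (n : ℕ) (V : Submodule (ZMod 2) (Fin n → ZMod 2)) (_ : IsCoveringSubspace n r V),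
      ENNReal.ofReal (((n : ℝ) + r) ^ r * Nat.card V / (r.factorial * 2 ^ n)) := by
  refine le_antisymm (le_iInf fun n => le_iInf₂ fun V hV => f_le_code n r hr V hV) ?_
  by_contra hcon
  push Not at hcon
  obtain ⟨L, hL1, hL2⟩ := exists_between hcon
  obtain ⟨L2, hL3, hL4⟩ := exists_between hL2
  have hLt : L ≠ ⊤ := hL3.ne_top
  have hL2t : L2 ≠ ⊤ := hL4.ne_top
  set l := L.toReal with hl
  set l2 := L2.toReal with hl2
  have hll : l < l2 := (ENNReal.toReal_lt_toReal hLt hL2t).mpr hL3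
  have hl0 : 0 ≤ l := ENNReal.toReal_nonneg
  have hl20 : 0 < l2 := lt_of_le_of_lt hl0 hll
  set ε : ℝ := min 1 ((l2 - l) / (3 * l2)) with hε
  have e0 : 0 < ε := by
    rw [hε]; exact lt_min one_pos (div_pos (by linarith) (by positivity))
  have e1 : ε ≤ 1 := min_le_left _ _
  have e2 : (1 + ε) ^ 2 * l ≤ l2 := by
    have h1 : ε ≤ (l2 - l) / (3 * l2) := min_le_right _ _
    rw [le_div_iff₀ (by positivity)] at h1
    have h2 : (1 + ε) ^ 2 ≤ 1 + 3 * ε := by nlinarith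
    calc (1 + ε) ^ 2 * l ≤ (1 + 3 * ε) * l := mul_le_mul_of_nonneg_right h2 hl0
      _ ≤ l + 3 * ε * l2 := by nlinarith
      _ ≤ l2 := by linarith
  have hfreq : ∃ᶠ n in atTop, minDensity n r < L := by
    unfold f at hL1
    exact Filter.frequently_lt_of_liminf_lt (by isBoundedDefault) hL1
  obtain ⟨n, hn1, hn2⟩ := (Filter.frequently_atTop.mp hfreq) (⌈2 * (r : ℝ) ^ 2 / ε⌉₊ + r + 1)
  obtain ⟨V, hV, hmin⟩ := attainedV n r
  have hnr : 2 * (r : ℝ) ^ 2 ≤ ε * n := by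
    have h1 : 2 * (r : ℝ) ^ 2 / ε ≤ n := (Nat.le_ceil _).trans
      (Nat.cast_le.mpr (by omega : ⌈2 * (r : ℝ) ^ 2 / ε⌉₊ ≤ n))
    rw [div_le_iff₀ e0] at h1; linarith
  have hp1 := add_pow_le_eps n r (by omega) ε e0 e1 hnr
  have hp2 := pow_le_choose_eps n r hr ε e0 e1 (by nlinarith [sq_nonneg (r : ℝ)])
  have hball : (n.choose r : ℝ) ≤ (Nat.card (hammingBall n r) : ℝ) := by
    rw [card_ball_eq]
    exact_mod_cast Finset.single_le_sum (f := fun i => n.choose i) (fun _ _ => Nat.zero_le _)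
      (by simp : r ∈ range (r + 1))
  have hf : (0 : ℝ) < r.factorial := by exact_mod_cast Nat.factorial_pos r
  have h2n : (0 : ℝ) < 2 ^ n := by positivity
  -- the density as a real number
  have hreal : (Nat.card V : ℝ) * (Nat.card (hammingBall n r) : ℝ) / 2 ^ n < l := by
    have h1 : (minDensity n r).toReal < L.toReal :=
      (ENNReal.toReal_lt_toReal hn2.ne_top hLt).mpr hn2
    rw [hmin, ENNReal.toReal_div, ENNReal.toReal_mul, ENNReal.toReal_natCast,
      ENNReal.toReal_natCast, ENNReal.toReal_pow] at h1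
    simpa using h1
  have hval : ((n : ℝ) + r) ^ r * Nat.card V / (r.factorial * 2 ^ n) ≤ l2 := by
    refine le_trans ?_ e2
    have h1 : ((n : ℝ) + r) ^ r ≤ (1 + ε) ^ 2 * (r.factorial * (Nat.card (hammingBall n r) : ℝ)) := by
      calc ((n : ℝ) + r) ^ r ≤ (1 + ε) * (n : ℝ) ^ r := hp1
        _ ≤ (1 + ε) * ((1 + ε) * ((r.factorial : ℝ) * (n.choose r : ℝ))) := by gcongr
        _ ≤ (1 + ε) * ((1 + ε) * ((r.factorial : ℝ) * (Nat.card (hammingBall n r) : ℝ))) := by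
            gcongr
        _ = _ := by ring
    rw [div_le_iff₀ (by positivity)]
    rw [div_lt_iff₀ h2n] at hreal
    calc ((n : ℝ) + r) ^ r * Nat.card V
        ≤ ((1 + ε) ^ 2 * (r.factorial * (Nat.card (hammingBall n r) : ℝ))) * Nat.card V := by
          gcongr
      _ = ((1 + ε) ^ 2 * r.factorial) * (Nat.card V * (Nat.card (hammingBall n r) : ℝ)) := by ring
      _ ≤ ((1 + ε) ^ 2 * r.factorial) * (l * 2 ^ n) := by gcongr
      _ = (1 + ε) ^ 2 * l * (r.factorial * 2 ^ n) := by ring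
  have hI : (⨅ (n : ℕ) (V : Submodule (ZMod 2) (Fin n → ZMod 2)) (_ : IsCoveringSubspace n r V),
      ENNReal.ofReal (((n : ℝ) + r) ^ r * Nat.card V / (r.factorial * 2 ^ n))) ≤ L2 := by
    refine (iInf_le_of_le n (iInf₂_le_of_le V hV le_rfl)).trans ?_
    refine (ENNReal.ofReal_le_ofReal hval).trans (le_of_eq ?_)
    rw [hl2, ENNReal.ofReal_toReal hL2t]
  exact absurd (hI.trans_lt hL4) (lt_irrefl _)

end Pool.Agent.H613T.LC
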