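import Pool.Agent.H613T.LinCov1

/-!
Linear covering codes of small density: squaring the set of missed syndromes, the quotient.
-/

set_option autoImplicit false
set_option linter.unusedSectionVars false

namespace Pool.Agent.H613T.LC

open Finset

section
variable {W : Type} [AddCommGroup W] [Fintype W] [DecidableEq W]

/-- averaging over translates -/
theorem exists_shift [Nonempty W] (U : Finset W) :
    ∃ w : W, ((U.filter (fun s => s + w ∈ U)).card : ℝ) * Fintype.card W ≤ (U.card : ℝ) ^ 2 := by
  by_contra hcon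
  push Not at hcon
  have h1 : ∑ w : W, ((U.filter (fun s => s + w ∈ U)).card : ℝ) = (U.card : ℝ) ^ 2 := by
    have e : ∀ w : W, ((U.filter (fun s => s + w ∈ U)).card : ℝ)
        = ∑ s ∈ U, if s + w ∈ U then (1 : ℝ) else 0 := by
      intro w; rw [Finset.sum_boole]
    rw [Finset.sum_congr rfl fun w _ => e w, Finset.sum_comm]
    have e2 : ∀ s ∈ U, (∑ w : W, if s + w ∈ U then (1 : ℝ) else 0) = U.card := by
      intro s _
      rw [Finset.sum_boole]
      congr 1
      refine Finset.card_bij (fun w _ => s + w) ?_ ?_ ?_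
      · intro w hw; exact (Finset.mem_filter.mp hw).2
      · intro w _ w' _ h; exact add_left_cancel h
      · intro b hb
        exact ⟨-s + b, by simp [hb], by simp⟩
    rw [Finset.sum_congr rfl e2, Finset.sum_const, nsmul_eq_mul, sq]
  have hW : (0 : ℝ) < Fintype.card W := by exact_mod_cast Fintype.card_pos
  have h2 : ∑ _w : W, (U.card : ℝ) ^ 2
      < ∑ w : W, ((U.filter (fun s => s + w ∈ U)).card : ℝ) * Fintype.card W :=
    Finset.sum_lt_sum_of_nonempty Finset.univ_nonempty fun w _ => hcon w
  rw [← Finset.sum_mul, h1, Finset.sum_const, Finset.card_univ, nsmul_eq_mul] at h2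
  linarith

variable [Module (ZMod 2) W]

open scoped Classical in
/-- iterated squaring -/
theorem exists_sub (U : Finset W) (δ : ℝ)
    (hU : (U.card : ℝ) ≤ δ * Fintype.card W) (j : ℕ) :
    ∃ D : Submodule (ZMod 2) W, Module.finrank (ZMod 2) D ≤ j ∧
      ((univ.filter (fun s : W => ∀ d ∈ D, s + d ∈ U)).card : ℝ) ≤
        δ ^ (2 ^ j) * Fintype.card W := by
  have : Nonempty W := ⟨0⟩
  have hW : (0 : ℝ) < Fintype.card W := by exact_mod_cast Fintype.card_pos
  induction j with
  | zero =>
    refine ⟨⊥, by simp, ?_⟩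
    simp only [Submodule.mem_bot, forall_eq, add_zero, pow_zero, pow_one]
    rw [Finset.filter_mem_eq_inter, Finset.univ_inter]
    exact hU
  | succ j ih =>
    obtain ⟨D, hD, hc⟩ := ih
    set U' := univ.filter (fun s : W => ∀ d ∈ D, s + d ∈ U) with hU'
    obtain ⟨w, hw⟩ := exists_shift U'
    refine ⟨D ⊔ Submodule.span (ZMod 2) {w}, ?_, ?_⟩
    · refine (Submodule.finrank_add_le_finrank_add_finrank _ _).trans ?_
      have h1 : Module.finrank (ZMod 2) (Submodule.span (ZMod 2) ({w} : Set W)) ≤ 1 := by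
        have := finrank_span_le_card (R := ZMod 2) ({w} : Set W)
        simpa using this
      omega
    · have hsub : (univ.filter (fun s : W => ∀ d ∈ D ⊔ Submodule.span (ZMod 2) {w}, s + d ∈ U))
          ⊆ U'.filter (fun s => s + w ∈ U') := by
        intro s hs
        have hs' := (Finset.mem_filter.mp hs).2
        simp only [hU', Finset.mem_filter, Finset.mem_univ, true_and]
        refine ⟨fun d hd => hs' d (Submodule.mem_sup_left hd), fun d hd => ?_⟩
        rw [add_assoc]
        exact hs' _ (Submodule.add_mem _ (Submodule.mem_sup_right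
          (Submodule.mem_span_singleton_self w)) (Submodule.mem_sup_left hd))
      have h1 : ((univ.filter (fun s : W => ∀ d ∈ D ⊔ Submodule.span (ZMod 2) {w},
          s + d ∈ U)).card : ℝ) ≤ ((U'.filter (fun s => s + w ∈ U')).card : ℝ) := by
        exact_mod_cast Finset.card_le_card hsub
      have h2 : (U'.card : ℝ) ^ 2 ≤ (δ ^ (2 ^ j) * Fintype.card W) ^ 2 :=
        pow_le_pow_left₀ (Nat.cast_nonneg _) hc 2
      have h3 : ((U'.filter (fun s => s + w ∈ U')).card : ℝ) * Fintype.card W
          ≤ (δ ^ (2 ^ (j + 1)) * Fintype.card W) * Fintype.card W := by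
        refine hw.trans (h2.trans (le_of_eq ?_))
        rw [pow_succ 2 j, pow_mul]; ring
      exact h1.trans (le_of_mul_le_mul_right h3 hW)

end

/-- **Base code.** If `(1 + C(n,r)/2^M)^(2^j) > 2^M`, some `n` columns in a space of at least
`2^(M-j)` elements have all elements as sums of exactly `r` columns. -/
theorem base (n r M j : ℕ) (hr : 0 < r)
    (h : (2 : ℝ) ^ M < (1 + (n.choose r : ℝ) / 2 ^ M) ^ (2 ^ j)) :
    ∃ (V : Type) (_ : AddCommGroup V) (_ : Module (ZMod 2) V) (_ : Finite V)
      (a : Fin n → V), Cov a r ∧ 2 ^ M ≤ 2 ^ j * Nat.card V := by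
  classical
  let W := Fin M → ZMod 2
  have hcard : (Fintype.card W : ℝ) = 2 ^ M := by
    have : Fintype.card W = 2 ^ M := by
      simp [W, ZMod.card]
    rw [this]; push_cast; rfl
  obtain ⟨a, ha⟩ := exists_base (ι := Fin n) (W := W) r hr
  rw [hcard, Fintype.card_fin] at ha
  set b : ℝ := 1 + (n.choose r : ℝ) / 2 ^ M with hb
  have hb1 : 1 ≤ b := by
    rw [hb]
    have : (0 : ℝ) ≤ (n.choose r : ℝ) / 2 ^ M := by positivity
    linarith
  have hb0 : 0 < b := by linarith
  have hU : ((Un r a).card : ℝ) ≤ b⁻¹ * Fintype.card W := by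
    rw [hcard, inv_mul_eq_div, le_div_iff₀ hb0]; exact ha
  obtain ⟨D, hD, hc⟩ := exists_sub (Un r a) b⁻¹ hU j
  have hempty : (univ.filter (fun s : W => ∀ d ∈ D, s + d ∈ Un r a)).card = 0 := by
    have h1 : ((univ.filter (fun s : W => ∀ d ∈ D, s + d ∈ Un r a)).card : ℝ) < 1 := by
      refine hc.trans_lt ?_
      rw [hcard, inv_pow, inv_mul_eq_div, div_lt_one (by positivity)]
      exact h
    have h2 : (univ.filter (fun s : W => ∀ d ∈ D, s + d ∈ Un r a)).card < 1 := by
      exact_mod_cast h1
    omega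
  refine ⟨W ⧸ D, inferInstance, inferInstance, inferInstance,
    fun i => Submodule.Quotient.mk (a i), ?_, ?_⟩
  · intro s
    obtain ⟨s, rfl⟩ := Submodule.Quotient.mk_surjective D s
    have hs : s ∉ univ.filter (fun s : W => ∀ d ∈ D, s + d ∈ Un r a) := by
      rw [Finset.card_eq_zero.mp hempty]; simp
    simp only [Finset.mem_filter, Finset.mem_univ, true_and, not_forall] at hs
    obtain ⟨d, hd, hsd⟩ := hs
    have hsd' : Nr r a (s + d) ≠ 0 := by
      intro h0
      exact hsd (by simp [Un, h0])
    obtain ⟨I, hI⟩ := Finset.card_pos.mp (Nat.pos_of_ne_zero hsd')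
    have hI' := Finset.mem_filter.mp hI
    refine ⟨I, (Finset.mem_powersetCard.mp hI'.1).2, ?_⟩
    have e : ∑ i ∈ I, (Submodule.Quotient.mk (a i) : W ⧸ D)
        = Submodule.Quotient.mk (∑ i ∈ I, a i) := by
      exact (map_sum (Submodule.mkQ D) a I).symm
    rw [e, hI'.2]
    rw [Submodule.Quotient.eq]
    simpa using hd
  · have h1 : Nat.card W = Nat.card D * Nat.card (W ⧸ D) :=
      Submodule.card_eq_card_quotient_mul_card D |>.trans (by ring)
    have h2 : Nat.card W = 2 ^ M := by
      rw [Nat.card_eq_fintype_card]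
      exact_mod_cast hcard
    have h3 : Nat.card D ≤ 2 ^ j := by
      have h4 := Module.card_eq_pow_finrank (K := ZMod 2) (V := D)
      rw [Nat.card_eq_fintype_card, h4, ZMod.card]
      exact Nat.pow_le_pow_right (by norm_num) hD
    rw [← h2, h1]
    exact Nat.mul_le_mul_right _ h3

end Pool.Agent.H613T.LC
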