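import Pool.Agent.H613T.LinCov2
import Pool.Prelude.Def_F_7905cbea

/-!
Linear covering codes of small density: lifting to larger fields, the code.
-/

set_option autoImplicit false
set_option linter.unusedSectionVars false

namespace Pool.Agent.H613T.LC

open Finset

/-- **Lifting.** Columns over `V` give columns over `V × F^r`, `|F| = 2^J ≥ n`. -/
theorem lift (n r J : ℕ) (hJ0 : J ≠ 0) (hJ : n ≤ 2 ^ J) (V : Type) [AddCommGroup V]
    [Module (ZMod 2) V] [Finite V] (a : Fin n → V) (ha : Cov a r) :
    ∃ (V' : Type) (_ : AddCommGroup V') (_ : Module (ZMod 2) V') (_ : Finite V')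
      (b : Fin n × Fin (2 ^ J) → V'), Cov b r ∧ Nat.card V' = Nat.card V * 2 ^ (J * r) := by
  classical
  have : Fact (Nat.Prime 2) := ⟨Nat.prime_two⟩
  let F := GaloisField 2 J
  have : Finite F := inferInstance
  have hF : Nat.card F = 2 ^ J := GaloisField.card 2 J hJ0
  let _ : Fintype F := Fintype.ofFinite F
  have hF' : Fintype.card F = 2 ^ J := by rw [← Nat.card_eq_fintype_card]; exact hF
  obtain ⟨β⟩ : Nonempty (Fin n ↪ F) :=
    Function.Embedding.nonempty_of_card_le (by rw [Fintype.card_fin, hF']; exact hJ)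
  let e : Fin (2 ^ J) ≃ F := (Fintype.equivFinOfCardEq hF').symm
  refine ⟨V × (Fin r → F), inferInstance, inferInstance, inferInstance,
    fun p => (a p.1, fun k => β p.1 ^ (k : ℕ) * e p.2), ?_, ?_⟩
  · rintro ⟨s, y⟩
    obtain ⟨I, hI, hs⟩ := ha s
    let u : Fin r ≃ I := (I.equivFinOfCardEq hI).symm
    let v : Fin r → F := fun t => β (u t)
    have hv : Function.Injective v := fun t t' h =>
      u.injective (Subtype.ext (β.injective h))
    let A := Matrix.vandermonde v
    have hdet : IsUnit A.det := (Matrix.det_vandermonde_ne_zero_iff.mpr hv).isUnit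
    let x : Fin r → F := Matrix.vecMul y A⁻¹
    have hx : Matrix.vecMul x A = y := by
      rw [Matrix.vecMul_vecMul, Matrix.nonsing_inv_mul _ hdet, Matrix.vecMul_one]
    let g : Fin r ↪ Fin n × Fin (2 ^ J) :=
      ⟨fun t => ((u t : Fin n), e.symm (x t)), fun t t' h => by
        have h1 := (Prod.mk.inj h).1
        exact u.injective (Subtype.ext h1)⟩
    refine ⟨univ.map g, by simp, ?_⟩
    rw [Finset.sum_map]
    refine Prod.ext ?_ ?_
    · rw [Prod.fst_sum]
      show ∑ t, a (u t) = s
      rw [Equiv.sum_comp u (fun i : I => a i), Finset.sum_coe_sort I a, hs]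
    · rw [Prod.snd_sum]
      funext k
      rw [Finset.sum_apply]
      have h2 := congrFun hx k
      show ∑ t, β (u t) ^ (k : ℕ) * e (e.symm (x t)) = y k
      rw [← h2]
      show ∑ t, β (u t) ^ (k : ℕ) * e (e.symm (x t)) = ∑ t, x t * A t k
      refine Finset.sum_congr rfl fun t _ => ?_
      rw [Equiv.apply_symm_apply]
      show _ = x t * v t ^ (k : ℕ)
      ring
  · rw [Nat.card_prod, Nat.card_fun, hF, Nat.card_eq_fintype_card (α := Fin r), Fintype.card_fin,
      pow_mul]

open N8b55e67f in
/-- **The code.** -/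
theorem density_le {ι : Type} [Fintype ι] (r n : ℕ) (hn : Fintype.card ι ≤ n) (V : Type)
    [AddCommGroup V] [Module (ZMod 2) V] [Finite V] (b : ι → V) (hb : Cov b r) :
    minDensity n r ≤ (Nat.card (hammingBall n r) : ENNReal) / (Nat.card V : ENNReal) := by
  classical
  obtain ⟨g⟩ : Nonempty (ι ↪ Fin n) :=
    Function.Embedding.nonempty_of_card_le (by rw [Fintype.card_fin]; exact hn)
  let φ : (Fin n → ZMod 2) →ₗ[ZMod 2] V :=
    { toFun := fun x => ∑ i, x (g i) • b i
      map_add' := fun x y => by simp [add_smul, Finset.sum_add_distrib]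
      map_smul' := fun c x => by simp [mul_smul, Finset.smul_sum] }
  let χ : Finset ι → (Fin n → ZMod 2) := fun I k => if k ∈ I.map g then 1 else 0
  have hχ : ∀ I : Finset ι, φ (χ I) = ∑ i ∈ I, b i := by
    intro I
    show ∑ i, χ I (g i) • b i = _
    have : ∀ i, χ I (g i) • b i = if i ∈ I then b i else 0 := by
      intro i
      show (if g i ∈ I.map g then (1 : ZMod 2) else 0) • b i = _
      by_cases h : i ∈ I
      · rw [if_pos ((Finset.mem_map' g).mpr h), if_pos h, one_smul]
      · rw [if_neg (fun h' => h ((Finset.mem_map' g).mp h')), if_neg h, zero_smul]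
    rw [Finset.sum_congr rfl fun i _ => this i, Finset.sum_ite_mem, Finset.univ_inter]
  have hsurj : Function.Surjective φ := by
    intro s
    obtain ⟨I, _, hs⟩ := hb s
    exact ⟨χ I, by rw [hχ, hs]⟩
  have hcover : IsCoveringSubspace n r (LinearMap.ker φ) := by
    unfold IsCoveringSubspace
    rw [Set.eq_univ_iff_forall]
    intro y
    obtain ⟨I, hI, hs⟩ := hb (φ y)
    refine Set.mem_add.mpr ⟨y - χ I, ?_, χ I, ?_, by simp⟩
    · show y - χ I ∈ LinearMap.ker φ
      rw [LinearMap.mem_ker, map_sub, hχ, hs, sub_self]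
    · show hammingNorm (χ I) ≤ r
      unfold hammingNorm
      have : (univ.filter fun k => χ I k ≠ 0) = I.map g := by
        ext k
        simp only [Finset.mem_filter, Finset.mem_univ, true_and]
        show (if k ∈ I.map g then (1 : ZMod 2) else 0) ≠ 0 ↔ _
        split_ifs with h <;> simp [h]
      rw [this, Finset.card_map, hI]
  have hcard : Nat.card (LinearMap.ker φ) * Nat.card V = 2 ^ n := by
    have h1 := Submodule.card_eq_card_quotient_mul_card (LinearMap.ker φ)
    have h2 : Nat.card ((Fin n → ZMod 2) ⧸ LinearMap.ker φ) = Nat.card V :=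
      Nat.card_congr (φ.quotKerEquivOfSurjective hsurj).toEquiv
    have h3 : Nat.card (Fin n → ZMod 2) = 2 ^ n := by
      simp [Nat.card_eq_fintype_card, ZMod.card]
    rw [h2, h3] at h1
    rw [h1]
  have hk : (Nat.card (LinearMap.ker φ) : ENNReal) ≠ 0 := by
    have : 0 < Nat.card (LinearMap.ker φ) := Nat.card_pos
    exact_mod_cast this.ne'
  unfold minDensity
  refine (iInf₂_le (LinearMap.ker φ) hcover).trans (le_of_eq ?_)
  have h2n : (2 ^ n : ENNReal) = (Nat.card (LinearMap.ker φ) : ENNReal) * (Nat.card V : ENNReal) := by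
    have : ((2 ^ n : ℕ) : ENNReal) = ((Nat.card (LinearMap.ker φ) * Nat.card V : ℕ) : ENNReal) := by
      rw [hcard]
    push_cast at this
    exact this
  rw [h2n]
  exact ENNReal.mul_div_mul_left _ _ hk (ENNReal.natCast_ne_top _)

open N8b55e67f in
/-- size of the ball -/
theorem card_ball_le (n r : ℕ) :
    Nat.card (hammingBall n r) ≤ ∑ i ∈ range (r + 1), n.choose i := by
  classical
  have h1 : Nat.card (hammingBall n r) = (hammingBallFinset n r).card := by
    have : hammingBall n r = ((hammingBallFinset n r : Finset _) : Set (Fin n → ZMod 2)) := by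
      ext x; simp [hammingBall, hammingBallFinset]
    rw [this]; simp
  rw [h1]
  have h2 : (hammingBallFinset n r).card
      ≤ ((range (r + 1)).biUnion fun i => (univ : Finset (Fin n)).powersetCard i).card := by
    refine Finset.card_le_card_of_injOn (fun x => univ.filter fun k => x k ≠ 0) ?_ ?_
    · intro x hx
      have hx' : hammingNorm x ≤ r := by
        simpa [hammingBallFinset] using hx
      simp only [Finset.coe_biUnion, Set.mem_iUnion]
      refine ⟨hammingNorm x, by simp; omega, ?_⟩
      simp [hammingNorm]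
    · intro x _ y _ hxy
      funext k
      have hk : (x k ≠ 0) ↔ (y k ≠ 0) := by
        have := Finset.ext_iff.mp hxy k
        simpa using this
      have hz : ∀ z : ZMod 2, z = 0 ∨ z = 1 := by decide
      rcases hz (x k) with h | h <;> rcases hz (y k) with h' | h' <;> simp_all
  refine h2.trans (Finset.card_biUnion_le.trans (le_of_eq ?_))
  exact Finset.sum_congr rfl fun i _ => by rw [Finset.card_powersetCard, Finset.card_univ,
    Fintype.card_fin]

theorem sum_choose_le (n r : ℕ) (h : 3 * r ≤ n) :
    ∑ i ∈ range (r + 1), n.choose i ≤ 2 * n.choose r := by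
  induction r with
  | zero => simp
  | succ r ih =>
    rw [Finset.sum_range_succ]
    have h1 := ih (by omega)
    have h2 := Nat.choose_succ_right_eq n r
    have h3 : 2 * n.choose r ≤ n.choose (r + 1) := by
      have h4 : (2 * n.choose r) * (r + 1) ≤ n.choose (r + 1) * (r + 1) := by
        rw [h2]
        have : 2 * (r + 1) ≤ n - r := by omega
        calc 2 * n.choose r * (r + 1) = n.choose r * (2 * (r + 1)) := by ring
          _ ≤ n.choose r * (n - r) := Nat.mul_le_mul_left _ this
      exact Nat.le_of_mul_le_mul_right h4 (by omega)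
    omega

theorem ball_le (n r : ℕ) (h : 3 * r ≤ n) :
    (Nat.card (N8b55e67f.hammingBall n r) : ℝ) * (r.factorial : ℝ) ≤ 2 * (n : ℝ) ^ r := by
  have h1 : (Nat.card (N8b55e67f.hammingBall n r) : ℝ) ≤ 2 * (n.choose r : ℝ) := by
    exact_mod_cast (card_ball_le n r).trans (sum_choose_le n r h)
  have h2 : (n.choose r : ℝ) ≤ (n : ℝ) ^ r / (r.factorial : ℝ) := Nat.choose_le_pow_div r n
  have hf : (0 : ℝ) < r.factorial := by exact_mod_cast Nat.factorial_pos r
  rw [le_div_iff₀ hf] at h2
  nlinarith [h1, h2, hf]

end Pool.Agent.H613T.LC
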