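import Pool.Agent.H613T.LinCov3

/-!
Linear covering codes of small density: all lengths.
-/

set_option autoImplicit false
set_option linter.unusedSectionVars false

namespace Pool.Agent.H613T.LC

open Finset

theorem desc_ge (n k : ℕ) (hk : k ≤ n) :
    (n : ℝ) ^ k * (2 * n) - (k : ℝ) * ((k : ℝ) - 1) * (n : ℝ) ^ k
      ≤ 2 * n * (n.descFactorial k : ℝ) := by
  induction k with
  | zero => simp
  | succ k ih =>
    have h1 := ih (by omega)
    rw [Nat.descFactorial_succ]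
    push_cast [Nat.cast_sub (show k ≤ n by omega)]
    have hn : (0 : ℝ) ≤ (n : ℝ) - k := by
      have : (k : ℝ) ≤ n := by exact_mod_cast (show k ≤ n by omega)
      linarith
    have h2 := mul_le_mul_of_nonneg_left h1 hn
    have hk0 : (0 : ℝ) ≤ (n : ℝ) ^ k := by positivity
    have hkk : (0 : ℝ) ≤ (k : ℝ) * ((k : ℝ) * ((k : ℝ) - 1)) * (n : ℝ) ^ k := by
      rcases Nat.eq_zero_or_pos k with h | h
      · subst h; simp
      · have : (1 : ℝ) ≤ k := by exact_mod_cast h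
        have : 0 ≤ (k : ℝ) - 1 := by linarith
        positivity
    rw [pow_succ]
    nlinarith [h2, hkk]

/-- `n^r ≤ 2 r! C(n,r)` for `n ≥ r²` -/
theorem pow_le_choose (n r : ℕ) (hr : 1 ≤ r) (hn : r ^ 2 ≤ n) :
    (n : ℝ) ^ r ≤ 2 * ((r.factorial : ℝ) * (n.choose r : ℝ)) := by
  have hrn : r ≤ n := (Nat.le_self_pow (by norm_num) r).trans hn
  have h1 := desc_ge n r hrn
  rw [Nat.descFactorial_eq_factorial_mul_choose] at h1
  push_cast at h1
  have hn0 : (0 : ℝ) < n := by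
    have : 0 < n := by omega
    exact_mod_cast this
  have hn2 : ((r : ℝ)) ^ 2 ≤ n := by exact_mod_cast hn
  have hr1 : (1 : ℝ) ≤ r := by exact_mod_cast hr
  have h2 : (r : ℝ) * ((r : ℝ) - 1) * (n : ℝ) ^ r ≤ n * (n : ℝ) ^ r := by
    refine mul_le_mul_of_nonneg_right ?_ (by positivity)
    nlinarith
  have h3 : n * (n : ℝ) ^ r ≤ n * (2 * ((r.factorial : ℝ) * (n.choose r : ℝ))) := by
    nlinarith [h1, h2]
  exact le_of_mul_le_mul_left h3 hn0

/-- `(n+1)^r ≤ 2 n^r` for `n + 1 ≥ 2 r` -/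
theorem succ_pow_le (n r : ℕ) (hn : 2 * r ≤ n + 1) :
    ((n : ℝ) + 1) ^ r ≤ 2 * (n : ℝ) ^ r := by
  have hn0 : (0 : ℝ) < (n : ℝ) + 1 := by positivity
  have h1 := one_add_mul_le_pow (a := -(1 / ((n : ℝ) + 1))) (by
    have : 1 / ((n : ℝ) + 1) ≤ 1 := by
      rw [div_le_one hn0]; have := Nat.cast_nonneg (α := ℝ) n; linarith
    linarith) r
  have h2 : (1 : ℝ) / 2 ≤ 1 + (r : ℝ) * -(1 / ((n : ℝ) + 1)) := by
    have h3 : (r : ℝ) * (1 / ((n : ℝ) + 1)) ≤ 1 / 2 := by
      rw [mul_one_div, div_le_iff₀ hn0]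
      have : (2 : ℝ) * r ≤ n + 1 := by exact_mod_cast hn
      linarith
    linarith
  have h3 : (1 : ℝ) + -(1 / ((n : ℝ) + 1)) = n / (n + 1) := by
    field_simp; ring
  rw [h3, div_pow] at h1
  have h4 := h2.trans h1
  rw [le_div_iff₀ (by positivity)] at h4
  linarith

/-- size of the base dimension -/
theorem log_choose_le (n r : ℕ) (hr : 1 ≤ r) (hn : n ≤ 2 * r ^ 2) (M : ℕ)
    (hM : 2 ^ M ≤ n.choose r) :
    (M : ℝ) * Real.log 2 ≤ r * (Real.log 2 + Real.log r + 1) := by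
  have hr0 : (0 : ℝ) < r := by exact_mod_cast hr
  have h1 : (n.choose r : ℝ) ≤ (n : ℝ) ^ r / (r.factorial : ℝ) := Nat.choose_le_pow_div r n
  have h2 : (n : ℝ) ^ r / (r.factorial : ℝ) ≤ (2 * r * Real.exp 1) ^ r := by
    have hn' : (n : ℝ) ≤ 2 * r * r := by
      have : (n : ℝ) ≤ 2 * (r : ℝ) ^ 2 := by exact_mod_cast hn
      nlinarith
    have h3 : (n : ℝ) ^ r ≤ (2 * r * r) ^ r := pow_le_pow_left₀ (Nat.cast_nonneg _) hn' r
    have h4 := Real.pow_div_factorial_le_exp (x := (r : ℝ)) hr0.le r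
    have hf : (0 : ℝ) < r.factorial := by exact_mod_cast Nat.factorial_pos r
    calc (n : ℝ) ^ r / (r.factorial : ℝ) ≤ (2 * r * r) ^ r / (r.factorial : ℝ) := by gcongr
      _ = (2 * r) ^ r * ((r : ℝ) ^ r / (r.factorial : ℝ)) := by rw [mul_pow]; ring
      _ ≤ (2 * r) ^ r * Real.exp r := mul_le_mul_of_nonneg_left h4 (by positivity)
      _ = (2 * r * Real.exp 1) ^ r := by
          rw [mul_pow (2 * (r : ℝ)) (Real.exp 1) r, ← Real.exp_nat_mul, mul_one]
  have h5 : ((2 : ℝ)) ^ M ≤ (2 * r * Real.exp 1) ^ r := by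
    have : ((2 : ℝ)) ^ M ≤ (n.choose r : ℝ) := by exact_mod_cast hM
    exact this.trans (h1.trans h2)
  have h6 := Real.log_le_log (by positivity) h5
  rw [Real.log_pow, Real.log_pow, Real.log_mul (by positivity) (Real.exp_pos 1).ne',
    Real.log_mul (by norm_num) hr0.ne', Real.log_exp] at h6
  exact h6

open N8b55e67f in
/-- density for large lengths -/
theorem density_large (r : ℕ) (hr : 2 ≤ r) (n : ℕ) (hn : 4 * r ^ 4 ≤ n) :
    minDensity n r ≤ ENNReal.ofReal (80 * r * (1 + Real.log r)) := by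
  have hr2 : 0 < r ^ 2 := by positivity
  set J := Nat.log 2 (n / r ^ 2) with hJ
  have hq : 4 * r ^ 2 ≤ n / r ^ 2 := by
    rw [Nat.le_div_iff_mul_le hr2]
    calc 4 * r ^ 2 * r ^ 2 = 4 * r ^ 4 := by ring
      _ ≤ n := hn
  have hq0 : n / r ^ 2 ≠ 0 := by omega
  have hJ1 : 2 ^ J ≤ n / r ^ 2 := Nat.pow_log_le_self 2 hq0
  have hJ2 : n / r ^ 2 < 2 ^ (J + 1) := Nat.lt_pow_succ_log_self (by norm_num) _
  have hJ3 : 2 * r ^ 2 < 2 ^ J := by
    rw [pow_succ 2 J] at hJ2; omega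
  have hJ0 : J ≠ 0 := by
    intro h
    rw [h] at hJ3
    simp at hJ3
    omega
  have hpJ : 0 < 2 ^ J := by positivity
  set m := n / 2 ^ J with hm
  have hm1 : r ^ 2 ≤ m := by
    rw [hm, Nat.le_div_iff_mul_le hpJ]
    calc r ^ 2 * 2 ^ J ≤ r ^ 2 * (n / r ^ 2) := Nat.mul_le_mul_left _ hJ1
      _ ≤ n := Nat.mul_div_le _ _
  have hm2 : m < 2 * r ^ 2 := by
    rw [hm, Nat.div_lt_iff_lt_mul hpJ]
    have : n < r ^ 2 * 2 ^ (J + 1) := by
      have := Nat.div_lt_iff_lt_mul hr2 |>.mp hJ2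
      linarith
    calc n < r ^ 2 * 2 ^ (J + 1) := this
      _ = 2 * r ^ 2 * 2 ^ J := by rw [pow_succ]; ring
  have hm3 : m ≤ 2 ^ J := by omega
  have hmn : m * 2 ^ J ≤ n := Nat.div_mul_le_self _ _
  have hmn2 : n < (m + 1) * 2 ^ J := by
    rw [hm]
    exact Nat.lt_mul_of_div_lt (by omega) hpJ
  have h2r : 2 * r ≤ r ^ 2 := by rw [sq]; exact Nat.mul_le_mul_right r hr
  -- base code
  set C := m.choose r with hC
  set M := Nat.log 2 C with hM
  have hrm : r + 1 ≤ m := by omega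
  have hC2 : 2 ≤ C := by
    have h1 : (r + 1).choose r ≤ m.choose r := Nat.choose_le_choose r hrm
    rw [Nat.choose_succ_self_right] at h1
    omega
  have hM1 : 2 ^ M ≤ C := Nat.pow_log_le_self 2 (by omega)
  have hM2 : C < 2 ^ (M + 1) := Nat.lt_pow_succ_log_self (by norm_num) _
  have hM0 : 1 ≤ M := by
    rw [hM]; exact Nat.log_pos (by norm_num) hC2
  set j := Nat.clog 2 (M + 1) with hj
  have hj1 : M + 1 ≤ 2 ^ j := Nat.le_pow_clog (by norm_num) _
  have hj2 : 2 ^ j ≤ 2 * M := by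
    have h1 := Nat.pow_pred_clog_lt_self (b := 2) (by norm_num) (x := M + 1) (by omega)
    have h2 : 0 < j := by
      rw [hj]; exact Nat.clog_pos (by norm_num) (by omega)
    have h3 : j = j.pred + 1 := (Nat.succ_pred_eq_of_pos h2).symm
    rw [← hj] at h1
    rw [h3, pow_succ]
    omega
  obtain ⟨V, _, _, _, a, ha, hV⟩ := base m r M j (by omega) (by
    have h1 : (1 : ℝ) ≤ (C : ℝ) / 2 ^ M := by
      rw [le_div_iff₀ (by positivity), one_mul]
      exact_mod_cast hM1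
    calc (2 : ℝ) ^ M < 2 ^ (2 ^ j) := pow_lt_pow_right₀ (by norm_num) (by omega)
      _ ≤ (1 + (m.choose r : ℝ) / 2 ^ M) ^ (2 ^ j) := by
          refine pow_le_pow_left₀ (by norm_num) ?_ _
          linarith)
  obtain ⟨V', _, _, _, b, hb, hV'⟩ := lift m r J hJ0 hm3 V a ha
  have hden := density_le r n (by simpa using hmn) V' b hb
  refine hden.trans ?_
  -- real inequality
  have hV'0 : 0 < Nat.card V' := Nat.card_pos
  have hV'0' : (0 : ℝ) < Nat.card V' := by exact_mod_cast hV'0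
  have hreal : (Nat.card (hammingBall n r) : ℝ) ≤ 32 * M * Nat.card V' := by
    have h1 := ball_le n r (by nlinarith [Nat.one_le_pow 2 r (by omega)])
    have hn' : (n : ℝ) ≤ ((m : ℝ) + 1) * 2 ^ J := by exact_mod_cast hmn2.le
    have h2 : (n : ℝ) ^ r ≤ (((m : ℝ) + 1) * 2 ^ J) ^ r :=
      pow_le_pow_left₀ (Nat.cast_nonneg _) hn' r
    rw [mul_pow] at h2
    have h3 := succ_pow_le m r (by omega)
    have h4 := pow_le_choose m r (by omega) hm1
    have hf : (0 : ℝ) < r.factorial := by exact_mod_cast Nat.factorial_pos r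
    have hP : (0 : ℝ) < ((2 : ℝ) ^ J) ^ r := by positivity
    have h5 : (C : ℝ) ≤ 4 * M * Nat.card V := by
      have e1 : (C : ℝ) ≤ 2 * 2 ^ M := by
        have : C ≤ 2 * 2 ^ M := by rw [pow_succ] at hM2; omega
        exact_mod_cast this
      have e2 : (2 : ℝ) ^ M ≤ 2 ^ j * Nat.card V := by exact_mod_cast hV
      have e3 : (2 : ℝ) ^ j ≤ 2 * M := by exact_mod_cast hj2
      have e4 : (2 : ℝ) ^ j * Nat.card V ≤ 2 * M * Nat.card V :=
        mul_le_mul_of_nonneg_right e3 (Nat.cast_nonneg _)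
      linarith
    have h6 : (Nat.card V' : ℝ) = Nat.card V * ((2 : ℝ) ^ J) ^ r := by
      rw [hV', pow_mul]; push_cast; rfl
    have h7 : (Nat.card (hammingBall n r) : ℝ) * (r.factorial : ℝ)
        ≤ (32 * M * Nat.card V') * (r.factorial : ℝ) := by
      calc (Nat.card (hammingBall n r) : ℝ) * (r.factorial : ℝ) ≤ 2 * (n : ℝ) ^ r := h1
        _ ≤ 2 * (((m : ℝ) + 1) ^ r * (2 ^ J) ^ r) := by linarith
        _ ≤ 2 * ((2 * (m : ℝ) ^ r) * (2 ^ J) ^ r) := by gcongr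
        _ ≤ 2 * ((2 * (2 * ((r.factorial : ℝ) * (C : ℝ)))) * (2 ^ J) ^ r) := by gcongr
        _ ≤ 2 * ((2 * (2 * ((r.factorial : ℝ) * (4 * M * Nat.card V)))) * (2 ^ J) ^ r) := by
            gcongr
        _ = (32 * M * Nat.card V') * (r.factorial : ℝ) := by rw [h6]; ring
    exact le_of_mul_le_mul_right h7 hf
  have hMlog := log_choose_le m r (by omega) hm2.le M hM1
  have hlr : 0 ≤ Real.log r := Real.log_nonneg (by exact_mod_cast (by omega : 1 ≤ r))
  have hl1 := Real.log_two_gt_d9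
  have hl2 := Real.log_two_lt_d9
  have hr0 : (0 : ℝ) < r := by exact_mod_cast (by omega : 0 < r)
  have h32 : 32 * (M : ℝ) ≤ 80 * r * (1 + Real.log r) := by
    have hMnn : (0 : ℝ) ≤ M := Nat.cast_nonneg _
    have h1 : (M : ℝ) * 0.6931 ≤ r * (0.6932 + Real.log r + 1) := by
      calc (M : ℝ) * 0.6931 ≤ M * Real.log 2 :=
            mul_le_mul_of_nonneg_left (by linarith) hMnn
        _ ≤ r * (Real.log 2 + Real.log r + 1) := hMlog
        _ ≤ r * (0.6932 + Real.log r + 1) :=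
            mul_le_mul_of_nonneg_left (by linarith) hr0.le
    have h2 : 0 ≤ (r : ℝ) * Real.log r := mul_nonneg hr0.le hlr
    nlinarith [h1, h2, hr0]
  have hfin : (Nat.card (hammingBall n r) : ℝ) / Nat.card V' ≤ 80 * r * (1 + Real.log r) := by
    rw [div_le_iff₀ hV'0']
    exact hreal.trans (mul_le_mul_of_nonneg_right h32 hV'0'.le)
  have e1 : (Nat.card (hammingBall n r) : ENNReal) / (Nat.card V' : ENNReal)
      = ENNReal.ofReal ((Nat.card (hammingBall n r) : ℝ) / Nat.card V') := by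
    rw [ENNReal.ofReal_div_of_pos hV'0', ENNReal.ofReal_natCast, ENNReal.ofReal_natCast]
  rw [e1]
  exact ENNReal.ofReal_le_ofReal hfin

open N8b55e67f Filter in
theorem f_all_le (r : ℕ) (hr : 2 ≤ r) :
    f_all r ≤ ENNReal.ofReal (80 * r * (1 + Real.log r)) := by
  unfold f_all
  refine Filter.limsup_le_of_le (by isBoundedDefault) ?_
  filter_upwards [eventually_ge_atTop (4 * r ^ 4)] with n hn
  exact density_large r hr n hn

end Pool.Agent.H613T.LC
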