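import Pool.Agent.H613T.LinCov4

/-!
Linear covering codes of small density: sharp constants, tools.
-/

set_option autoImplicit false
set_option linter.unusedSectionVars false

namespace Pool.Agent.H613T.LC

open Finset

/-- sharp base code -/
theorem base_sharp (m r c j : ℕ) (κ : ℝ) (hr : 0 < r) (hκ : 0 < κ)
    (h1 : 2 ^ c * κ ≤ (m.choose r : ℝ)) (h2 : (m.choose r : ℝ) ≤ 2 * (2 ^ c * κ))
    (h3 : ((c : ℝ) + j) * Real.log 2 * (1 + κ / 2 ^ j) < κ) :
    ∃ (V : Type) (_ : AddCommGroup V) (_ : Module (ZMod 2) V) (_ : Finite V)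
      (a : Fin m → V), Cov a r ∧ 2 ^ c ≤ Nat.card V := by
  set C : ℝ := (m.choose r : ℝ) with hC
  set μ : ℝ := C / 2 ^ (c + j) with hμ
  have hpc : (0 : ℝ) < 2 ^ c := by positivity
  have hpj : (0 : ℝ) < 2 ^ j := by positivity
  have hC0 : 0 < C := lt_of_lt_of_le (by positivity) h1
  have hμ0 : 0 < μ := by positivity
  have hμj : κ ≤ 2 ^ j * μ := by
    rw [hμ, pow_add]
    have : (2 : ℝ) ^ j * (C / (2 ^ c * 2 ^ j)) = C / 2 ^ c := by field_simp
    rw [this, le_div_iff₀ hpc]; linarith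
  have hμ2 : μ / 2 ≤ κ / 2 ^ j := by
    rw [hμ, pow_add, div_div, div_le_div_iff₀ (by positivity) hpj]
    nlinarith
  have hlog : 2 * μ / (μ + 2) ≤ Real.log (1 + μ) := Real.le_log_one_add_of_nonneg hμ0.le
  have hkey : ((c + j : ℕ) : ℝ) * Real.log 2 < 2 ^ j * Real.log (1 + μ) := by
    have e1 : κ / (1 + κ / 2 ^ j) ≤ 2 ^ j * Real.log (1 + μ) := by
      have hden : 0 < 1 + κ / 2 ^ j := by positivity
      rw [div_le_iff₀ hden]
      have e2 : 2 * μ / (μ + 2) = μ / (1 + μ / 2) := by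
        rw [div_eq_div_iff (by positivity) (by positivity)]; ring
      have e3 : κ ≤ 2 ^ j * (μ / (1 + μ / 2)) * (1 + κ / 2 ^ j) := by
        have e4 : 2 ^ j * (μ / (1 + μ / 2)) * (1 + κ / 2 ^ j)
            = (2 ^ j * μ) * ((1 + κ / 2 ^ j) / (1 + μ / 2)) := by ring
        rw [e4]
        have e5 : 1 ≤ (1 + κ / 2 ^ j) / (1 + μ / 2) := by
          rw [le_div_iff₀ (by positivity)]; linarith
        nlinarith
      calc κ ≤ 2 ^ j * (μ / (1 + μ / 2)) * (1 + κ / 2 ^ j) := e3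
        _ ≤ 2 ^ j * Real.log (1 + μ) * (1 + κ / 2 ^ j) := by
            rw [← e2]
            gcongr
    have e6 : ((c + j : ℕ) : ℝ) * Real.log 2 < κ / (1 + κ / 2 ^ j) := by
      rw [lt_div_iff₀ (by positivity)]; push_cast; exact h3
    exact e6.trans_le e1
  obtain ⟨V, i1, i2, i3, a, ha, hV⟩ := base m r (c + j) j hr (by
    rw [← Real.log_lt_log_iff (by positivity) (by positivity), Real.log_pow, Real.log_pow]
    push_cast
    push_cast at hkey
    exact hkey)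
  refine ⟨V, i1, i2, i3, a, ha, ?_⟩
  rw [pow_add, mul_comm] at hV
  exact Nat.le_of_mul_le_mul_left hV (by positivity)

theorem ball_le_eps (n r : ℕ) (hr : 1 ≤ r) (ε : ℝ) (hε : 0 < ε) (h : 3 * r ≤ n)
    (h' : (r : ℝ) + 2 * r / ε ≤ n) :
    (Nat.card (N8b55e67f.hammingBall n r) : ℝ) * (r.factorial : ℝ) ≤ (1 + ε) * (n : ℝ) ^ r := by
  obtain ⟨s, rfl⟩ : ∃ s, r = s + 1 := ⟨r - 1, by omega⟩
  have h1 : (Nat.card (N8b55e67f.hammingBall n (s + 1)) : ℝ)
      ≤ 2 * (n.choose s : ℝ) + (n.choose (s + 1) : ℝ) := by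
    have e := card_ball_le n (s + 1)
    rw [Finset.sum_range_succ] at e
    have e2 := sum_choose_le n s (by omega)
    exact_mod_cast (by omega : Nat.card (N8b55e67f.hammingBall n (s + 1))
      ≤ 2 * n.choose s + n.choose (s + 1))
  have h2 : 2 * (n.choose s : ℝ) ≤ ε * (n.choose (s + 1) : ℝ) := by
    have e : (n.choose (s + 1) : ℝ) * ((s : ℝ) + 1) = (n.choose s : ℝ) * ((n : ℝ) - s) := by
      have := Nat.choose_succ_right_eq n s
      have e3 : ((n.choose (s + 1) * (s + 1) : ℕ) : ℝ) = ((n.choose s * (n - s) : ℕ) : ℝ) := by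
        rw [this]
      push_cast [Nat.cast_sub (show s ≤ n by omega)] at e3
      exact e3
    have hs : (0 : ℝ) < (s : ℝ) + 1 := by positivity
    have e4 : 2 * ((s : ℝ) + 1) ≤ ε * ((n : ℝ) - s) := by
      push_cast at h'
      have e5 : 2 * ((s : ℝ) + 1) / ε ≤ (n : ℝ) - s := by linarith
      rw [div_le_iff₀ hε] at e5; linarith
    have e6 : (2 * (n.choose s : ℝ)) * ((s : ℝ) + 1)
        ≤ (ε * (n.choose (s + 1) : ℝ)) * ((s : ℝ) + 1) := by
      have : (ε * (n.choose (s + 1) : ℝ)) * ((s : ℝ) + 1)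
          = (n.choose s : ℝ) * (ε * ((n : ℝ) - s)) := by
        rw [mul_assoc, e]; ring
      rw [this]
      nlinarith [mul_le_mul_of_nonneg_left e4 (Nat.cast_nonneg (α := ℝ) (n.choose s))]
    exact le_of_mul_le_mul_right e6 hs
  have h3 : (n.choose (s + 1) : ℝ) ≤ (n : ℝ) ^ (s + 1) / ((s + 1).factorial : ℝ) :=
    Nat.choose_le_pow_div (s + 1) n
  have hf : (0 : ℝ) < (s + 1).factorial := by exact_mod_cast Nat.factorial_pos (s + 1)
  rw [le_div_iff₀ hf] at h3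
  calc (Nat.card (N8b55e67f.hammingBall n (s + 1)) : ℝ) * ((s + 1).factorial : ℝ)
      ≤ ((1 + ε) * (n.choose (s + 1) : ℝ)) * ((s + 1).factorial : ℝ) := by
        refine mul_le_mul_of_nonneg_right ?_ hf.le; linarith
    _ = (1 + ε) * ((n.choose (s + 1) : ℝ) * ((s + 1).factorial : ℝ)) := by ring
    _ ≤ (1 + ε) * (n : ℝ) ^ (s + 1) := mul_le_mul_of_nonneg_left h3 (by linarith)

/-- `n^r ≤ (1+ε) r! C(n,r)` for `ε n ≥ r²` -/
theorem pow_le_choose_eps (n r : ℕ) (hr : 1 ≤ r) (ε : ℝ) (hε : 0 < ε) (hε1 : ε ≤ 1)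
    (hn : (r : ℝ) ^ 2 ≤ ε * n) :
    (n : ℝ) ^ r ≤ (1 + ε) * ((r.factorial : ℝ) * (n.choose r : ℝ)) := by
  have hr1 : (1 : ℝ) ≤ r := by exact_mod_cast hr
  have hn0 : (0 : ℝ) < n := by
    by_contra h
    have : (n : ℝ) = 0 := le_antisymm (not_lt.mp h) (Nat.cast_nonneg _)
    rw [this] at hn; nlinarith
  have hrn : r ≤ n := by
    have : (r : ℝ) ≤ n := by nlinarith
    exact_mod_cast this
  have h1 := desc_ge n r hrn
  rw [Nat.descFactorial_eq_factorial_mul_choose] at h1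
  push_cast at h1
  have h2 : (r : ℝ) * ((r : ℝ) - 1) * (n : ℝ) ^ r ≤ (ε * n) * (n : ℝ) ^ r := by
    refine mul_le_mul_of_nonneg_right ?_ (by positivity)
    nlinarith
  have h3 : n * ((2 - ε) * (n : ℝ) ^ r) ≤ n * (2 * ((r.factorial : ℝ) * (n.choose r : ℝ))) := by
    nlinarith [h1, h2]
  have h4 := le_of_mul_le_mul_left h3 hn0
  have hX : 0 ≤ (r.factorial : ℝ) * (n.choose r : ℝ) := by positivity
  have h5 : 2 * (n : ℝ) ^ r ≤ (1 + ε) * ((2 - ε) * (n : ℝ) ^ r) := by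
    have : (0 : ℝ) ≤ (n : ℝ) ^ r := by positivity
    have h6 : 0 ≤ ε * (1 - ε) * (n : ℝ) ^ r := by
      have : 0 ≤ 1 - ε := by linarith
      positivity
    nlinarith
  nlinarith [mul_le_mul_of_nonneg_left h4 (by linarith : (0 : ℝ) ≤ 1 + ε)]

/-- `(n+1)^r ≤ (1+ε) n^r` for `ε n ≥ 2 r` -/
theorem succ_pow_le_eps (n r : ℕ) (ε : ℝ) (hε : 0 < ε) (hε1 : ε ≤ 1)
    (hn : 2 * (r : ℝ) ≤ ε * n) :
    ((n : ℝ) + 1) ^ r ≤ (1 + ε) * (n : ℝ) ^ r := by
  have hn0 : (0 : ℝ) < (n : ℝ) + 1 := by positivity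
  have h1 := one_add_mul_le_pow (a := -(1 / ((n : ℝ) + 1))) (by
    have : 1 / ((n : ℝ) + 1) ≤ 1 := by
      rw [div_le_one hn0]; have := Nat.cast_nonneg (α := ℝ) n; linarith
    linarith) r
  have h2 : 1 - ε / 2 ≤ 1 + (r : ℝ) * -(1 / ((n : ℝ) + 1)) := by
    have h3 : (r : ℝ) * (1 / ((n : ℝ) + 1)) ≤ ε / 2 := by
      rw [mul_one_div, div_le_iff₀ hn0]
      nlinarith
    linarith
  have h3 : (1 : ℝ) + -(1 / ((n : ℝ) + 1)) = n / (n + 1) := by
    field_simp; ring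
  rw [h3, div_pow] at h1
  have h4 := h2.trans h1
  rw [le_div_iff₀ (by positivity)] at h4
  have hP : (0 : ℝ) < ((n : ℝ) + 1) ^ r := by positivity
  have h6 : 0 ≤ ε * (1 - ε) * ((n : ℝ) + 1) ^ r := by
    have : 0 ≤ 1 - ε := by linarith
    positivity
  nlinarith [mul_le_mul_of_nonneg_left h4 (by linarith : (0 : ℝ) ≤ 1 + ε)]

theorem log_choose_le' (n r B : ℕ) (hr : 1 ≤ r) (hB : 1 ≤ B) (hn : n ≤ B * r ^ 2) (c : ℕ)
    (hc : (2 : ℝ) ^ c ≤ (n.choose r : ℝ)) :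
    (c : ℝ) * Real.log 2 ≤ r * (Real.log B + Real.log r + 1) := by
  have hr0 : (0 : ℝ) < r := by exact_mod_cast hr
  have hB0 : (0 : ℝ) < B := by exact_mod_cast hB
  have h1 : (n.choose r : ℝ) ≤ (n : ℝ) ^ r / (r.factorial : ℝ) := Nat.choose_le_pow_div r n
  have h2 : (n : ℝ) ^ r / (r.factorial : ℝ) ≤ (B * r * Real.exp 1) ^ r := by
    have hn' : (n : ℝ) ≤ B * r * r := by
      have : (n : ℝ) ≤ B * (r : ℝ) ^ 2 := by exact_mod_cast hn
      nlinarith
    have h3 : (n : ℝ) ^ r ≤ (B * r * r) ^ r := pow_le_pow_left₀ (Nat.cast_nonneg _) hn' r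
    have h4 := Real.pow_div_factorial_le_exp (x := (r : ℝ)) hr0.le r
    have hf : (0 : ℝ) < r.factorial := by exact_mod_cast Nat.factorial_pos r
    calc (n : ℝ) ^ r / (r.factorial : ℝ) ≤ (B * r * r) ^ r / (r.factorial : ℝ) := by gcongr
      _ = (B * r) ^ r * ((r : ℝ) ^ r / (r.factorial : ℝ)) := by rw [mul_pow]; ring
      _ ≤ (B * r) ^ r * Real.exp r := mul_le_mul_of_nonneg_left h4 (by positivity)
      _ = (B * r * Real.exp 1) ^ r := by
          rw [mul_pow ((B : ℝ) * (r : ℝ)) (Real.exp 1) r, ← Real.exp_nat_mul, mul_one]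
  have h5 : ((2 : ℝ)) ^ c ≤ (B * r * Real.exp 1) ^ r := hc.trans (h1.trans h2)
  have h6 := Real.log_le_log (by positivity) h5
  rw [Real.log_pow, Real.log_pow, Real.log_mul (by positivity) (Real.exp_pos 1).ne',
    Real.log_mul hB0.ne' hr0.ne', Real.log_exp] at h6
  exact h6

theorem two_choose_le (a r : ℕ) (hr : 1 ≤ r) : 2 * a.choose r ≤ (2 * a).choose r := by
  rw [two_mul a, Nat.add_choose_eq]
  have h1 : ({(0, r), (r, 0)} : Finset (ℕ × ℕ)) ⊆ antidiagonal r := by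
    intro p hp
    simp only [Finset.mem_insert, Finset.mem_singleton] at hp
    rcases hp with rfl | rfl <;> simp
  calc 2 * a.choose r = ∑ p ∈ ({(0, r), (r, 0)} : Finset (ℕ × ℕ)), a.choose p.1 * a.choose p.2 := by
        rw [Finset.sum_pair]
        · simp; ring
        · intro h; have := (Prod.mk.inj h).1; omega
    _ ≤ _ := Finset.sum_le_sum_of_subset h1

theorem choose_succ_le_eps (n r : ℕ) (ε : ℝ) (hε : 0 < ε) (hε1 : ε ≤ 1)
    (hn : 2 * (r : ℝ) ≤ ε * n) :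
    ((n + 1).choose r : ℝ) ≤ (1 + ε) * (n.choose r : ℝ) := by
  have hrn : r ≤ n := by
    have h0 : (0 : ℝ) ≤ n := Nat.cast_nonneg _
    have h1 : (0 : ℝ) ≤ r := Nat.cast_nonneg _
    have : (r : ℝ) ≤ n := by nlinarith
    exact_mod_cast this
  have h := Nat.choose_mul_succ_eq n r
  have h2 : (n.choose r : ℝ) * ((n : ℝ) + 1) = ((n + 1).choose r : ℝ) * ((n : ℝ) + 1 - r) := by
    have e : ((n.choose r * (n + 1) : ℕ) : ℝ) = (((n + 1).choose r * (n + 1 - r) : ℕ) : ℝ) := by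
      rw [h]
    push_cast [Nat.cast_sub (show r ≤ n + 1 by omega)] at e
    exact e
  have hpos : (0 : ℝ) < (n : ℝ) + 1 - r := by
    have : (r : ℝ) ≤ n := by exact_mod_cast hrn
    linarith
  have h3 : ((n : ℝ) + 1) ≤ (1 + ε) * ((n : ℝ) + 1 - r) := by
    have hr0 : (0 : ℝ) ≤ r := Nat.cast_nonneg _
    nlinarith
  have h4 : ((n + 1).choose r : ℝ) * ((n : ℝ) + 1 - r)
      ≤ ((1 + ε) * (n.choose r : ℝ)) * ((n : ℝ) + 1 - r) := by
    rw [← h2]
    have := mul_le_mul_of_nonneg_left h3 (Nat.cast_nonneg (α := ℝ) (n.choose r))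
    linarith
  exact le_of_mul_le_mul_right h4 hpos

end Pool.Agent.H613T.LC
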