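import Pool.Agent.H613T.LinCov5

/-!
Linear covering codes of small density: sharp constants.
-/

set_option autoImplicit false
set_option linter.unusedSectionVars false

namespace Pool.Agent.H613T.LC

open Finset Filter N8b55e67f

/-- conditions on `r` -/
structure Big (r A : ℕ) (ε : ℝ) : Prop where
  e0 : 0 < ε
  e1 : ε ≤ 1
  A1 : 2 ≤ ε * A
  r4 : 4 ≤ r
  l1 : Real.log (2 * A) + 4 ≤ ε / 2 * Real.log r
  l2 : (1 + ε) * Real.log r ≤ ε / 8 * r

theorem Big.logpos {r A : ℕ} {ε : ℝ} (h : Big r A ε) : 1 ≤ Real.log r := by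
  have h1 := h.l1
  have hA : (1 : ℝ) ≤ 2 * A := by
    have := h.A1; have := h.e1; have := h.e0
    have : (0 : ℝ) ≤ A := Nat.cast_nonneg _
    nlinarith
  have h2 := Real.log_nonneg hA
  have := h.e1; have := h.e0
  by_contra hc
  push Not at hc
  have : ε / 2 * Real.log r ≤ 1 := by
    rcases le_or_gt 0 (Real.log r) with h3 | h3
    · nlinarith
    · nlinarith
  linarith

theorem Big.base {r A : ℕ} {ε : ℝ} (h : Big r A ε) (m c : ℕ) (hm : m ≤ 2 * A * r ^ 2)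
    (h1 : 2 ^ c * ((1 + ε) * (r * Real.log r)) ≤ (m.choose r : ℝ))
    (h2 : (m.choose r : ℝ) ≤ 2 * (2 ^ c * ((1 + ε) * (r * Real.log r)))) :
    ∃ (V : Type) (_ : AddCommGroup V) (_ : Module (ZMod 2) V) (_ : Finite V)
      (a : Fin m → V), Cov a r ∧ 2 ^ c ≤ Nat.card V := by
  obtain ⟨e0, e1, A1, r4, l1, l2⟩ := h
  have hl := Big.logpos ⟨e0, e1, A1, r4, l1, l2⟩
  have hr4 : (4 : ℝ) ≤ r := by exact_mod_cast r4
  have hA0 : 1 ≤ A := by
    by_contra hA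
    have : A = 0 := by omega
    subst this
    simp at A1
    linarith
  set X : ℝ := r * Real.log r with hX
  have hX0 : 4 ≤ X := by nlinarith
  have hκ1 : 1 ≤ (1 + ε) * X := by nlinarith
  have hj1 : r ^ 2 ≤ 2 ^ Nat.clog 2 (r ^ 2) := Nat.le_pow_clog (by norm_num) _
  have hr2 : 16 ≤ r ^ 2 := by nlinarith
  have hj2 : 2 ^ Nat.clog 2 (r ^ 2) ≤ 2 * r ^ 2 := by
    have h3 := Nat.pow_pred_clog_lt_self (b := 2) (by norm_num) (x := r ^ 2) (by omega)
    have h4 : 0 < Nat.clog 2 (r ^ 2) := Nat.clog_pos (by norm_num) (by omega)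
    set t := Nat.clog 2 (r ^ 2)
    have h5 : t = t.pred + 1 := (Nat.succ_pred_eq_of_pos h4).symm
    rw [h5, pow_succ]
    omega
  refine base_sharp m r c (Nat.clog 2 (r ^ 2)) ((1 + ε) * X) (by omega) (by linarith) h1 h2 ?_
  set j := Nat.clog 2 (r ^ 2) with hj
  have hc : (2 : ℝ) ^ c ≤ (m.choose r : ℝ) := by
    refine le_trans ?_ h1
    have : (0 : ℝ) < 2 ^ c := by positivity
    nlinarith
  have hcl := log_choose_le' m r (2 * A) (by omega) (by omega) hm c hc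
  push_cast at hcl
  have hjl : (j : ℝ) * Real.log 2 ≤ 3 * r := by
    have h3 : ((2 : ℝ)) ^ j ≤ 2 * (r : ℝ) ^ 2 := by exact_mod_cast hj2
    have h4 := Real.log_le_log (by positivity) h3
    rw [Real.log_pow, Real.log_mul (by norm_num) (by positivity), Real.log_pow] at h4
    have h5 := Real.log_le_sub_one_of_pos (show (0 : ℝ) < r by linarith)
    have h6 := Real.log_two_lt_d9
    push_cast at h4
    linarith
  have hsum : ((c : ℝ) + j) * Real.log 2 ≤ (1 + ε / 2) * X := by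
    have h3 : (r : ℝ) * (Real.log (2 * A) + 4) ≤ r * (ε / 2 * Real.log r) :=
      mul_le_mul_of_nonneg_left l1 (by linarith)
    have h4 : (r : ℝ) * (ε / 2 * Real.log r) = ε / 2 * X := by rw [hX]; ring
    have h5 : (r : ℝ) * (Real.log (2 * A) + Real.log r + 1)
        = X + r * (Real.log (2 * A) + 4) - 3 * r := by rw [hX]; ring
    rw [h5] at hcl
    linarith
  have hfrac : (1 + ε) * X / 2 ^ j ≤ ε / 8 := by
    rw [div_le_iff₀ (by positivity)]
    have h3 : ((r : ℝ)) ^ 2 ≤ 2 ^ j := by exact_mod_cast hj1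
    calc (1 + ε) * X = ((1 + ε) * Real.log r) * r := by rw [hX]; ring
      _ ≤ (ε / 8 * r) * r := mul_le_mul_of_nonneg_right l2 (by linarith)
      _ = ε / 8 * (r : ℝ) ^ 2 := by ring
      _ ≤ ε / 8 * 2 ^ j := mul_le_mul_of_nonneg_left h3 (by linarith)
  have hnn : 0 ≤ (1 + ε) * X / 2 ^ j := by positivity
  calc ((c : ℝ) + j) * Real.log 2 * (1 + (1 + ε) * X / 2 ^ j)
      ≤ ((1 + ε / 2) * X) * (1 + ε / 8) := by
        refine mul_le_mul hsum (by linarith) (by linarith) (by positivity)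
    _ < (1 + ε) * X := by
        have h7 : 0 < X * (ε * (3 / 8 - ε / 16)) := by
          have : 0 < 3 / 8 - ε / 16 := by linarith
          positivity
        nlinarith

theorem Big.core {r A : ℕ} {ε : ℝ} (h : Big r A ε) (m c J n : ℕ) (θ : ℝ) (hθ : θ ≤ 2)
    (hmA : A * r ^ 2 ≤ m) (hm : m ≤ 2 * A * r ^ 2)
    (h1 : 2 ^ c * ((1 + ε) * (r * Real.log r)) ≤ (m.choose r : ℝ))
    (h2 : (m.choose r : ℝ) ≤ θ * (2 ^ c * ((1 + ε) * (r * Real.log r))))
    (hJ0 : J ≠ 0) (hJ : m ≤ 2 ^ J) (hn : m * 2 ^ J ≤ n)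
    (hn2 : (n : ℝ) ^ r ≤ (1 + ε) * ((m : ℝ) ^ r * (2 ^ J) ^ r))
    (hn3 : 3 * r ≤ n) (hn4 : (r : ℝ) + 2 * r / ε ≤ n) :
    minDensity n r ≤ ENNReal.ofReal ((1 + ε) ^ 4 * θ * (r * Real.log r)) := by
  have e0 := h.e0
  have e1 := h.e1
  have hl := h.logpos
  have hr4 : (4 : ℝ) ≤ r := by exact_mod_cast h.r4
  set X : ℝ := r * Real.log r with hX
  have hX0 : 4 ≤ X := by nlinarith
  have hκ0 : 0 < 2 ^ c * ((1 + ε) * X) := by positivity
  obtain ⟨V, _, _, _, a, ha, hV⟩ := h.base m c hm h1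
    (h2.trans (mul_le_mul_of_nonneg_right hθ hκ0.le))
  obtain ⟨V', _, _, _, b, hb, hV'⟩ := lift m r J hJ0 hJ V a ha
  have hden := density_le r n (by simpa using hn) V' b hb
  refine hden.trans ?_
  have hV'0 : 0 < Nat.card V' := Nat.card_pos
  have hV'0' : (0 : ℝ) < Nat.card V' := by exact_mod_cast hV'0
  have hV'1 : (2 : ℝ) ^ c * (2 ^ J) ^ r ≤ Nat.card V' := by
    rw [hV', pow_mul]; push_cast
    have : (2 : ℝ) ^ c ≤ Nat.card V := by exact_mod_cast hV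
    exact mul_le_mul_of_nonneg_right this (by positivity)
  have hb1 := ball_le_eps n r (by have := h.r4; omega) ε e0 hn3 hn4
  have hmε : (r : ℝ) ^ 2 ≤ ε * m := by
    have h3 : (A : ℝ) * (r : ℝ) ^ 2 ≤ m := by exact_mod_cast hmA
    have h4 := h.A1
    calc (r : ℝ) ^ 2 ≤ (ε * A) * (r : ℝ) ^ 2 := by nlinarith [sq_nonneg (r : ℝ)]
      _ = ε * (A * (r : ℝ) ^ 2) := by ring
      _ ≤ ε * m := mul_le_mul_of_nonneg_left h3 e0.le
  have hp := pow_le_choose_eps m r (by have := h.r4; omega) ε e0 e1 hmε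
  have hf : (0 : ℝ) < r.factorial := by exact_mod_cast Nat.factorial_pos r
  have hθ0 : 0 < θ := by
    by_contra hc
    push Not at hc
    have h3 : 0 < (m.choose r : ℝ) := lt_of_lt_of_le hκ0 h1
    nlinarith
  have hreal : (Nat.card (hammingBall n r) : ℝ) * (r.factorial : ℝ)
      ≤ ((1 + ε) ^ 4 * θ * X * Nat.card V') * (r.factorial : ℝ) := by
    calc (Nat.card (hammingBall n r) : ℝ) * (r.factorial : ℝ) ≤ (1 + ε) * (n : ℝ) ^ r := hb1
      _ ≤ (1 + ε) * ((1 + ε) * ((m : ℝ) ^ r * (2 ^ J) ^ r)) := by gcongr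
      _ ≤ (1 + ε) * ((1 + ε) * (((1 + ε) * ((r.factorial : ℝ) * (m.choose r : ℝ)))
            * (2 ^ J) ^ r)) := by gcongr
      _ ≤ (1 + ε) * ((1 + ε) * (((1 + ε) * ((r.factorial : ℝ) *
            (θ * (2 ^ c * ((1 + ε) * X))))) * (2 ^ J) ^ r)) := by gcongr
      _ = ((1 + ε) ^ 4 * θ * X * (2 ^ c * (2 ^ J) ^ r)) * (r.factorial : ℝ) := by ring
      _ ≤ ((1 + ε) ^ 4 * θ * X * Nat.card V') * (r.factorial : ℝ) := by gcongr
  have hreal2 := le_of_mul_le_mul_right hreal hf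
  have e2 : (Nat.card (hammingBall n r) : ENNReal) / (Nat.card V' : ENNReal)
      = ENNReal.ofReal ((Nat.card (hammingBall n r) : ℝ) / Nat.card V') := by
    rw [ENNReal.ofReal_div_of_pos hV'0', ENNReal.ofReal_natCast, ENNReal.ofReal_natCast]
  rw [e2]
  refine ENNReal.ofReal_le_ofReal ?_
  rw [div_le_iff₀ hV'0']
  exact hreal2

/-- the binomial coefficients of lengths `≥ A r²` are large -/
theorem Big.choose_ge {r A : ℕ} {ε : ℝ} (h : Big r A ε) (m : ℕ) (hmA : A * r ^ 2 ≤ m) :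
    (1 + ε) * (r * Real.log r) ≤ (m.choose r : ℝ) := by
  have e0 := h.e0
  have e1 := h.e1
  have hr4 : (4 : ℝ) ≤ r := by exact_mod_cast h.r4
  have hA0 : 2 ≤ A := by
    have h1 := h.A1
    have : (2 : ℝ) ≤ A := by
      have : (0 : ℝ) ≤ A := Nat.cast_nonneg _
      nlinarith
    exact_mod_cast this
  have h1 : (1 + ε) * (r * Real.log r) ≤ (r : ℝ) ^ 2 := by
    have := h.l2
    nlinarith
  have hr4' := h.r4
  have h2 : r ^ 2 ≤ m := by nlinarith [Nat.zero_le (r ^ 2)]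
  have h3 := pow_le_choose m r (by omega) h2
  have h4 : ((r : ℝ) ^ 2) ^ r ≤ (m : ℝ) ^ r := by
    have : (r : ℝ) ^ 2 ≤ m := by exact_mod_cast h2
    exact pow_le_pow_left₀ (by positivity) this r
  have h5 : (r.factorial : ℝ) ≤ (r : ℝ) ^ r := by exact_mod_cast Nat.factorial_le_pow r
  have hC0 : (0 : ℝ) ≤ (m.choose r : ℝ) := Nat.cast_nonneg _
  have hrr : (0 : ℝ) < (r : ℝ) ^ r := by positivity
  have h6 : (r : ℝ) ^ r * (r : ℝ) ^ r ≤ (2 * (m.choose r : ℝ)) * (r : ℝ) ^ r := by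
    calc (r : ℝ) ^ r * (r : ℝ) ^ r = ((r : ℝ) ^ 2) ^ r := by rw [← pow_mul, two_mul, pow_add]
      _ ≤ 2 * ((r.factorial : ℝ) * (m.choose r : ℝ)) := h4.trans h3
      _ ≤ 2 * ((r : ℝ) ^ r * (m.choose r : ℝ)) := by gcongr
      _ = _ := by ring
  have h7 := le_of_mul_le_mul_right h6 hrr
  have h8 : (r : ℝ) ^ 4 ≤ (r : ℝ) ^ r := pow_le_pow_right₀ (by linarith) hr4'
  have h9 : 2 * (r : ℝ) ^ 2 ≤ (r : ℝ) ^ 4 := by
    have e : (r : ℝ) ^ 4 = (r : ℝ) ^ 2 * (r : ℝ) ^ 2 := by ring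
    have e' : (2 : ℝ) ≤ (r : ℝ) ^ 2 := by nlinarith
    rw [e]
    exact mul_le_mul_of_nonneg_right e' (by positivity)
  linarith

end Pool.Agent.H613T.LC
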