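import Pool.Agent.H613T.LinCov6

/-!
Linear covering codes of small density: the limit theorems.
-/

set_option autoImplicit false
set_option linter.unusedSectionVars false

namespace Pool.Agent.H613T.LC

open Finset Filter N8b55e67f

theorem Big.facts {r A : ℕ} {ε : ℝ} (h : Big r A ε) (m : ℕ) (hmA : A * r ^ 2 ≤ m) :
    2 * (r : ℝ) ≤ ε * m ∧ 2 ≤ A ∧ 4 * r ≤ m := by
  have e0 := h.e0
  have e1 := h.e1
  have hr4 : (4 : ℝ) ≤ r := by exact_mod_cast h.r4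
  have hA : (2 : ℝ) ≤ A := by
    have h1 := h.A1
    have : (0 : ℝ) ≤ A := Nat.cast_nonneg _
    nlinarith
  have hA' : 2 ≤ A := by exact_mod_cast hA
  have h3 : (A : ℝ) * (r : ℝ) ^ 2 ≤ m := by exact_mod_cast hmA
  refine ⟨?_, hA', ?_⟩
  · have h4 := h.A1
    calc 2 * (r : ℝ) ≤ 2 * (r : ℝ) ^ 2 := by nlinarith
      _ ≤ (ε * A) * (r : ℝ) ^ 2 := mul_le_mul_of_nonneg_right h4 (by positivity)
      _ = ε * (A * (r : ℝ) ^ 2) := by ring
      _ ≤ ε * m := mul_le_mul_of_nonneg_left h3 e0.le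
  · have : 4 * r ≤ A * r ^ 2 := by
      have h5 := h.r4
      calc 4 * r ≤ r * r := Nat.mul_le_mul_right r h5
        _ = r ^ 2 := by ring
        _ ≤ A * r ^ 2 := Nat.le_mul_of_pos_left _ (by omega)
    exact this.trans hmA

/-- all lengths -/
theorem Big.limsup_le {r A : ℕ} {ε : ℝ} (h : Big r A ε) :
    f_all r ≤ ENNReal.ofReal ((1 + ε) ^ 4 * 2 * (r * Real.log r)) := by
  have e0 := h.e0
  have e1 := h.e1
  have hr4 := h.r4
  have hl := h.logpos
  have hA2 : 2 ≤ A := (h.facts _ le_rfl).2.1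
  have hD : 0 < A * r ^ 2 := by positivity
  unfold f_all
  refine Filter.limsup_le_of_le (by isBoundedDefault) ?_
  filter_upwards [eventually_ge_atTop ((A * r ^ 2) * (4 * (A * r ^ 2))), eventually_ge_atTop (3 * r),
    eventually_ge_atTop ⌈(r : ℝ) + 2 * r / ε⌉₊] with n hn hn3 hn4
  set J := Nat.log 2 (n / (A * r ^ 2)) with hJ
  have hq : 4 * (A * r ^ 2) ≤ n / (A * r ^ 2) := by
    rw [Nat.le_div_iff_mul_le hD, mul_comm]; exact hn
  have hq0 : n / (A * r ^ 2) ≠ 0 := by omega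
  have hJ1 : 2 ^ J ≤ n / (A * r ^ 2) := Nat.pow_log_le_self 2 hq0
  have hJ2 : n / (A * r ^ 2) < 2 ^ (J + 1) := Nat.lt_pow_succ_log_self (by norm_num) _
  have hJ3 : 2 * (A * r ^ 2) < 2 ^ J := by
    rw [pow_succ 2 J] at hJ2; omega
  have hJ0 : J ≠ 0 := by
    intro h0
    rw [h0] at hJ3
    simp at hJ3
    omega
  have hpJ : 0 < 2 ^ J := by positivity
  set m := n / 2 ^ J with hm
  have hm1 : A * r ^ 2 ≤ m := by
    rw [hm, Nat.le_div_iff_mul_le hpJ]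
    calc A * r ^ 2 * 2 ^ J ≤ A * r ^ 2 * (n / (A * r ^ 2)) := Nat.mul_le_mul_left _ hJ1
      _ ≤ n := Nat.mul_div_le _ _
  have hm2 : m < 2 * (A * r ^ 2) := by
    rw [hm, Nat.div_lt_iff_lt_mul hpJ]
    have : n < (A * r ^ 2) * 2 ^ (J + 1) := by
      have := Nat.div_lt_iff_lt_mul hD |>.mp hJ2
      linarith
    calc n < (A * r ^ 2) * 2 ^ (J + 1) := this
      _ = 2 * (A * r ^ 2) * 2 ^ J := by rw [pow_succ]; ring
  have hmn : m * 2 ^ J ≤ n := Nat.div_mul_le_self _ _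
  have hmn2 : n < (m + 1) * 2 ^ J := by
    rw [hm]
    exact Nat.lt_mul_of_div_lt (by omega) hpJ
  -- the codimension
  set κ : ℝ := (1 + ε) * (r * Real.log r) with hκ
  have hκ0 : 0 < κ := by
    have : (0 : ℝ) < r := by exact_mod_cast (by omega : 0 < r)
    positivity
  have hC := h.choose_ge m hm1
  rw [← hκ] at hC
  obtain ⟨c, hc1, hc2⟩ := exists_nat_pow_near (x := (m.choose r : ℝ) / κ) (y := 2)
    (by rw [le_div_iff₀ hκ0]; linarith) (by norm_num)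
  rw [le_div_iff₀ hκ0] at hc1
  rw [div_lt_iff₀ hκ0, pow_succ] at hc2
  refine h.core m c J n 2 le_rfl hm1 (by rw [mul_assoc]; exact hm2.le) hc1 (by linarith) hJ0
    (by omega) hmn ?_ hn3 ?_
  · have h5 : (n : ℝ) ≤ ((m : ℝ) + 1) * 2 ^ J := by exact_mod_cast hmn2.le
    have h6 : (n : ℝ) ^ r ≤ (((m : ℝ) + 1) * 2 ^ J) ^ r :=
      pow_le_pow_left₀ (Nat.cast_nonneg _) h5 r
    rw [mul_pow] at h6
    have h7 := succ_pow_le_eps m r ε e0 e1 (h.facts m hm1).1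
    calc (n : ℝ) ^ r ≤ ((m : ℝ) + 1) ^ r * (2 ^ J) ^ r := h6
      _ ≤ ((1 + ε) * (m : ℝ) ^ r) * (2 ^ J) ^ r := by gcongr
      _ = _ := by ring
  · exact (Nat.le_ceil _).trans (by exact_mod_cast hn4)

/-- best lengths -/
theorem Big.liminf_le {r A : ℕ} {ε : ℝ} (h : Big r A ε) :
    f r ≤ ENNReal.ofReal ((1 + ε) ^ 4 * (1 + ε) * (r * Real.log r)) := by
  classical
  have e0 := h.e0
  have e1 := h.e1
  have hr4 := h.r4
  have hl := h.logpos
  have hA2 : 2 ≤ A := (h.facts _ le_rfl).2.1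
  set κ : ℝ := (1 + ε) * (r * Real.log r) with hκ
  have hκ0 : 0 < κ := by
    have : (0 : ℝ) < r := by exact_mod_cast (by omega : 0 < r)
    positivity
  have hC := h.choose_ge (A * r ^ 2) le_rfl
  rw [← hκ] at hC
  obtain ⟨c, hc1, hc2⟩ := exists_nat_pow_near (x := ((A * r ^ 2).choose r : ℝ) / κ) (y := 2)
    (by rw [le_div_iff₀ hκ0]; linarith) (by norm_num)
  rw [le_div_iff₀ hκ0] at hc1
  rw [div_lt_iff₀ hκ0] at hc2
  have hex : ∃ m : ℕ, 2 ^ (c + 1) * κ ≤ (m.choose r : ℝ) := by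
    refine ⟨2 * (A * r ^ 2), ?_⟩
    have h1 := two_choose_le (A * r ^ 2) r (by omega)
    have h2 : 2 * ((A * r ^ 2).choose r : ℝ) ≤ ((2 * (A * r ^ 2)).choose r : ℝ) := by
      exact_mod_cast h1
    rw [pow_succ]; linarith
  set m := Nat.find hex with hm
  have hm1 : 2 ^ (c + 1) * κ ≤ (m.choose r : ℝ) := Nat.find_spec hex
  have hm2 : m ≤ 2 * (A * r ^ 2) := by
    refine Nat.find_min' hex ?_
    have h1 := two_choose_le (A * r ^ 2) r (by omega)
    have h2 : 2 * ((A * r ^ 2).choose r : ℝ) ≤ ((2 * (A * r ^ 2)).choose r : ℝ) := by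
      exact_mod_cast h1
    rw [pow_succ]; linarith
  have hm3 : A * r ^ 2 < m := by
    by_contra hcon
    push Not at hcon
    have h1 : ((m.choose r : ℕ) : ℝ) ≤ ((A * r ^ 2).choose r : ℝ) := by
      exact_mod_cast Nat.choose_le_choose r hcon
    linarith
  have hm4 : (m.choose r : ℝ) ≤ (1 + ε) * (2 ^ (c + 1) * κ) := by
    obtain ⟨m', hm'⟩ : ∃ m', m = m' + 1 := ⟨m - 1, by omega⟩
    have h1 : ¬ (2 ^ (c + 1) * κ ≤ (m'.choose r : ℝ)) := Nat.find_min hex (by omega)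
    push Not at h1
    have h2 := choose_succ_le_eps m' r ε e0 e1 (h.facts m' (by omega)).1
    rw [hm']
    refine h2.trans ?_
    exact mul_le_mul_of_nonneg_left h1.le (by linarith)
  unfold f
  refine Filter.liminf_le_of_frequently_le ?_ (by isBoundedDefault)
  rw [Filter.frequently_atTop]
  intro N
  set J := N + 3 * r + ⌈(r : ℝ) + 2 * r / ε⌉₊ + m + 1 with hJ
  have h2J : J < 2 ^ J := Nat.lt_two_pow_self
  have hm0 : 1 ≤ m := by omega
  have hnJ : 2 ^ J ≤ m * 2 ^ J := Nat.le_mul_of_pos_left _ hm0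
  refine ⟨m * 2 ^ J, by omega, ?_⟩
  refine h.core m (c + 1) J (m * 2 ^ J) (1 + ε) (by linarith) hm3.le
    (by rw [mul_assoc]; exact hm2) hm1 hm4 (by omega) (by omega) le_rfl ?_ (by omega) ?_
  · push_cast
    rw [mul_pow]
    have : (0 : ℝ) ≤ (m : ℝ) ^ r * (2 ^ J) ^ r := by positivity
    nlinarith
  · exact (Nat.le_ceil _).trans (by exact_mod_cast (by omega :
      ⌈(r : ℝ) + 2 * r / ε⌉₊ ≤ m * 2 ^ J))

theorem eventually_big (ε : ℝ) (e0 : 0 < ε) (e1 : ε ≤ 1) :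
    ∃ A : ℕ, ∀ᶠ r : ℕ in atTop, Big r A ε := by
  refine ⟨⌈2 / ε⌉₊, ?_⟩
  have hA : 2 ≤ ε * (⌈2 / ε⌉₊ : ℝ) := by
    have := Nat.le_ceil (2 / ε)
    rw [div_le_iff₀ e0] at this; linarith
  have t1 : Tendsto (fun r : ℕ => Real.log (r : ℝ)) atTop atTop :=
    Real.tendsto_log_atTop.comp tendsto_natCast_atTop_atTop
  have t2 : Tendsto (fun r : ℕ => Real.log (r : ℝ) ^ 1 / (1 * (r : ℝ) + 0)) atTop (nhds 0) :=
    (Real.tendsto_pow_log_div_mul_add_atTop 1 0 1 one_ne_zero).comp tendsto_natCast_atTop_atTop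
  have h1 := t1.eventually_ge_atTop ((Real.log (2 * (⌈2 / ε⌉₊ : ℝ)) + 4) * (2 / ε))
  have h2 := t2.eventually_lt_const (show (0 : ℝ) < ε / 16 by positivity)
  filter_upwards [h1, h2, eventually_ge_atTop 4] with r h1 h2 h3
  have hr0 : (0 : ℝ) < r := by exact_mod_cast (by omega : 0 < r)
  refine ⟨e0, e1, hA, h3, ?_, ?_⟩
  · have : Real.log (2 * (⌈2 / ε⌉₊ : ℝ)) + 4
        = ((Real.log (2 * (⌈2 / ε⌉₊ : ℝ)) + 4) * (2 / ε)) * (ε / 2) := by
      field_simp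
    rw [this]
    nlinarith
  · rw [pow_one, one_mul, add_zero, div_lt_iff₀ hr0] at h2
    have hl : 0 ≤ Real.log r := Real.log_nonneg (by exact_mod_cast (by omega : 1 ≤ r))
    nlinarith

theorem main (η : ℝ) (hη : 0 < η) : ∀ᶠ r : ℕ in atTop,
    f r ≤ ENNReal.ofReal ((1 + η) * (r * Real.log r)) ∧
    f_all r ≤ ENNReal.ofReal ((2 + η) * (r * Real.log r)) := by
  set ε : ℝ := min 1 (η / 31) with hε
  have e0 : 0 < ε := by rw [hε]; positivity
  have e1 : ε ≤ 1 := min_le_left _ _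
  have e2 : 31 * ε ≤ η := by
    have : ε ≤ η / 31 := min_le_right _ _
    linarith
  obtain ⟨A, hA⟩ := eventually_big ε e0 e1
  filter_upwards [hA, eventually_ge_atTop 1] with r h hr1
  have hX : 0 ≤ (r : ℝ) * Real.log r :=
    mul_nonneg (Nat.cast_nonneg _) (Real.log_nonneg (by exact_mod_cast hr1))
  have p2 : ε ^ 2 ≤ ε := by nlinarith
  have p3 : ε ^ 3 ≤ ε := by nlinarith [mul_nonneg e0.le e0.le]
  have p4 : ε ^ 4 ≤ ε := by nlinarith [pow_pos e0 3]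
  have p5 : ε ^ 5 ≤ ε := by nlinarith [pow_pos e0 4]
  constructor
  · refine h.liminf_le.trans (ENNReal.ofReal_le_ofReal ?_)
    refine mul_le_mul_of_nonneg_right ?_ hX
    nlinarith
  · refine h.limsup_le.trans (ENNReal.ofReal_le_ofReal ?_)
    refine mul_le_mul_of_nonneg_right ?_ hX
    nlinarith

end Pool.Agent.H613T.LC
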