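import Pool.Agent.H613T.LinCov7

/-!
Linear covering codes: `f_all r ≥ 2 f r`.
-/

set_option autoImplicit false
set_option linter.unusedSectionVars false

namespace Pool.Agent.H613T.LC

open Finset Filter N8b55e67f
open scoped Pointwise

theorem card_ball_eq (n r : ℕ) :
    Nat.card (hammingBall n r) = ∑ i ∈ range (r + 1), n.choose i := by
  classical
  refine le_antisymm (card_ball_le n r) ?_
  have h1 : Nat.card (hammingBall n r) = (hammingBallFinset n r).card := by
    have : hammingBall n r = ((hammingBallFinset n r : Finset _) : Set (Fin n → ZMod 2)) := by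
      ext x; simp [hammingBall, hammingBallFinset]
    rw [this]; simp
  rw [h1]
  have h2 : ((range (r + 1)).biUnion fun i => (univ : Finset (Fin n)).powersetCard i).card
      = ∑ i ∈ range (r + 1), n.choose i := by
    rw [Finset.card_biUnion]
    · exact Finset.sum_congr rfl fun i _ => by
        rw [Finset.card_powersetCard, Finset.card_univ, Fintype.card_fin]
    · intro i _ j _ hij
      exact Finset.pairwise_disjoint_powersetCard _ hij
  rw [← h2]
  refine Finset.card_le_card_of_injOn (fun T k => if k ∈ T then (1 : ZMod 2) else 0) ?_ ?_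
  · intro T hT
    simp only [Finset.coe_biUnion, Set.mem_iUnion] at hT
    obtain ⟨i, hi, hT⟩ := hT
    have hT' := (Finset.mem_powersetCard.mp hT).2
    have hi' : i < r + 1 := by simpa using hi
    have e : (univ.filter fun k => (if k ∈ T then (1 : ZMod 2) else 0) ≠ 0) = T := by
      ext k
      simp
    have : hammingNorm (fun k => if k ∈ T then (1 : ZMod 2) else 0) ≤ r := by
      unfold hammingNorm
      rw [e, hT']; omega
    simpa [hammingBallFinset] using this
  · intro T _ T' _ h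
    ext k
    have := congrFun h k
    by_cases h1 : k ∈ T <;> by_cases h2 : k ∈ T' <;> simp_all

theorem attained (n r : ℕ) : ∃ c : ℕ,
    minDensity n r = (Nat.card (hammingBall n r) : ENNReal) / 2 ^ c := by
  classical
  have hne : Nonempty {V : Submodule (ZMod 2) (Fin n → ZMod 2) // IsCoveringSubspace n r V} := by
    refine ⟨⟨⊤, ?_⟩⟩
    unfold IsCoveringSubspace
    rw [Set.eq_univ_iff_forall]
    intro y
    exact Set.mem_add.mpr ⟨y, by simp, 0, by simp [hammingBall], by simp⟩
  have hmin : minDensity n r = ⨅ V : {V : Submodule (ZMod 2) (Fin n → ZMod 2) //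
      IsCoveringSubspace n r V},
      (Nat.card V.1 : ENNReal) * (Nat.card (hammingBall n r) : ENNReal) / (2 ^ n : ENNReal) := by
    unfold minDensity
    exact iInf_subtype'
  obtain ⟨V, hV⟩ := exists_eq_ciInf_of_finite (f := fun V : {V : Submodule (ZMod 2)
      (Fin n → ZMod 2) // IsCoveringSubspace n r V} =>
      (Nat.card V.1 : ENNReal) * (Nat.card (hammingBall n r) : ENNReal) / (2 ^ n : ENNReal))
  refine ⟨n - Module.finrank (ZMod 2) V.1, ?_⟩
  rw [hmin, ← hV]
  have hk : Module.finrank (ZMod 2) V.1 ≤ n := by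
    have := Submodule.finrank_le V.1
    simpa using this
  have hc : Nat.card V.1 = 2 ^ Module.finrank (ZMod 2) V.1 := by
    have := Module.card_eq_pow_finrank (K := ZMod 2) (V := V.1)
    rw [Nat.card_eq_fintype_card, this, ZMod.card]
  have e1 : (2 ^ n : ENNReal) = (Nat.card V.1 : ENNReal) *
      2 ^ (n - Module.finrank (ZMod 2) V.1) := by
    rw [hc]; push_cast
    rw [← pow_add]; congr 1; omega
  have h0 : (Nat.card V.1 : ENNReal) ≠ 0 := by
    rw [hc]; push_cast; positivity
  show (Nat.card V.1 : ENNReal) * (Nat.card (hammingBall n r) : ENNReal) / (2 ^ n : ENNReal) = _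
  rw [e1]
  exact ENNReal.mul_div_mul_left _ _ h0 (ENNReal.natCast_ne_top _)

theorem one_le_minDensity (n r : ℕ) : 1 ≤ minDensity n r := by
  unfold minDensity
  refine le_iInf₂ fun V hV => ?_
  have h1 : 2 ^ n ≤ Nat.card V * Nat.card (hammingBall n r) := by
    have hs : Function.Surjective (fun p : V × hammingBall n r => (p.1 : Fin n → ZMod 2) + p.2) := by
      intro y
      have hy : y ∈ (V : Set (Fin n → ZMod 2)) + (hammingBall n r : Set (Fin n → ZMod 2)) := by
        have hV' : (V : Set (Fin n → ZMod 2)) + (hammingBall n r : Set (Fin n → ZMod 2))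
            = Set.univ := hV
        rw [hV']; trivial
      obtain ⟨v, hv, b, hb, h⟩ := Set.mem_add.mp hy
      exact ⟨(⟨v, hv⟩, ⟨b, hb⟩), h⟩
    have h2 := Nat.card_le_card_of_surjective _ hs
    rw [Nat.card_prod] at h2
    have h3 : Nat.card (Fin n → ZMod 2) = 2 ^ n := by
      simp [Nat.card_eq_fintype_card, ZMod.card]
    rwa [h3] at h2
  rw [ENNReal.le_div_iff_mul_le (Or.inl (by positivity)) (Or.inl (by simp)), one_mul]
  exact_mod_cast h1

/-- growth of the ball -/
theorem ball_succ (r : ℕ) (hr : 1 ≤ r) (δ : ℝ) (hδ : 0 < δ) : ∀ᶠ n : ℕ in atTop,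
    (Nat.card (hammingBall (n + 1) r) : ℝ) ≤ (1 + δ) * (Nat.card (hammingBall n r) : ℝ) := by
  obtain ⟨s, rfl⟩ : ∃ s, r = s + 1 := ⟨r - 1, by omega⟩
  filter_upwards [eventually_ge_atTop (3 * (s + 1)),
    eventually_ge_atTop ⌈((s : ℝ) + 1) + 2 * ((s : ℝ) + 1) / δ⌉₊] with n hn hn'
  have hn2 : ((s : ℝ) + 1) + 2 * ((s : ℝ) + 1) / δ ≤ n := (Nat.le_ceil _).trans (by exact_mod_cast hn')
  have h1 : ∑ i ∈ range (s + 1 + 1), (n + 1).choose i
      = ∑ i ∈ range (s + 1 + 1), n.choose i + ∑ i ∈ range (s + 1), n.choose i := by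
    rw [Finset.sum_range_succ' (fun i => (n + 1).choose i),
      Finset.sum_range_succ' (fun i => n.choose i) (s + 1)]
    simp only [Nat.choose_succ_succ, Finset.sum_add_distrib, Nat.choose_zero_right]
    ring
  have h2 := sum_choose_le n s (by omega)
  have h3 : 2 * (n.choose s : ℝ) ≤ δ * (n.choose (s + 1) : ℝ) := by
    have e : (n.choose (s + 1) : ℝ) * ((s : ℝ) + 1) = (n.choose s : ℝ) * ((n : ℝ) - s) := by
      have := Nat.choose_succ_right_eq n s
      have e3 : ((n.choose (s + 1) * (s + 1) : ℕ) : ℝ) = ((n.choose s * (n - s) : ℕ) : ℝ) := by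
        rw [this]
      push_cast [Nat.cast_sub (show s ≤ n by omega)] at e3
      exact e3
    have hs : (0 : ℝ) < (s : ℝ) + 1 := by positivity
    have e4 : 2 * ((s : ℝ) + 1) ≤ δ * ((n : ℝ) - s) := by
      have e5 : 2 * ((s : ℝ) + 1) / δ ≤ (n : ℝ) - s := by linarith
      rw [div_le_iff₀ hδ] at e5; linarith
    have e6 : (2 * (n.choose s : ℝ)) * ((s : ℝ) + 1)
        ≤ (δ * (n.choose (s + 1) : ℝ)) * ((s : ℝ) + 1) := by
      have : (δ * (n.choose (s + 1) : ℝ)) * ((s : ℝ) + 1)
          = (n.choose s : ℝ) * (δ * ((n : ℝ) - s)) := by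
        rw [mul_assoc, e]; ring
      rw [this]
      nlinarith [mul_le_mul_of_nonneg_left e4 (Nat.cast_nonneg (α := ℝ) (n.choose s))]
    exact le_of_mul_le_mul_right e6 hs
  rw [card_ball_eq, card_ball_eq, h1]
  have h4 : n.choose (s + 1) ≤ ∑ i ∈ range (s + 1 + 1), n.choose i :=
    Finset.single_le_sum (f := fun i => n.choose i) (fun _ _ => Nat.zero_le _) (by simp)
  have h4' : (n.choose (s + 1) : ℝ) ≤ ((∑ i ∈ range (s + 1 + 1), n.choose i : ℕ) : ℝ) := by
    exact_mod_cast h4
  have h2' : ((∑ i ∈ range (s + 1), n.choose i : ℕ) : ℝ) ≤ 2 * (n.choose s : ℝ) := by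
    exact_mod_cast h2
  rw [Nat.cast_add]
  nlinarith [mul_le_mul_of_nonneg_left h4' hδ.le]

theorem two_f_le (r : ℕ) (hr : 1 ≤ r) : 2 * f r ≤ f_all r := by
  by_contra hcon
  push Not at hcon
  obtain ⟨L, hL1, hL2⟩ := exists_between hcon
  have hLtop : L ≠ ⊤ := hL2.ne_top
  have hL0 : L ≠ 0 := (bot_le.trans_lt hL1).ne'
  have hL3 : L / 2 < f r := by
    rw [ENNReal.div_lt_iff (Or.inl (by norm_num)) (Or.inl (by norm_num)), mul_comm]
    exact hL2
  obtain ⟨L', hL4, hL5⟩ := exists_between hL3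
  have hL't : L' ≠ ⊤ := hL5.ne_top
  have ev1 : ∀ᶠ n in atTop, minDensity n r < L := by
    unfold f_all at hL1
    exact Filter.eventually_lt_of_limsup_lt hL1
  have ev2 : ∀ᶠ n in atTop, L' < minDensity n r := by
    unfold f at hL5
    exact Filter.eventually_lt_of_lt_liminf hL5
  set l := L.toReal with hl
  set l' := L'.toReal with hl'
  have hl0 : 0 < l := ENNReal.toReal_pos hL0 hLtop
  have hll : l / 2 < l' := by
    have h1 : (L / 2).toReal < L'.toReal := (ENNReal.toReal_lt_toReal
      (ENNReal.div_ne_top hLtop (by norm_num)) hL't).mpr hL4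
    rw [ENNReal.toReal_div] at h1
    simpa using h1
  choose c hc using fun n => attained n r
  have hreal : ∀ n, (minDensity n r).toReal = (Nat.card (hammingBall n r) : ℝ) / 2 ^ c n := by
    intro n
    rw [hc n, ENNReal.toReal_div, ENNReal.toReal_natCast, ENNReal.toReal_pow]
    norm_num
  have hnt : ∀ n, minDensity n r ≠ ⊤ := by
    intro n
    rw [hc n]
    exact ENNReal.div_ne_top (ENNReal.natCast_ne_top _) (by positivity)
  have ev1' : ∀ᶠ n in atTop, (Nat.card (hammingBall n r) : ℝ) / 2 ^ c n < l := by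
    filter_upwards [ev1] with n h
    rw [← hreal]
    exact (ENNReal.toReal_lt_toReal (hnt n) hLtop).mpr h
  have ev2' : ∀ᶠ n in atTop, l' < (Nat.card (hammingBall n r) : ℝ) / 2 ^ c n := by
    filter_upwards [ev2] with n h
    rw [← hreal]
    exact (ENNReal.toReal_lt_toReal hL't (hnt n)).mpr h
  set δ : ℝ := 2 * l' / l - 1 with hδ
  have hδ0 : 0 < δ := by
    rw [hδ, sub_pos, lt_div_iff₀ hl0]; linarith
  have hδl : (1 + δ) * l = 2 * l' := by
    rw [hδ]; field_simp; ring
  obtain ⟨N, hN⟩ := Filter.eventually_atTop.mp (ev1'.and (ev2'.and (ball_succ r hr δ hδ0)))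
  have hstep : ∀ n, N ≤ n → c (n + 1) ≤ c n := by
    intro n hn
    by_contra hcc
    push Not at hcc
    have h1 := (hN n hn).1
    have h2 := (hN (n + 1) (by omega)).2.1
    have h3 := (hN n hn).2.2
    have hp : (0 : ℝ) < 2 ^ c n := by positivity
    have h4 : (2 : ℝ) * 2 ^ c n ≤ 2 ^ c (n + 1) := by
      calc (2 : ℝ) * 2 ^ c n = 2 ^ (c n + 1) := by rw [pow_succ]; ring
        _ ≤ 2 ^ c (n + 1) := pow_le_pow_right₀ (by norm_num) hcc
    rw [div_lt_iff₀ hp] at h1
    have hl'0 : 0 < l' := by linarith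
    rw [lt_div_iff₀ (by positivity)] at h2
    have h5 : l' * (2 * 2 ^ c n) ≤ l' * 2 ^ c (n + 1) := mul_le_mul_of_nonneg_left h4 hl'0.le
    have h6 : (1 + δ) * (Nat.card (hammingBall n r) : ℝ) < (1 + δ) * (l * 2 ^ c n) :=
      mul_lt_mul_of_pos_left h1 (by linarith)
    have h7 : (1 + δ) * (l * 2 ^ c n) = 2 * l' * 2 ^ c n := by rw [← mul_assoc, hδl]
    linarith
  have hbd : ∀ k, c (N + k) ≤ c N := by
    intro k
    induction k with
    | zero => simp
    | succ k ih => exact (hstep (N + k) (by omega)).trans ih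
  obtain ⟨K, hK⟩ := exists_nat_gt (l * 2 ^ c N)
  have h1 := (hN (N + K) (by omega)).1
  have hp : (0 : ℝ) < 2 ^ c (N + K) := by positivity
  rw [div_lt_iff₀ hp] at h1
  have h2 : (2 : ℝ) ^ c (N + K) ≤ 2 ^ c N := pow_le_pow_right₀ (by norm_num) (hbd K)
  have h3 : N + K ≤ Nat.card (hammingBall (N + K) r) := by
    rw [card_ball_eq]
    have : (N + K).choose 1 ≤ ∑ i ∈ range (r + 1), (N + K).choose i :=
      Finset.single_le_sum (f := fun i => (N + K).choose i) (fun _ _ => Nat.zero_le _)
        (by simp; omega)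
    simpa using this
  have h4 : ((N + K : ℕ) : ℝ) ≤ (Nat.card (hammingBall (N + K) r) : ℝ) := by exact_mod_cast h3
  have h5 : l * 2 ^ c (N + K) ≤ l * 2 ^ c N := mul_le_mul_of_nonneg_left h2 hl0.le
  push_cast at h4
  have : (0 : ℝ) ≤ N := Nat.cast_nonneg _
  linarith

theorem two_le_f_all (r : ℕ) (hr : 1 ≤ r) : 2 ≤ f_all r := by
  have h1 : 1 ≤ f r := by
    unfold f
    refine Filter.le_liminf_of_le (by isBoundedDefault) ?_
    exact Filter.Eventually.of_forall fun n => one_le_minDensity n r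
  calc (2 : ENNReal) = 2 * 1 := by norm_num
    _ ≤ 2 * f r := mul_le_mul_right h1 2
    _ ≤ f_all r := two_f_le r hr

theorem f_all_one : f_all 1 = 2 := by
  refine le_antisymm ?_ (two_le_f_all 1 le_rfl)
  unfold f_all
  refine Filter.limsup_le_of_le (by isBoundedDefault) ?_
  filter_upwards [eventually_ge_atTop 1] with n hn
  set c := Nat.log 2 n with hc
  have h1 : 2 ^ c ≤ n := Nat.pow_log_le_self 2 (by omega)
  have h2 : n < 2 ^ (c + 1) := Nat.lt_pow_succ_log_self (by norm_num) _
  have hcard : Fintype.card (Fin c → ZMod 2) = 2 ^ c := by simp [ZMod.card]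
  have h3 := density_le (ι := (Fin c → ZMod 2)) 1 n (by rw [hcard]; exact h1)
    (Fin c → ZMod 2) id (fun s => ⟨{s}, by simp, by simp⟩)
  refine h3.trans ?_
  rw [card_ball_eq, Nat.card_eq_fintype_card, hcard]
  rw [Finset.sum_range_succ, Finset.sum_range_one, Nat.choose_zero_right, Nat.choose_one_right]
  refine ENNReal.div_le_of_le_mul ?_
  have : 1 + n ≤ 2 * 2 ^ c := by rw [pow_succ] at h2; omega
  exact_mod_cast this

end Pool.Agent.H613T.LC
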