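import Pool.Agent.H613T.LinCov8

/-!
Linear covering codes: `f r` is an infimum over single codes.
-/

set_option autoImplicit false
set_option linter.unusedSectionVars false

namespace Pool.Agent.H613T.LC

open Finset Filter N8b55e67f
open scoped Pointwise

theorem Cov.equiv {ι κ W : Type} [AddCommGroup W] (e : ι ≃ κ) {a : κ → W} {r : ℕ}
    (h : Cov (fun i => a (e i)) r) : Cov a r := by
  intro s
  obtain ⟨I, hI, hs⟩ := h s
  refine ⟨I.map e.toEmbedding, by simpa using hI, ?_⟩
  rw [Finset.sum_map]
  exact hs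

/-- a covering code of radius `r`, padded by `r` zero columns, gives columns such that everything is
the sum of exactly `r` of them -/
theorem exists_columns (n r : ℕ) (V : Submodule (ZMod 2) (Fin n → ZMod 2))
    (hV : IsCoveringSubspace n r V) :
    ∃ (W : Type) (_ : AddCommGroup W) (_ : Module (ZMod 2) W) (_ : Finite W)
      (a : Fin (n + r) → W), Cov a r ∧ Nat.card V * Nat.card W = 2 ^ n := by
  classical
  refine ⟨(Fin n → ZMod 2) ⧸ V, inferInstance, inferInstance, inferInstance,
    fun k => Sum.elim (fun i : Fin n => V.mkQ (Pi.single i 1)) (fun _ : Fin r => 0)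
      (finSumFinEquiv.symm k), ?_, ?_⟩
  · refine Cov.equiv (finSumFinEquiv : Fin n ⊕ Fin r ≃ Fin (n + r)) ?_
    intro s
    obtain ⟨y, rfl⟩ := Submodule.mkQ_surjective V s
    have hy : y ∈ (V : Set (Fin n → ZMod 2)) + (hammingBall n r : Set (Fin n → ZMod 2)) := by
      have hV' : (V : Set (Fin n → ZMod 2)) + (hammingBall n r : Set (Fin n → ZMod 2))
          = Set.univ := hV
      rw [hV']; trivial
    obtain ⟨v, hv, b, hb, hvb⟩ := Set.mem_add.mp hy
    set I : Finset (Fin n) := univ.filter fun k => b k ≠ 0 with hI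
    have hIr : I.card ≤ r := hb
    obtain ⟨K, hK1, hK2⟩ := Finset.exists_subset_card_eq (s := (univ : Finset (Fin r)))
      (n := r - I.card) (by simp)
    refine ⟨I.disjSum K, ?_, ?_⟩
    · rw [Finset.card_disjSum, hK2]; omega
    · rw [Finset.sum_disjSum]
      simp only [Equiv.symm_apply_apply, Sum.elim_inl, Sum.elim_inr, Finset.sum_const_zero,
        add_zero]
      rw [← map_sum]
      have hbsum : ∑ i ∈ I, (Pi.single i (1 : ZMod 2) : Fin n → ZMod 2) = b := by
        funext k
        rw [Finset.sum_apply]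
        have hz : ∀ z : ZMod 2, z = 0 ∨ z = 1 := by decide
        rcases hz (b k) with h | h
        · rw [h]
          refine Finset.sum_eq_zero fun i hi => ?_
          have hi' : b i ≠ 0 := by simpa [hI] using hi
          have : k ≠ i := by rintro rfl; exact hi' h
          simp [Pi.single_eq_of_ne this]
        · rw [h, Finset.sum_eq_single_of_mem k]
          · simp
          · simp [hI, h]
          · intro i _ hik
            simp [Pi.single_eq_of_ne hik.symm]
      rw [hbsum, ← hvb, map_add]
      have : V.mkQ v = 0 := by simpa using hv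
      rw [this, zero_add]
  · have h1 := Submodule.card_eq_card_quotient_mul_card V
    have h3 : Nat.card (Fin n → ZMod 2) = 2 ^ n := by
      simp [Nat.card_eq_fintype_card, ZMod.card]
    rw [h3] at h1
    rw [h1]

/-- one code bounds `f r` -/
theorem f_le_code (n r : ℕ) (hr : 1 ≤ r) (V : Submodule (ZMod 2) (Fin n → ZMod 2))
    (hV : IsCoveringSubspace n r V) :
    f r ≤ ENNReal.ofReal (((n : ℝ) + r) ^ r * Nat.card V / (r.factorial * 2 ^ n)) := by
  obtain ⟨W, _, _, _, a, ha, hW⟩ := exists_columns n r V hV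
  have hf : (0 : ℝ) < r.factorial := by exact_mod_cast Nat.factorial_pos r
  have hW0 : (0 : ℝ) < Nat.card W := by exact_mod_cast Nat.card_pos
  have hV0 : (0 : ℝ) < Nat.card V := by exact_mod_cast Nat.card_pos
  set x : ℝ := ((n : ℝ) + r) ^ r * Nat.card V / (r.factorial * 2 ^ n) with hx
  have hx' : x = ((n : ℝ) + r) ^ r / (r.factorial * Nat.card W) := by
    have : ((2 : ℝ)) ^ n = Nat.card V * Nat.card W := by exact_mod_cast hW.symm
    rw [hx, this]; field_simp
  have hx0 : 0 ≤ x := by rw [hx]; positivity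
  -- it suffices up to `1 + ε`
  have key : ∀ ε : ℝ, 0 < ε → f r ≤ ENNReal.ofReal ((1 + ε) * x) := by
    intro ε hε
    unfold f
    refine Filter.liminf_le_of_frequently_le ?_ (by isBoundedDefault)
    rw [Filter.frequently_atTop]
    intro N
    set J := N + 3 * r + ⌈(r : ℝ) + 2 * r / ε⌉₊ + (n + r) + 1 with hJ
    have h2J : J < 2 ^ J := Nat.lt_two_pow_self
    have hm0 : 1 ≤ n + r := by omega
    have hnJ : 2 ^ J ≤ (n + r) * 2 ^ J := Nat.le_mul_of_pos_left _ hm0
    refine ⟨(n + r) * 2 ^ J, by omega, ?_⟩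
    obtain ⟨V', _, _, _, b, hb, hV'⟩ := lift (n + r) r J (by omega) (by omega) W a ha
    have hden := density_le r ((n + r) * 2 ^ J) (by simp) V' b hb
    refine hden.trans ?_
    have hV'0 : (0 : ℝ) < Nat.card V' := by exact_mod_cast Nat.card_pos
    have e2 : (Nat.card (hammingBall ((n + r) * 2 ^ J) r) : ENNReal) / (Nat.card V' : ENNReal)
        = ENNReal.ofReal ((Nat.card (hammingBall ((n + r) * 2 ^ J) r) : ℝ) / Nat.card V') := by
      rw [ENNReal.ofReal_div_of_pos hV'0, ENNReal.ofReal_natCast, ENNReal.ofReal_natCast]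
    rw [e2]
    refine ENNReal.ofReal_le_ofReal ?_
    rw [div_le_iff₀ hV'0]
    have hb1 := ball_le_eps ((n + r) * 2 ^ J) r hr ε hε (by omega)
      ((Nat.le_ceil _).trans (by exact_mod_cast (by omega :
        ⌈(r : ℝ) + 2 * r / ε⌉₊ ≤ (n + r) * 2 ^ J)))
    have h6 : (Nat.card V' : ℝ) = Nat.card W * ((2 : ℝ) ^ J) ^ r := by
      rw [hV', pow_mul]; push_cast; rfl
    have h7 : (Nat.card (hammingBall ((n + r) * 2 ^ J) r) : ℝ) * (r.factorial : ℝ)
        ≤ ((1 + ε) * x * Nat.card V') * (r.factorial : ℝ) := by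
      refine hb1.trans (le_of_eq ?_)
      rw [h6, hx']
      push_cast
      rw [mul_pow]
      field_simp
    exact le_of_mul_le_mul_right h7 hf
  refine ENNReal.le_of_forall_pos_le_add fun η hη _ => ?_
  rcases hx0.eq_or_lt with h0 | h0
  · have := key 1 one_pos
    rw [← h0] at this
    simp at this
    rw [this]; exact bot_le
  · have h1 := key ((η : ℝ) / x) (div_pos (by exact_mod_cast hη) h0)
    refine h1.trans (le_of_eq ?_)
    have : (1 + (η : ℝ) / x) * x = x + η := by field_simp
    rw [this, ENNReal.ofReal_add h0.le (by positivity)]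
    simp

end Pool.Agent.H613T.LC
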