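import Mathlib

/-!
A coefficient inequality: sub-multisets weighted by the number of coincidences.
-/

set_option autoImplicit false
set_option linter.unusedSectionVars false

namespace Pool.Agent.H613T

open Finset Polynomial

/-- weights of the multiplicities -/
noncomputable def om (y : ℝ) : ℕ → ℝ
  | 0 => 1
  | q + 1 => y ^ q

theorem om_nonneg {y : ℝ} (hy : 0 ≤ y) (q : ℕ) : 0 ≤ om y q := by
  cases q with
  | zero => exact zero_le_one
  | succ q => exact pow_nonneg hy q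

/-- the polynomial of one type -/
noncomputable def Fp (y : ℝ) (m : ℕ) : ℝ[X] := ∑ q ∈ range (m + 1), C (om y q) * X ^ q

theorem Fp_zero (y : ℝ) : Fp y 0 = 1 := by simp [Fp, om]

theorem Fp_succ (y : ℝ) (t : ℕ) : Fp y (t + 1) = Fp y t + C (y ^ t) * X ^ (t + 1) := by
  unfold Fp
  rw [sum_range_succ]
  rfl

theorem Fp_one (y : ℝ) : Fp y 1 = 1 + X := by
  rw [Fp_succ, Fp_zero]; simp

theorem Fp_le_one (y : ℝ) {m : ℕ} (hm : m ≤ 1) : Fp y m = (1 + X) ^ m := by
  interval_cases m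
  · rw [Fp_zero, pow_zero]
  · rw [Fp_one, pow_one]

/-- nonnegative coefficients -/
def NN (p : ℝ[X]) : Prop := ∀ n, 0 ≤ p.coeff n

theorem NN.mul {p q : ℝ[X]} (hp : NN p) (hq : NN q) : NN (p * q) := by
  intro n
  rw [coeff_mul]
  exact sum_nonneg fun x _ => mul_nonneg (hp _) (hq _)

theorem NN.one : NN 1 := by
  intro n
  rw [coeff_one]
  split_ifs <;> norm_num

theorem NN.prod {ι : Type} (s : Finset ι) (f : ι → ℝ[X]) (hf : ∀ i ∈ s, NN (f i)) :
    NN (∏ i ∈ s, f i) := by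
  classical
  induction s using Finset.induction_on with
  | empty => rw [prod_empty]; exact NN.one
  | insert a s ha ih =>
    rw [prod_insert ha]
    exact (hf a (mem_insert_self _ _)).mul (ih fun i hi => hf i (mem_insert_of_mem hi))

theorem NN.binom (D : ℕ) : NN ((1 + X) ^ D) := by
  intro n
  rw [coeff_one_add_X_pow]
  positivity

theorem NN.Fp {y : ℝ} (hy : 0 ≤ y) (m : ℕ) : NN (Fp y m) := by
  intro n
  unfold Pool.Agent.H613T.Fp
  rw [finsetSum_coeff]
  refine sum_nonneg fun q _ => ?_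
  rw [coeff_C_mul_X_pow]
  split_ifs
  · exact om_nonneg hy _
  · exact le_rfl

theorem Fp_natDegree (y : ℝ) (m : ℕ) : (Fp y m).natDegree ≤ m := by
  unfold Fp
  refine natDegree_sum_le_of_forall_le _ _ fun q hq => ?_
  refine (natDegree_C_mul_X_pow_le _ _).trans ?_
  rw [mem_range] at hq
  omega

/-- the ratio of consecutive coefficients -/
theorem ratio {D v s : ℕ} {K : ℝ[X]} (hK : NN K) (hv : K.natDegree ≤ v) (hs : v ≤ s) :
    ((s + 1 - v : ℕ) : ℝ) * (K * (1 + X) ^ D).coeff (s + 1) ≤ D * (K * (1 + X) ^ D).coeff s := by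
  have hzero : ∀ b, v < b → K.coeff b = 0 := fun b hb =>
    coeff_eq_zero_of_natDegree_lt (lt_of_le_of_lt hv hb)
  rw [coeff_mul, coeff_mul, Finset.Nat.sum_antidiagonal_eq_sum_range_succ_mk,
    Finset.Nat.sum_antidiagonal_eq_sum_range_succ_mk, Nat.succ_eq_add_one, Nat.succ_eq_add_one,
    sum_range_succ _ (s + 1), mul_add]
  rw [hzero (s + 1) (by omega), zero_mul, mul_zero, add_zero, mul_sum, mul_sum]
  refine sum_le_sum fun b hb => ?_
  rw [mem_range] at hb
  simp only
  rw [coeff_one_add_X_pow, coeff_one_add_X_pow]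
  by_cases hbv : v < b
  · rw [hzero b hbv]; simp
  · push Not at hbv
    have h1 : s + 1 - b = (s - b) + 1 := by omega
    rw [h1]
    have h2 : ((D.choose (s - b + 1) : ℕ) : ℝ) * ((s - b : ℕ) + 1 : ℝ) ≤
        (D.choose (s - b) : ℝ) * D := by
      have h3 := Nat.choose_succ_right_eq D (s - b)
      have h4 : D.choose (s - b + 1) * (s - b + 1) ≤ D.choose (s - b) * D := by
        rw [h3]; exact Nat.mul_le_mul_left _ (Nat.sub_le _ _)
      exact_mod_cast h4
    have h5 : ((s + 1 - v : ℕ) : ℝ) ≤ ((s - b : ℕ) : ℝ) + 1 := by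
      exact_mod_cast (show s + 1 - v ≤ s - b + 1 by omega)
    have hKb := hK b
    have hC : (0 : ℝ) ≤ ((D.choose (s - b + 1) : ℕ) : ℝ) := by positivity
    calc ((s + 1 - v : ℕ) : ℝ) * (K.coeff b * ((D.choose (s - b + 1) : ℕ) : ℝ))
        = K.coeff b * (((D.choose (s - b + 1) : ℕ) : ℝ) * ((s + 1 - v : ℕ) : ℝ)) := by ring
      _ ≤ K.coeff b * (((D.choose (s - b + 1) : ℕ) : ℝ) * (((s - b : ℕ) : ℝ) + 1)) := by
          gcongr
      _ ≤ K.coeff b * ((D.choose (s - b) : ℝ) * D) := mul_le_mul_of_nonneg_left h2 hKb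
      _ = _ := by ring

/-- replacing a type of multiplicity `t + 1` by one of multiplicity `t` and a new type -/
theorem step {G : ℝ[X]} (hG : NN G) {R : ℝ} (hR : 1 ≤ R) {r t : ℕ} (htr : t + 1 ≤ r)
    (hrat : ∀ s, r - 1 - t ≤ s → s + 1 ≤ r - 1 → G.coeff (s + 1) ≤ R * G.coeff s) :
    (G * ((1 + X) * Fp (4 * R) t)).coeff r ≤ (G * Fp (4 * R) (t + 1)).coeff r := by
  obtain ⟨a, ha⟩ : ∃ a, a = r - 1 - t := ⟨_, rfl⟩
  have hr : r = a + t + 1 := by omega
  subst hr
  have hpow : ∀ i ≤ t, G.coeff (a + i) ≤ R ^ i * G.coeff a := by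
    intro i
    induction i with
    | zero => intro _; simp
    | succ i ih =>
      intro hi
      have h1 := hrat (a + i) (by omega) (by omega)
      have h2 := ih (by omega)
      calc G.coeff (a + (i + 1)) = G.coeff (a + i + 1) := by rw [add_assoc]
        _ ≤ R * G.coeff (a + i) := h1
        _ ≤ R * (R ^ i * G.coeff a) := mul_le_mul_of_nonneg_left h2 (by linarith)
        _ = R ^ (i + 1) * G.coeff a := by ring
  have hexp : (G * Fp (4 * R) t).coeff (a + t) ≤ (4 * R) ^ t * G.coeff a := by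
    have e1 : (G * Fp (4 * R) t).coeff (a + t) =
        ∑ q ∈ range (t + 1), om (4 * R) q * G.coeff (a + t - q) := by
      unfold Fp
      rw [mul_sum, finsetSum_coeff]
      refine sum_congr rfl fun q hq => ?_
      rw [mem_range] at hq
      rw [show G * (C (om (4 * R) q) * X ^ q) = C (om (4 * R) q) * (G * X ^ q) by ring,
        coeff_C_mul, coeff_mul_X_pow', if_pos (by omega)]
    rw [e1, sum_range_succ']
    have e2 : ∀ l ∈ range t, om (4 * R) (l + 1) * G.coeff (a + t - (l + 1)) ≤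
        (4 ^ l * R ^ (t - 1)) * G.coeff a := by
      intro l hl
      rw [mem_range] at hl
      have e3 : a + t - (l + 1) = a + (t - 1 - l) := by omega
      rw [e3]
      have e4 := hpow (t - 1 - l) (by omega)
      have e5 : R ^ (t - 1) = R ^ l * R ^ (t - 1 - l) := by
        rw [← pow_add]; congr 1; omega
      calc om (4 * R) (l + 1) * G.coeff (a + (t - 1 - l))
          = (4 * R) ^ l * G.coeff (a + (t - 1 - l)) := rfl
        _ ≤ (4 * R) ^ l * (R ^ (t - 1 - l) * G.coeff a) :=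
            mul_le_mul_of_nonneg_left e4 (by positivity)
        _ = (4 ^ l * R ^ (t - 1)) * G.coeff a := by rw [e5, mul_pow]; ring
    have e6 : om (4 * R) 0 * G.coeff (a + t - 0) ≤ R ^ t * G.coeff a := by
      have := hpow t le_rfl
      simpa [om] using this
    refine (add_le_add (sum_le_sum e2) e6).trans ?_
    rw [← sum_mul, ← sum_mul, ← add_mul]
    apply mul_le_mul_of_nonneg_right _ (hG a)
    have e7 : ∑ l ∈ range t, (4 : ℝ) ^ l = (4 ^ t - 1) / 3 := by
      rw [geom_sum_eq (by norm_num)]; norm_num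
    rw [e7]
    have e8 : R ^ (t - 1) ≤ R ^ t := pow_le_pow_right₀ hR (Nat.sub_le _ _)
    have e9 : (1 : ℝ) ≤ 4 ^ t := one_le_pow₀ (by norm_num)
    have e10 : (0 : ℝ) ≤ R ^ t := by positivity
    rw [mul_pow]
    have e11 : ((4 : ℝ) ^ t - 1) / 3 * R ^ (t - 1) ≤ (4 ^ t - 1) / 3 * R ^ t :=
      mul_le_mul_of_nonneg_left e8 (by linarith)
    nlinarith [mul_nonneg e10 (sub_nonneg.2 e9)]
  have h1 : (G * Fp (4 * R) (t + 1)).coeff (a + t + 1) =
      (G * Fp (4 * R) t).coeff (a + t + 1) + (4 * R) ^ t * G.coeff a := by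
    rw [Fp_succ, mul_add, coeff_add]
    congr 1
    rw [show G * (C ((4 * R) ^ t) * X ^ (t + 1)) = C ((4 * R) ^ t) * (G * X ^ (t + 1)) by ring,
      coeff_C_mul, coeff_mul_X_pow', if_pos (by omega)]
    congr 2
    omega
  have h2 : (G * ((1 + X) * Fp (4 * R) t)).coeff (a + t + 1) =
      (G * Fp (4 * R) t).coeff (a + t + 1) + (G * Fp (4 * R) t).coeff (a + t) := by
    rw [show G * ((1 + X) * Fp (4 * R) t) = G * Fp (4 * R) t + X * (G * Fp (4 * R) t) by ring,
      coeff_add, coeff_X_mul]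
  rw [h1, h2]
  linarith

/-- the coefficient inequality -/
theorem main_coeff {ι : Type} [Fintype ι] [DecidableEq ι] {r k h : ℕ} {R : ℝ} (hR : 1 ≤ R)
    (hkR : (k : ℝ) ≤ R * ((r + 1 - 2 * h : ℕ) : ℝ)) (h2 : 2 * h ≤ r) :
    ∀ (E D : ℕ) (m : ι → ℕ), ∑ i, (m i - 1) = E → E ≤ h → D + ∑ i, m i = k →
      (k.choose r : ℝ) ≤ ((∏ i, Fp (4 * R) (m i)) * (1 + X) ^ D).coeff r := by
  intro E
  induction E with
  | zero =>
    intro D m hm _ hk
    have h1 : ∀ i, m i ≤ 1 := by
      intro i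
      have := (sum_eq_zero_iff.1 hm) i (mem_univ _)
      omega
    rw [prod_congr rfl fun i _ => Fp_le_one (4 * R) (h1 i), prod_pow_eq_pow_sum, ← pow_add,
      coeff_one_add_X_pow, add_comm, hk]
  | succ E ih =>
    intro D m hm hE hk
    obtain ⟨a, ha⟩ : ∃ a, 2 ≤ m a := by
      by_contra hcon
      push Not at hcon
      have : ∑ i, (m i - 1) = 0 := sum_eq_zero fun i _ => by have := hcon i; omega
      omega
    obtain ⟨t, ht⟩ : ∃ t, m a = t + 1 := ⟨m a - 1, by omega⟩
    have ht1 : 1 ≤ t := by omega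
    have hsplit1 : ∑ i ∈ univ.erase a, (m i - 1) + (m a - 1) = E + 1 := by
      rw [← hm, sum_erase_add _ _ (mem_univ a)]
    have hsplit2 : ∑ i ∈ univ.erase a, m i + m a = ∑ i, m i := sum_erase_add _ _ (mem_univ a)
    set m' := Function.update m a t with hm'
    have hm'a : m' a = t := by rw [hm', Function.update_self]
    have hm'i : ∀ i ∈ univ.erase a, m' i = m i := by
      intro i hi
      rw [hm', Function.update_of_ne (ne_of_mem_erase hi)]
    have hs1 : ∑ i ∈ univ.erase a, (m' i - 1) = ∑ i ∈ univ.erase a, (m i - 1) :=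
      sum_congr rfl fun i hi => by rw [hm'i i hi]
    have hs2 : ∑ i ∈ univ.erase a, m' i = ∑ i ∈ univ.erase a, m i :=
      sum_congr rfl fun i hi => by rw [hm'i i hi]
    have hIH := ih (D + 1) m' (by
      rw [← sum_erase_add _ _ (mem_univ a), hm'a, hs1]
      omega) (by omega) (by
      rw [← sum_erase_add _ _ (mem_univ a), hm'a, hs2]
      omega)
    refine hIH.trans ?_
    set G : ℝ[X] := (∏ i ∈ univ.erase a, Fp (4 * R) (m i)) * (1 + X) ^ D with hG
    have hR0 : (0 : ℝ) ≤ 4 * R := by linarith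
    have hNG : NN G := (NN.prod _ _ fun i _ => NN.Fp hR0 _).mul (NN.binom D)
    have e1 : (∏ i, Fp (4 * R) (m' i)) * (1 + X) ^ (D + 1) = G * ((1 + X) * Fp (4 * R) t) := by
      rw [← prod_erase_mul _ _ (mem_univ a), hm'a, prod_congr rfl fun i hi => by rw [hm'i i hi],
        hG, pow_succ]
      ring
    have e2 : (∏ i, Fp (4 * R) (m i)) * (1 + X) ^ D = G * Fp (4 * R) (t + 1) := by
      rw [← prod_erase_mul _ _ (mem_univ a), ht, hG]
      ring
    rw [e1, e2]
    -- the multiple types apart from `a`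
    set S2 := (univ.erase a).filter (fun i => 2 ≤ m i) with hS2
    set S1 := (univ.erase a).filter (fun i => ¬ 2 ≤ m i) with hS1
    have hv1 : ∑ i ∈ S2, m i ≤ 2 * ∑ i ∈ univ.erase a, (m i - 1) := by
      rw [mul_sum]
      refine le_trans (sum_le_sum (g := fun i => 2 * (m i - 1)) fun i hi => ?_)
        (sum_le_sum_of_subset (filter_subset _ _))
      have := (mem_filter.1 hi).2
      omega
    have hGK : G = (∏ i ∈ S2, Fp (4 * R) (m i)) * (1 + X) ^ (∑ i ∈ S1, m i + D) := by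
      rw [hG, ← prod_filter_mul_prod_filter_not (univ.erase a) (fun i => 2 ≤ m i), ← hS2, ← hS1,
        prod_congr (s₁ := S1) rfl fun i hi => Fp_le_one (4 * R) (by
          have := (mem_filter.1 hi).2; omega), prod_pow_eq_pow_sum, pow_add]
      ring
    have hdeg : (∏ i ∈ S2, Fp (4 * R) (m i)).natDegree ≤ ∑ i ∈ S2, m i :=
      (natDegree_prod_le _ _).trans (sum_le_sum fun i _ => Fp_natDegree _ _)
    have hNK : NN (∏ i ∈ S2, Fp (4 * R) (m i)) := NN.prod _ _ fun i _ => NN.Fp hR0 _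
    have hD1 : ∑ i ∈ S1, m i + D ≤ k := by
      have : ∑ i ∈ S1, m i ≤ ∑ i ∈ univ.erase a, m i := sum_le_sum_of_subset (filter_subset _ _)
      omega
    apply step hNG hR (by omega)
    intro s hs1 hs2
    have hr := ratio (D := ∑ i ∈ S1, m i + D) (s := s) hNK hdeg (by omega)
    rw [← hGK] at hr
    have hGs := hNG s
    have hGs1 := hNG (s + 1)
    have h3 : ((r + 1 - 2 * h : ℕ) : ℝ) ≤ ((s + 1 - ∑ i ∈ S2, m i : ℕ) : ℝ) := by
      exact_mod_cast (show r + 1 - 2 * h ≤ s + 1 - ∑ i ∈ S2, m i by omega)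
    have h4 : ((∑ i ∈ S1, m i + D : ℕ) : ℝ) ≤ k := by exact_mod_cast hD1
    have h5 : (0 : ℝ) < ((r + 1 - 2 * h : ℕ) : ℝ) := by
      exact_mod_cast (show 0 < r + 1 - 2 * h by omega)
    have h6 : ((r + 1 - 2 * h : ℕ) : ℝ) * G.coeff (s + 1) ≤
        ((r + 1 - 2 * h : ℕ) : ℝ) * (R * G.coeff s) := by
      calc ((r + 1 - 2 * h : ℕ) : ℝ) * G.coeff (s + 1)
          ≤ ((s + 1 - ∑ i ∈ S2, m i : ℕ) : ℝ) * G.coeff (s + 1) :=
            mul_le_mul_of_nonneg_right h3 hGs1
        _ ≤ ((∑ i ∈ S1, m i + D : ℕ) : ℝ) * G.coeff s := hr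
        _ ≤ k * G.coeff s := mul_le_mul_of_nonneg_right h4 hGs
        _ ≤ (R * ((r + 1 - 2 * h : ℕ) : ℝ)) * G.coeff s := mul_le_mul_of_nonneg_right hkR hGs
        _ = _ := by ring
    exact le_of_mul_le_mul_left h6 h5

end Pool.Agent.H613T
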