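import Pool.Agent.H613T.Mid1
import Pool.Agent.H613T.Large1

/-!
Patterns, profiles, and the average weight of a random profile.
-/

set_option autoImplicit false
set_option linter.unusedSectionVars false

namespace Pool.Agent.H613T

open Finset Polynomial Pool.Agent.H123R2

/-- all patterns of size `r` -/
def pat (N r : ℕ) : Finset (Fin N → ℕ) :=
  (Fintype.piFinset fun _ => range (r + 1)).filter (fun l => ∑ i, l i = r)

/-- the weight of a pattern -/
noncomputable def pw (y : ℝ) {N : ℕ} (l : Fin N → ℕ) : ℝ := ∏ i, om y (l i)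

theorem mem_pat {N r : ℕ} (l : Fin N → ℕ) : l ∈ pat N r ↔ ∑ i, l i = r := by
  unfold pat
  rw [mem_filter, Fintype.mem_piFinset]
  constructor
  · exact fun h => h.2
  · intro h
    refine ⟨fun i => ?_, h⟩
    rw [mem_range]
    have := single_le_sum (f := l) (fun i _ => Nat.zero_le _) (mem_univ i)
    omega

theorem pw_nonneg {y : ℝ} (hy : 0 ≤ y) {N : ℕ} (l : Fin N → ℕ) : 0 ≤ pw y l :=
  prod_nonneg fun i _ => om_nonneg hy _

theorem om_eq (y : ℝ) (q : ℕ) : om y q = y ^ (q - 1) := by
  cases q with
  | zero => simp [om]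
  | succ q => simp [om]

theorem pw_eq (y : ℝ) {N : ℕ} (l : Fin N → ℕ) : pw y l = y ^ (∑ i, (l i - 1)) := by
  unfold pw
  rw [prod_congr rfl fun i _ => om_eq y (l i), prod_pow_eq_pow_sum]

theorem coeff_le_pat {N r : ℕ} {y : ℝ} (hy : 0 ≤ y) (m : Fin N → ℕ) :
    (∏ i, Fp y (m i)).coeff r ≤ ∑ l ∈ (pat N r).filter (fun l => ∀ i, l i ≤ m i), pw y l := by
  classical
  have h1 : (∏ i, Fp y (m i)) =
      ∑ l ∈ Fintype.piFinset (fun i => range (m i + 1)), C (pw y l) * X ^ (∑ i, l i) := by
    unfold Fp
    rw [prod_univ_sum]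
    refine sum_congr rfl fun l _ => ?_
    rw [prod_mul_distrib, prod_pow_eq_pow_sum]
    congr 1
    unfold pw
    rw [map_prod]
  rw [h1, finsetSum_coeff]
  have h2 : ∀ l ∈ Fintype.piFinset (fun i => range (m i + 1)),
      (C (pw y l) * X ^ (∑ i, l i)).coeff r = if ∑ i, l i = r then pw y l else 0 := by
    intro l _
    rw [coeff_C_mul_X_pow]
    by_cases h : r = ∑ i, l i
    · rw [if_pos h, if_pos h.symm]
    · rw [if_neg h, if_neg fun h' => h h'.symm]
  rw [sum_congr rfl h2, ← sum_filter]
  apply sum_le_sum_of_subset_of_nonneg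
  · intro l hl
    rw [mem_filter, Fintype.mem_piFinset] at hl
    rw [mem_filter, mem_pat]
    refine ⟨hl.2, fun i => ?_⟩
    have := hl.1 i
    rw [mem_range] at this
    omega
  · exact fun l _ _ => pw_nonneg hy l

/-- resampling one coordinate -/
theorem avg_resample {ι κ : Type} [Fintype ι] [DecidableEq ι] [Fintype κ] (w : κ → ℝ)
    (hw : ∑ c, w c = 1) (z : ι) (f : (ι → κ) → ℝ) :
    avg w f = avg w (fun g => ∑ c, w c * f (Function.update g z c)) := by
  classical
  unfold avg
  have h1 : ∑ g : ι → κ, (∏ i, w (g i)) * f g =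
      ∑ p : (ι → κ) × κ, (∏ i, w (p.1 i)) * w p.2 * f p.1 := by
    rw [Fintype.sum_prod_type]
    refine sum_congr rfl fun g _ => ?_
    simp only
    rw [← sum_mul, ← mul_sum, hw, mul_one]
  have h2 : ∑ g : ι → κ, (∏ i, w (g i)) * ∑ c, w c * f (Function.update g z c) =
      ∑ p : (ι → κ) × κ, (∏ i, w (p.1 i)) * w p.2 * f (Function.update p.1 z p.2) := by
    rw [Fintype.sum_prod_type]
    refine sum_congr rfl fun g _ => ?_
    simp only
    rw [mul_sum]
    exact sum_congr rfl fun c _ => by ring
  rw [h1, h2]
  let e : ((ι → κ) × κ) ≃ ((ι → κ) × κ) :=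
    { toFun := fun p => (Function.update p.1 z p.2, p.1 z)
      invFun := fun p => (Function.update p.1 z p.2, p.1 z)
      left_inv := fun p => by simp
      right_inv := fun p => by simp }
  rw [← Equiv.sum_comp e]
  refine sum_congr rfl fun p _ => ?_
  have h3 : ∀ (q : (ι → κ) × κ), (e q).1 = Function.update q.1 z q.2 := fun _ => rfl
  have h4 : ∀ (q : (ι → κ) × κ), (e q).2 = q.1 z := fun _ => rfl
  rw [h3, h4]
  congr 1
  rw [← mul_prod_erase univ (fun i => w (Function.update p.1 z p.2 i)) (mem_univ z),
    ← mul_prod_erase univ (fun i => w (p.1 i)) (mem_univ z), Function.update_self,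
    prod_congr rfl fun i hi => by rw [Function.update_of_ne (ne_of_mem_erase hi)]]
  ring

section
variable {V : Type} [Fintype V] [DecidableEq V]

/-- the average weight -/
theorem avg_coll {N : ℕ} (hN : 1 ≤ N) {y : ℝ} (hy : 1 ≤ y) (Z : Finset V) :
    avg (uw N) (fun g : V → Fin N => y ^ (Z.card - (Z.image g).card)) ≤
      (1 + y * Z.card / N) ^ Z.card := by
  have hN0 : (0 : ℝ) < N := by exact_mod_cast hN
  induction Z using Finset.induction_on with
  | empty =>
    simp only [card_empty, image_empty, Nat.sub_self, pow_zero]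
    rw [avg_one _ (uw_sum hN)]
  | insert z Z hz ih =>
    rw [avg_resample (uw N) (uw_sum hN) z]
    have h1 : ∀ g : V → Fin N, ∑ c, uw N c * y ^ ((insert z Z).card -
        ((insert z Z).image (Function.update g z c)).card) ≤
        (1 + y * Z.card / N) * y ^ (Z.card - (Z.image g).card) := by
      intro g
      have h2 : ∀ c, y ^ ((insert z Z).card - ((insert z Z).image (Function.update g z c)).card) =
          y ^ (Z.card - (Z.image g).card) * (if c ∈ Z.image g then y else 1) := by
        intro c
        have h3 : Z.image (Function.update g z c) = Z.image g := by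
          apply image_congr
          intro v hv
          rw [Function.update_of_ne]
          rintro rfl
          exact hz hv
        have h4 : (Z.image g).card ≤ Z.card := card_image_le
        rw [image_insert, Function.update_self, h3, card_insert_of_notMem hz]
        split_ifs with hc
        · rw [insert_eq_of_mem hc, ← pow_succ]
          congr 1
          omega
        · rw [card_insert_of_notMem hc, mul_one]
          congr 1
          omega
      rw [sum_congr rfl fun c _ => by rw [h2 c]]
      have h5 : ∑ c, uw N c * (y ^ (Z.card - (Z.image g).card) * (if c ∈ Z.image g then y else 1)) =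
          y ^ (Z.card - (Z.image g).card) * ∑ c, uw N c * (if c ∈ Z.image g then y else 1) := by
        rw [mul_sum]
        exact sum_congr rfl fun c _ => by ring
      rw [h5, mul_comm]
      apply mul_le_mul_of_nonneg_right _ (by positivity)
      have h6 : ∑ c, uw N c * (if c ∈ Z.image g then y else 1) ≤
          ∑ c, (uw N c + if c ∈ Z.image g then y / N else 0) := by
        refine sum_le_sum fun c _ => ?_
        unfold uw
        split_ifs
        · have : (0 : ℝ) < 1 / N := by positivity
          rw [show 1 / (N : ℝ) * y = y / N by ring]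
          linarith
        · rw [mul_one, add_zero]
      refine h6.trans ?_
      rw [sum_add_distrib, uw_sum hN, sum_ite_mem, univ_inter, sum_const, nsmul_eq_mul]
      have h7 : ((Z.image g).card : ℝ) ≤ Z.card := by exact_mod_cast card_image_le
      have h8 : ((Z.image g).card : ℝ) * (y / N) ≤ Z.card * (y / N) :=
        mul_le_mul_of_nonneg_right h7 (by positivity)
      have h9 : (Z.card : ℝ) * (y / N) = y * Z.card / N := by ring
      linarith
    refine (avg_mono (uw N) (uw_nonneg N) h1).trans ?_
    rw [avg_mul_left, card_insert_of_notMem hz, pow_succ, mul_comm]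
    push_cast
    have h2 : (1 : ℝ) + y * Z.card / N ≤ 1 + y * (Z.card + 1) / N := by
      have : y * (Z.card : ℝ) / N ≤ y * (Z.card + 1) / N := by
        apply div_le_div_of_nonneg_right _ hN0.le
        nlinarith
      linarith
    have h0 : (0 : ℝ) ≤ 1 + y * Z.card / N := by positivity
    apply mul_le_mul (ih.trans (pow_le_pow_left₀ h0 h2 _)) h2 h0 (by positivity)

/-- the profile of a set -/
def prof {N : ℕ} (g : V → Fin N) (Z : Finset V) : Fin N → ℕ :=
  fun c => (Z.filter (fun v => g v = c)).card

theorem prof_sum {N : ℕ} (g : V → Fin N) (Z : Finset V) : ∑ c, prof g Z c = Z.card := by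
  unfold prof
  rw [card_eq_sum_card_fiberwise (f := g) (t := univ) (fun _ _ => mem_univ _)]

theorem prof_excess {N : ℕ} (g : V → Fin N) (Z : Finset V) :
    ∑ c, (prof g Z c - 1) = Z.card - (Z.image g).card := by
  have h1 : ∑ c, (prof g Z c - 1) + (Z.image g).card = Z.card := by
    rw [← prof_sum g Z]
    have h2 : (Z.image g).card = ∑ c : Fin N, if c ∈ Z.image g then 1 else 0 := by
      rw [sum_ite_mem, univ_inter, sum_const, smul_eq_mul, mul_one]
    rw [h2, ← sum_add_distrib]
    refine sum_congr rfl fun c _ => ?_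
    by_cases hc : c ∈ Z.image g
    · rw [if_pos hc]
      obtain ⟨v, hv, rfl⟩ := mem_image.1 hc
      have : 1 ≤ prof g Z (g v) := by
        unfold prof
        exact card_pos.2 ⟨v, mem_filter.2 ⟨hv, rfl⟩⟩
      omega
    · rw [if_neg hc]
      have : prof g Z c = 0 := by
        unfold prof
        rw [card_eq_zero, filter_eq_empty_iff]
        intro v hv h
        exact hc (h ▸ mem_image_of_mem g hv)
      omega
  omega

theorem exists_prof {N r : ℕ} (g : V → Fin N) (W : Finset V) {l : Fin N → ℕ}
    (hl : ∀ c, l c ≤ prof g W c) (hr : ∑ c, l c = r) :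
    ∃ Z ⊆ W, Z.card = r ∧ prof g Z = l := by
  choose Y hY hYc using fun c => exists_subset_card_eq (hl c)
  have hYg : ∀ c, ∀ v ∈ Y c, g v = c := fun c v hv => (mem_filter.1 (hY c hv)).2
  have hprof : ∀ c, (univ.biUnion Y).filter (fun v => g v = c) = Y c := by
    intro c
    ext v
    rw [mem_filter, mem_biUnion]
    constructor
    · rintro ⟨⟨c', _, hv⟩, hg⟩
      rw [hYg c' v hv] at hg
      rw [← hg]; exact hv
    · intro hv
      exact ⟨⟨c, mem_univ _, hv⟩, hYg c v hv⟩
  have hp : prof g (univ.biUnion Y) = l := by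
    funext c
    unfold prof
    rw [hprof c, hYc c]
  refine ⟨univ.biUnion Y, ?_, ?_, hp⟩
  · intro v hv
    obtain ⟨c, _, hv⟩ := mem_biUnion.1 hv
    exact (mem_filter.1 (hY c hv)).1
  · rw [← prof_sum g, hp, hr]

end

end Pool.Agent.H613T
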