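import Pool.Agent.H613T.Mid2
import Pool.Agent.H613T.Large3

/-!
Sampling patterns.
-/

set_option autoImplicit false
set_option linter.unusedSectionVars false

namespace Pool.Agent.H613T

open Finset Polynomial Pool.Agent.H123R2

theorem avg_comm {ι κ ι' κ' : Type} [Fintype ι] [DecidableEq ι] [Fintype κ] [Fintype ι']
    [DecidableEq ι'] [Fintype κ'] (w : κ → ℝ) (w' : κ' → ℝ) (F : (ι → κ) → (ι' → κ') → ℝ) :
    avg w (fun a => avg w' (fun b => F a b)) = avg w' (fun b => avg w (fun a => F a b)) := by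
  unfold avg
  simp only [mul_sum]
  rw [sum_comm]
  exact sum_congr rfl fun b _ => sum_congr rfl fun a _ => by ring

theorem avg_coord {ι κ : Type} [Fintype ι] [DecidableEq ι] [Fintype κ] (w : κ → ℝ)
    (hw : ∑ c, w c = 1) (a : ι) (f : κ → ℝ) :
    avg w (fun σ : ι → κ => f (σ a)) = ∑ c, w c * f c := by
  rw [avg_resample w hw a]
  simp only [Function.update_self]
  exact avg_const w hw _

section
variable {V : Type} [Fintype V] [DecidableEq V]

theorem exists_degenerate {N r u h : ℕ} (hu : u + h = r) (hh : 2 * h ≤ r) (g : V → Fin N)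
    {W : Finset V} (hW : r ≤ W.card) (hex : (W.image g).card + h ≤ W.card) :
    ∃ Z ⊆ W, Z.card = r ∧ (Z.image g).card ≤ u := by
  classical
  rcases W.eq_empty_or_nonempty with hWe | ⟨w₀, hw₀⟩
  · have h0 : W.card = 0 := by rw [hWe, card_empty]
    refine ⟨∅, empty_subset _, by rw [card_empty]; omega, ?_⟩
    rw [image_empty, card_empty]
    exact Nat.zero_le _
  have h1 : ∀ y : Fin N, ∃ v : V, y ∈ W.image g → v ∈ W ∧ g v = y := by
    intro y
    by_cases hy : y ∈ W.image g
    · obtain ⟨v, hv, rfl⟩ := mem_image.1 hy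
      exact ⟨v, fun _ => ⟨hv, rfl⟩⟩
    · exact ⟨w₀, fun h => absurd h hy⟩
  choose f hf using h1
  set R := (W.image g).image f with hR
  have hRW : R ⊆ W := by
    intro v hv
    obtain ⟨a, ha, rfl⟩ := mem_image.1 hv
    exact (hf a ha).1
  have hRc : R.card ≤ (W.image g).card := card_image_le
  have h2 : h ≤ (W \ R).card := by
    rw [card_sdiff_of_subset hRW]
    omega
  obtain ⟨Y, hY, hYc⟩ := exists_subset_card_eq h2
  have hYW : Y ⊆ W := hY.trans sdiff_subset
  set Y' := (Y.image g).image f with hY'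
  have hY'R : Y' ⊆ R := image_subset_image (image_subset_image hYW)
  have hinj : Set.InjOn f ((Y.image g : Finset (Fin N)) : Set (Fin N)) := by
    intro a ha b hb hab
    have ha' := (hf a (image_subset_image hYW ha)).2
    have hb' := (hf b (image_subset_image hYW hb)).2
    rw [← ha', ← hb', hab]
  have hY'c : Y'.card = (Y.image g).card := card_image_of_injOn hinj
  have hdisj : Disjoint Y Y' := by
    rw [disjoint_left]
    intro v hv hv'
    exact (mem_sdiff.1 (hY hv)).2 (hY'R hv')
  have hXc : (Y ∪ Y').card = h + (Y.image g).card := by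
    rw [card_union_of_disjoint hdisj, hYc, hY'c]
  have hYi : (Y.image g).card ≤ h := by rw [← hYc]; exact card_image_le
  have hXW : Y ∪ Y' ⊆ W := union_subset hYW (hY'R.trans hRW)
  have hXi : (Y ∪ Y').image g = Y.image g := by
    rw [image_union, hY', image_image]
    have : (Y.image g).image (g ∘ f) = Y.image g := by
      conv_rhs => rw [← image_id (s := Y.image g)]
      apply image_congr
      intro a ha
      exact (hf a (image_subset_image hYW ha)).2
    rw [this, union_self]
  obtain ⟨Z, hXZ, hZW, hZc⟩ := exists_subsuperset_card_eq hXW (show (Y ∪ Y').card ≤ r by omega) hW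
  refine ⟨Z, hZW, hZc, ?_⟩
  have h3 : Z.image g ⊆ (Y ∪ Y').image g ∪ (Z \ (Y ∪ Y')).image g := by
    rw [← image_union, union_sdiff_of_subset hXZ]
  have h4 := card_le_card h3
  have h5 := card_union_le ((Y ∪ Y').image g) ((Z \ (Y ∪ Y')).image g)
  have h6 : ((Z \ (Y ∪ Y')).image g).card ≤ (Z \ (Y ∪ Y')).card := card_image_le
  rw [card_sdiff_of_subset hXZ, hXc, hZc] at h6
  rw [hXi] at h5 h4
  omega

open Classical in
/-- families given by a list of patterns -/
noncomputable def patFam {N L : ℕ} (r u : ℕ) (g : V → Fin N) (σ : Fin L → pat N r) :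
    Finset (Finset V) :=
  (powersetCard r (univ : Finset V)).filter
    (fun Z => (Z.image g).card ≤ u ∨ ∃ a, (σ a).1 = prof g Z)

theorem patFam_cover {N L r s k u h : ℕ} (hk : k = r + s) (hu : u + h = r) (hh : 2 * h ≤ r)
    (g : V → Fin N) (σ : Fin L → pat N r)
    (hσ : ∀ φ : Fin k → Fin N, ∑ c, (prof φ univ c - 1) ≤ h →
      ∃ a, ∀ c, (σ a).1 c ≤ prof φ univ c) : CovS univ s r (patFam r u g σ) := by
  classical
  refine ⟨fun Z hZ => ⟨subset_univ _, (mem_powersetCard.1 (mem_filter.1 hZ).1).2⟩, ?_⟩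
  intro W _ hW
  by_cases hex : (W.image g).card + h ≤ W.card
  · obtain ⟨Z, hZW, hZc, hZi⟩ := exists_degenerate hu hh g (by omega) hex
    refine ⟨Z, ?_, hZW⟩
    unfold patFam
    rw [mem_filter, mem_powersetCard]
    exact ⟨⟨subset_univ _, hZc⟩, Or.inl hZi⟩
  · have hWk : W.card = k := by omega
    let e : Fin k ≃ W := (finCongr hWk.symm).trans W.equivFin.symm
    have hφ : ∀ c, prof (fun i : Fin k => g (e i)) univ c = prof g W c := by
      intro c
      unfold prof
      refine card_bij (fun i _ => (e i : V)) ?_ ?_ ?_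
      · intro i hi
        exact mem_filter.2 ⟨(e i).2, (mem_filter.1 hi).2⟩
      · intro i _ j _ hij
        exact e.injective (Subtype.ext hij)
      · intro v hv
        rw [mem_filter] at hv
        refine ⟨e.symm ⟨v, hv.1⟩, mem_filter.2 ⟨mem_univ _, ?_⟩, ?_⟩
        · simpa using hv.2
        · simp
    obtain ⟨a, ha⟩ := hσ (fun i : Fin k => g (e i)) (by
      rw [sum_congr rfl fun c _ => by rw [hφ c], prof_excess]
      omega)
    obtain ⟨Z, hZW, hZc, hZp⟩ := exists_prof g W (l := (σ a).1) (fun c => by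
      rw [← hφ c]; exact ha c) ((mem_pat _).1 (σ a).2)
    refine ⟨Z, ?_, hZW⟩
    unfold patFam
    rw [mem_filter, mem_powersetCard]
    exact ⟨⟨subset_univ _, hZc⟩, Or.inr ⟨a, hZp.symm⟩⟩

open Classical in
/-- a good sample -/
theorem exists_sample {N r k h : ℕ} {R : ℝ} (hR : 1 ≤ R)
    (hkR : (k : ℝ) ≤ R * ((r + 1 - 2 * h : ℕ) : ℝ)) (h2 : 2 * h ≤ r) (hrk : r ≤ k) (hkN : k ≤ N)
    (hN : 1 ≤ N) (hV : r ≤ Fintype.card V) :
    ∃ (L : ℕ) (σ : Fin L → pat N r), (∀ φ : Fin k → Fin N, ∑ c, (prof φ univ c - 1) ≤ h →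
      ∃ a, ∀ c, (σ a).1 c ≤ prof φ univ c) ∧
      avg (uw N) (fun g : V → Fin N => (((powersetCard r (univ : Finset V)).filter
        (fun Z => ∃ a, (σ a).1 = prof g Z)).card : ℝ)) ≤
      2 * ((k * Real.log N + 2) / (k.choose r : ℝ) * (1 + 4 * R * r / N) ^ r) *
        ((Fintype.card V).choose r : ℝ) := by
  have hy : (1 : ℝ) ≤ 4 * R := by linarith
  have hy0 : (0 : ℝ) ≤ 4 * R := by linarith
  have hN0 : (0 : ℝ) < N := by exact_mod_cast hN
  have hCk : (0 : ℝ) < (k.choose r : ℝ) := by exact_mod_cast Nat.choose_pos hrk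
  have hCV : (0 : ℝ) < ((Fintype.card V).choose r : ℝ) := by exact_mod_cast Nat.choose_pos hV
  -- the weight inequality
  have hmain : ∀ φ : Fin k → Fin N, ∑ c, (prof φ univ c - 1) ≤ h →
      (k.choose r : ℝ) ≤ ∑ l ∈ (pat N r).filter (fun l => ∀ i, l i ≤ prof φ univ i),
        pw (4 * R) l := by
    intro φ hφ
    have h3 := main_coeff hR hkR h2 _ 0 (prof φ univ) rfl hφ (by
      rw [prof_sum, card_univ, Fintype.card_fin, zero_add])
    rw [pow_zero, mul_one] at h3
    exact h3.trans (coeff_le_pat hy0 _)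
  obtain ⟨Z0, hZ0⟩ : ∃ Z0 : ℝ, Z0 = ∑ l ∈ pat N r, pw (4 * R) l := ⟨_, rfl⟩
  have hZC : (k.choose r : ℝ) ≤ Z0 := by
    have h3 : ∑ c, (prof (Fin.castLE hkN) univ c - 1) ≤ h := by
      rw [prof_excess, card_image_of_injective _ (Fin.castLE_injective hkN)]
      omega
    refine (hmain _ h3).trans ?_
    rw [hZ0]
    exact sum_le_sum_of_subset_of_nonneg (filter_subset _ _) fun l _ _ => pw_nonneg hy0 l
  have hZpos : 0 < Z0 := lt_of_lt_of_le hCk hZC
  set π : pat N r → ℝ := fun l => pw (4 * R) l.1 / Z0 with hπ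
  have hπ0 : ∀ l, 0 ≤ π l := fun l => div_nonneg (pw_nonneg hy0 _) hZpos.le
  have hsum : ∀ f : (Fin N → ℕ) → ℝ, ∑ l : pat N r, π l * f l.1 =
      (∑ l ∈ pat N r, pw (4 * R) l * f l) / Z0 := by
    intro f
    rw [sum_div, ← sum_coe_sort (pat N r)]
    exact sum_congr rfl fun l _ => by rw [hπ]; ring
  have hπ1 : ∑ l, π l = 1 := by
    have := hsum fun _ => 1
    simp only [mul_one] at this
    rw [this, ← hZ0, div_self hZpos.ne']
  obtain ⟨θ, hθ⟩ : ∃ θ : ℝ, θ = (k.choose r : ℝ) / Z0 := ⟨_, rfl⟩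
  have hθ0 : 0 < θ := by rw [hθ]; positivity
  have hθ1 : θ ≤ 1 := by rw [hθ, div_le_one hZpos]; exact hZC
  have hlogN : 0 ≤ Real.log N := Real.log_nonneg (by exact_mod_cast hN)
  obtain ⟨L, hL⟩ : ∃ L : ℕ, L = ⌊(k * Real.log N + 1) / θ⌋₊ + 1 := ⟨_, rfl⟩
  have hL1 : k * Real.log N + 1 < θ * L := by
    have := Nat.lt_floor_add_one ((k * Real.log N + 1) / θ)
    rw [div_lt_iff₀ hθ0] at this
    rw [hL]; push_cast; linarith
  have hL2 : (L : ℝ) / Z0 ≤ (k * Real.log N + 2) / (k.choose r : ℝ) := by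
    have h3 := Nat.floor_le (show 0 ≤ (k * Real.log N + 1) / θ by positivity)
    have h4 : (L : ℝ) ≤ (k * Real.log N + 1) / θ + 1 := by rw [hL]; push_cast; linarith
    have h5 : (k * Real.log N + 1) / θ / Z0 = (k * Real.log N + 1) / (k.choose r : ℝ) := by
      rw [hθ]; field_simp
    calc (L : ℝ) / Z0 ≤ ((k * Real.log N + 1) / θ + 1) / Z0 :=
          div_le_div_of_nonneg_right h4 hZpos.le
      _ = (k * Real.log N + 1) / (k.choose r : ℝ) + 1 / Z0 := by rw [add_div, h5]
      _ ≤ (k * Real.log N + 1) / (k.choose r : ℝ) + 1 / (k.choose r : ℝ) := by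
          gcongr
      _ = _ := by rw [← add_div]; congr 1; ring
  -- coverage
  set Φ : Finset (Fin k → Fin N) := univ.filter (fun φ => ∑ c, (prof φ univ c - 1) ≤ h) with hΦ
  set U : (Fin L → pat N r) → ℝ := fun σ =>
    ∑ φ ∈ Φ, ∏ a, (if ∀ c, (σ a).1 c ≤ prof φ univ c then (0 : ℝ) else 1) with hU
  have hUavg : avg π U < 1 / 2 := by
    rw [hU, avg_sum]
    have h3 : ∀ φ ∈ Φ, avg π (fun σ : Fin L → pat N r =>
        ∏ a, (if ∀ c, (σ a).1 c ≤ prof φ univ c then (0 : ℝ) else 1)) ≤ (1 - θ) ^ L := by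
      intro φ hφ
      rw [avg_prod π (fun _ l => if ∀ c, l.1 c ≤ prof φ univ c then (0 : ℝ) else 1), prod_const,
        card_univ, Fintype.card_fin]
      have h4 : ∑ l, π l * (if ∀ c, l.1 c ≤ prof φ univ c then (0 : ℝ) else 1) ≤ 1 - θ := by
        have h5 : ∑ l, π l * (if ∀ c, l.1 c ≤ prof φ univ c then (0 : ℝ) else 1) +
            ∑ l, π l * (if ∀ c, l.1 c ≤ prof φ univ c then (1 : ℝ) else 0) = 1 := by
          rw [← sum_add_distrib]
          refine Eq.trans (sum_congr rfl fun l _ => ?_) hπ1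
          split_ifs <;> ring
        rw [hsum (fun l => if ∀ c, l c ≤ prof φ univ c then (1 : ℝ) else 0)] at h5
        have h6 : θ ≤ (∑ l ∈ pat N r, pw (4 * R) l *
            (if ∀ c, l c ≤ prof φ univ c then (1 : ℝ) else 0)) / Z0 := by
          rw [hθ]
          apply div_le_div_of_nonneg_right _ hZpos.le
          refine (hmain φ (mem_filter.1 hφ).2).trans (le_of_eq ?_)
          rw [sum_filter]
          refine sum_congr rfl fun l _ => ?_
          rw [mul_ite, mul_one, mul_zero]
        linarith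
      refine pow_le_pow_left₀ (sum_nonneg fun l _ => mul_nonneg (hπ0 l) ?_) h4 L
      split_ifs <;> norm_num
    refine lt_of_le_of_lt (sum_le_sum h3) ?_
    rw [sum_const, nsmul_eq_mul]
    have h4 : (Φ.card : ℝ) ≤ Real.exp (k * Real.log N) := by
      have h5 : Φ.card ≤ N ^ k := by
        refine (card_filter_le _ _).trans ?_
        rw [card_univ, Fintype.card_fun, Fintype.card_fin, Fintype.card_fin]
      have h6 : Real.exp (k * Real.log N) = (N : ℝ) ^ k := by
        rw [mul_comm, Real.exp_mul, Real.exp_log hN0, Real.rpow_natCast]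
      rw [h6]
      exact_mod_cast h5
    have h5 : (1 - θ) ^ L ≤ Real.exp (-(θ * L)) := by
      calc (1 - θ) ^ L ≤ (Real.exp (-θ)) ^ L :=
            pow_le_pow_left₀ (by linarith) (Real.one_sub_le_exp_neg θ) _
        _ = _ := by
            rw [← Real.exp_nat_mul]
            congr 1
            ring
    have h6 : Real.exp (-1) < 1 / 2 := by
      rw [Real.exp_neg, one_div]
      apply inv_strictAnti₀ (by norm_num)
      have := Real.exp_one_gt_d9
      linarith
    calc (Φ.card : ℝ) * (1 - θ) ^ L ≤ Real.exp (k * Real.log N) * Real.exp (-(θ * L)) :=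
          mul_le_mul h4 h5 (pow_nonneg (by linarith) _) (Real.exp_pos _).le
      _ = Real.exp (k * Real.log N - θ * L) := by rw [← Real.exp_add]; congr 1
      _ ≤ Real.exp (-1) := by
          apply Real.exp_le_exp.2
          linarith
      _ < 1 / 2 := h6
  -- cost
  set cost : (Fin L → pat N r) → ℝ := fun σ => avg (uw N) (fun g : V → Fin N =>
    ∑ Z ∈ powersetCard r (univ : Finset V), ∑ a : Fin L,
      if (σ a).1 = prof g Z then (1 : ℝ) else 0) with hcost
  obtain ⟨X, hX⟩ : ∃ X : ℝ, X = (L : ℝ) / Z0 * (1 + 4 * R * r / N) ^ r *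
    ((Fintype.card V).choose r : ℝ) := ⟨_, rfl⟩
  have hLpos : (0 : ℝ) < L := by
    have : 0 < L := by rw [hL]; exact Nat.succ_pos _
    exact_mod_cast this
  have hXpos : 0 < X := by rw [hX]; positivity
  have hcostavg : avg π cost ≤ X := by
    rw [hcost, avg_comm]
    have h3 : ∀ g : V → Fin N, avg π (fun σ : Fin L → pat N r =>
        ∑ Z ∈ powersetCard r (univ : Finset V), ∑ a : Fin L,
          if (σ a).1 = prof g Z then (1 : ℝ) else 0) =
        ∑ Z ∈ powersetCard r (univ : Finset V), (L : ℝ) / Z0 *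
          (4 * R) ^ (Z.card - (Z.image g).card) := by
      intro g
      rw [avg_sum]
      refine sum_congr rfl fun Z hZ => ?_
      rw [avg_sum]
      have hZc := (mem_powersetCard.1 hZ).2
      have h4 : ∀ a : Fin L, avg π (fun σ : Fin L → pat N r =>
          if (σ a).1 = prof g Z then (1 : ℝ) else 0) =
          (4 * R) ^ (Z.card - (Z.image g).card) / Z0 := by
        intro a
        rw [avg_coord π hπ1 a (fun l => if l.1 = prof g Z then (1 : ℝ) else 0),
          hsum (fun l => if l = prof g Z then (1 : ℝ) else 0)]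
        congr 1
        simp only [mul_ite, mul_one, mul_zero]
        rw [sum_ite_eq', if_pos ((mem_pat _).2 (by rw [prof_sum, hZc])), pw_eq, prof_excess]
      rw [sum_congr rfl fun a _ => h4 a, sum_const, card_univ, Fintype.card_fin, nsmul_eq_mul]
      ring
    rw [show (fun g : V → Fin N => avg π (fun σ : Fin L → pat N r =>
        ∑ Z ∈ powersetCard r (univ : Finset V), ∑ a : Fin L,
          if (σ a).1 = prof g Z then (1 : ℝ) else 0)) = _ from funext h3, avg_sum]
    have h4 : ∀ Z ∈ powersetCard r (univ : Finset V), avg (uw N) (fun g : V → Fin N =>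
        (L : ℝ) / Z0 * (4 * R) ^ (Z.card - (Z.image g).card)) ≤
        (L : ℝ) / Z0 * (1 + 4 * R * r / N) ^ r := by
      intro Z hZ
      have hZc := (mem_powersetCard.1 hZ).2
      rw [avg_mul_left]
      apply mul_le_mul_of_nonneg_left _ (by positivity)
      have := avg_coll (V := V) hN hy Z
      rw [hZc] at this
      rw [hZc]
      exact this
    refine (sum_le_sum h4).trans (le_of_eq ?_)
    rw [sum_const, card_powersetCard, card_univ, nsmul_eq_mul, hX]
    ring
  -- the choice
  obtain ⟨σ, hσ⟩ := exists_le_avg π hπ0 hπ1 (fun σ => U σ + 1 / (2 * X) * cost σ)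
  rw [avg_add, avg_mul_left] at hσ
  have h3 : 1 / (2 * X) * avg π cost ≤ 1 / 2 := by
    calc 1 / (2 * X) * avg π cost ≤ 1 / (2 * X) * X :=
          mul_le_mul_of_nonneg_left hcostavg (by positivity)
      _ = 1 / 2 := by field_simp
  have h4 : U σ + 1 / (2 * X) * cost σ < 1 := by linarith
  have hU0 : 0 ≤ U σ := by
    rw [hU]
    exact sum_nonneg fun φ _ => prod_nonneg fun a _ => by split_ifs <;> norm_num
  have hc0 : 0 ≤ cost σ := by
    rw [hcost]
    exact avg_nonneg _ (uw_nonneg N) fun g => sum_nonneg fun Z _ => sum_nonneg fun a _ => by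
      split_ifs <;> norm_num
  have hc1 : 0 ≤ 1 / (2 * X) * cost σ := by positivity
  refine ⟨L, σ, ?_, ?_⟩
  · intro φ hφ
    by_contra hcon
    push Not at hcon
    have h5 : (1 : ℝ) ≤ U σ := by
      rw [hU]
      refine le_trans (le_of_eq ?_) (single_le_sum (f := fun φ =>
        ∏ a, (if ∀ c, (σ a).1 c ≤ prof φ univ c then (0 : ℝ) else 1))
        (fun φ _ => prod_nonneg fun a _ => by split_ifs <;> norm_num)
        (mem_filter.2 ⟨mem_univ φ, hφ⟩))
      rw [prod_eq_one]
      intro a _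
      rw [if_neg]
      push Not
      exact hcon a
    linarith
  · have h5 : cost σ ≤ 2 * X := by
      have h6 : 1 / (2 * X) * cost σ ≤ 1 := by linarith
      rw [one_div, inv_mul_le_iff₀ (by positivity)] at h6
      linarith
    have h6 : avg (uw N) (fun g : V → Fin N => (((powersetCard r (univ : Finset V)).filter
        (fun Z => ∃ a, (σ a).1 = prof g Z)).card : ℝ)) ≤ cost σ := by
      rw [hcost]
      apply avg_mono _ (uw_nonneg N)
      intro g
      rw [card_filter]
      push_cast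
      refine sum_le_sum fun Z _ => ?_
      split_ifs with hex
      · obtain ⟨a, ha⟩ := hex
        refine le_trans (le_of_eq ?_) (single_le_sum (f := fun a : Fin L =>
          if (σ a).1 = prof g Z then (1 : ℝ) else 0) (fun a _ => by split_ifs <;> norm_num)
          (mem_univ a))
        rw [if_pos ha]
      · exact sum_nonneg fun a _ => by split_ifs <;> norm_num
    refine h6.trans (h5.trans ?_)
    rw [hX, ← mul_assoc 2]
    apply mul_le_mul_of_nonneg_right _ hCV.le
    apply mul_le_mul_of_nonneg_left _ (by norm_num : (0 : ℝ) ≤ 2)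
    exact mul_le_mul_of_nonneg_right hL2 (by positivity)

end

end Pool.Agent.H613T
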