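import Pool.Agent.H613T.Mid3

/-!
The range `r ≤ k ≤ r ^ 2` and the uniform bound.
-/

set_option autoImplicit false
set_option linter.unusedSectionVars false

namespace Pool.Agent.H613T

open Finset Pool.Agent.H123R2

section
variable {V : Type} [Fintype V] [DecidableEq V]

/-- the average number of degenerate sets -/
theorem avg_deg {N r u : ℕ} (hN : 1 ≤ N) (hu : u ≤ N) :
    avg (uw N) (fun g : V → Fin N => (((powersetCard r (univ : Finset V)).filter
        (fun Z => (Z.image g).card ≤ u)).card : ℝ)) ≤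
      (N.choose u : ℝ) * ((u : ℝ) / N) ^ r * ((Fintype.card V).choose r : ℝ) := by
  classical
  have h1 : ∀ g : V → Fin N, (((powersetCard r (univ : Finset V)).filter
        (fun Z => (Z.image g).card ≤ u)).card : ℝ) ≤
      ∑ Z ∈ powersetCard r (univ : Finset V),
        ∑ S ∈ powersetCard u (univ : Finset (Fin N)), if Z.image g ⊆ S then (1 : ℝ) else 0 := by
    intro g
    rw [card_filter]
    push_cast
    refine sum_le_sum fun Z hZ => ?_
    split_ifs with hc
    · obtain ⟨S, hS1, hS2⟩ : ∃ S : Finset (Fin N), Z.image g ⊆ S ∧ S.card = u := by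
        obtain ⟨S, h1, _, h2⟩ := exists_subsuperset_card_eq (subset_univ (Z.image g)) hc
          (by rw [card_univ, Fintype.card_fin]; exact hu)
        exact ⟨S, h1, h2⟩
      refine le_trans ?_ (single_le_sum (f := fun S => if Z.image g ⊆ S then (1 : ℝ) else 0)
        (fun S _ => by positivity) (mem_powersetCard.2 ⟨subset_univ S, hS2⟩))
      simp only [if_pos hS1, le_refl]
    · exact sum_nonneg fun _ _ => by positivity
  refine (avg_mono (uw N) (uw_nonneg N) h1).trans ?_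
  rw [avg_sum]
  have h2 : ∀ Z ∈ powersetCard r (univ : Finset V), avg (uw N) (fun g : V → Fin N =>
      ∑ S ∈ powersetCard u (univ : Finset (Fin N)), if Z.image g ⊆ S then (1 : ℝ) else 0) =
      (N.choose u : ℝ) * ((u : ℝ) / N) ^ r := by
    intro Z hZ
    have hZc := (mem_powersetCard.1 hZ).2
    rw [avg_sum, sum_congr rfl (g := fun _ => ((u : ℝ) / N) ^ r), sum_const, card_powersetCard,
      card_univ, Fintype.card_fin, nsmul_eq_mul]
    intro S hS
    rw [avg_sub hN hZc, (mem_powersetCard.1 hS).2]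
  rw [sum_congr rfl h2, sum_const, card_powersetCard, card_univ, nsmul_eq_mul, mul_comm]

end

theorem TD.pattern {N r s k u h : ℕ} {R : ℝ} (hk : k = r + s) (hu : u + h = r) (hh : 2 * h ≤ r)
    (hR : 1 ≤ R) (hkR : (k : ℝ) ≤ R * ((r + 1 - 2 * h : ℕ) : ℝ)) (hkN : k ≤ N) (hN : 1 ≤ N) :
    TD s r ((N.choose u : ℝ) * ((u : ℝ) / N) ^ r +
      2 * ((k * Real.log N + 2) / (k.choose r : ℝ) * (1 + 4 * R * r / N) ^ r)) := by
  classical
  intro n
  by_cases hn : r ≤ n
  · obtain ⟨L, σ, h1, h2⟩ := exists_sample (V := Fin n) (N := N) (r := r) (k := k) (h := h) hR hkR hh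
      (by omega) hkN hN (by rw [Fintype.card_fin]; exact hn)
    have h3 := avg_deg (V := Fin n) (N := N) (r := r) (u := u) hN (by omega)
    rw [Fintype.card_fin] at h2 h3
    obtain ⟨g, hg⟩ := exists_le_avg (uw N) (uw_nonneg N) (uw_sum hN) (fun g : Fin n → Fin N =>
      (((powersetCard r (univ : Finset (Fin n))).filter (fun Z => (Z.image g).card ≤ u)).card : ℝ) +
      (((powersetCard r (univ : Finset (Fin n))).filter
        (fun Z => ∃ a, (σ a).1 = prof g Z)).card : ℝ))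
    rw [avg_add] at hg
    refine ⟨patFam r u g σ, patFam_cover hk hu hh g σ h1, ?_⟩
    have h4 : ((patFam r u g σ).card : ℝ) ≤
        (((powersetCard r (univ : Finset (Fin n))).filter
          (fun Z => (Z.image g).card ≤ u)).card : ℝ) +
        (((powersetCard r (univ : Finset (Fin n))).filter
          (fun Z => ∃ a, (σ a).1 = prof g Z)).card : ℝ) := by
      unfold patFam
      rw [filter_or]
      exact_mod_cast card_union_le _ _
    refine h4.trans (hg.trans ?_)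
    rw [add_mul]
    exact add_le_add h3 h2
  · push Not at hn
    refine ⟨∅, ⟨fun Z hZ => absurd hZ (notMem_empty Z), ?_⟩, ?_⟩
    · intro Y _ hY
      have h1 : Y.card ≤ n := by
        have := card_le_univ Y
        rwa [Fintype.card_fin] at this
      omega
    · rw [card_empty, Nat.choose_eq_zero_of_lt hn]; simp

/-- the range `r ≤ k ≤ r ^ 2` -/
theorem TD.mid {r k : ℕ} (hr : 12 ≤ r) (h2r : r ≤ k) (hk2 : k ≤ r ^ 2) :
    TD (k - r) r (79 * (k * Real.log r / (k.choose r : ℝ))) := by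
  obtain ⟨h, hh⟩ : ∃ h, h = r / 4 := ⟨_, rfl⟩
  obtain ⟨u, hu⟩ : ∃ u, u = r - h := ⟨_, rfl⟩
  obtain ⟨N, hN⟩ : ∃ N, N = 12 ^ 5 * r ^ 6 := ⟨_, rfl⟩
  have hr0 : (12 : ℝ) ≤ r := by exact_mod_cast hr
  have hkr : (k : ℝ) ≤ (r : ℝ) ^ 2 := by exact_mod_cast hk2
  have h2kr : (r : ℝ) ≤ k := by exact_mod_cast h2r
  have hNr : (N : ℝ) = 12 ^ 5 * (r : ℝ) ^ 6 := by rw [hN]; push_cast; ring
  have hr6 : r ^ 2 ≤ r ^ 6 := Nat.pow_le_pow_right (by omega) (by norm_num)
  have hN1 : r ^ 2 ≤ N := by rw [hN]; omega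
  have hN2 : 1 ≤ N := by nlinarith
  have hN0 : (0 : ℝ) < N := by exact_mod_cast hN2
  have hCk : (0 : ℝ) < (k.choose r : ℝ) := by exact_mod_cast Nat.choose_pos (show r ≤ k by omega)
  obtain ⟨R, hR⟩ : ∃ R : ℝ, R = 2 * k / r := ⟨_, rfl⟩
  have hrpos : (0 : ℝ) < r := by linarith
  have hR1 : 1 ≤ R := by
    rw [hR, le_div_iff₀ hrpos]; linarith
  have hkR : (k : ℝ) ≤ R * ((r + 1 - 2 * h : ℕ) : ℝ) := by
    have e1 : (r : ℝ) / 2 ≤ ((r + 1 - 2 * h : ℕ) : ℝ) := by
      rw [div_le_iff₀ (by norm_num)]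
      exact_mod_cast (show r ≤ (r + 1 - 2 * h) * 2 by omega)
    calc (k : ℝ) = R * (r / 2) := by rw [hR]; field_simp
      _ ≤ _ := mul_le_mul_of_nonneg_left e1 (by linarith)
  refine TD.mono (TD.pattern (N := N) (r := r) (s := k - r) (k := k) (u := u) (h := h) (R := R)
    (by omega) (by omega) (by omega) hR1 hkR (by omega) hN2) ?_
  -- degenerate sets
  have hfu : (0 : ℝ) < (u.factorial : ℝ) := by exact_mod_cast u.factorial_pos
  have hfr : (0 : ℝ) < (r.factorial : ℝ) := by exact_mod_cast r.factorial_pos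
  have hu0 : (0 : ℝ) < u := by exact_mod_cast (show 0 < u by omega)
  have hur : (u : ℝ) ≤ r := by exact_mod_cast (show u ≤ r by omega)
  have h34 : (3 : ℝ) * r ≤ 4 * u := by exact_mod_cast (show 3 * r ≤ 4 * u by omega)
  have hdeg : (N.choose u : ℝ) * ((u : ℝ) / N) ^ r ≤ 1 / (k.choose r : ℝ) := by
    have hCu : (N.choose u : ℝ) ≤ (N : ℝ) ^ u / (u.factorial : ℝ) := Nat.choose_le_pow_div u N
    have hCk2 : (k.choose r : ℝ) ≤ (k : ℝ) ^ r / (r.factorial : ℝ) := Nat.choose_le_pow_div r k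
    have f1 := pow_self_le u
    have f2 := pow_self_le r
    have g1 : (k.choose r : ℝ) ≤ 3 ^ r * (r : ℝ) ^ r := by
      refine hCk2.trans ?_
      rw [div_le_iff₀ hfr]
      calc (k : ℝ) ^ r ≤ ((r : ℝ) ^ 2) ^ r := pow_le_pow_left₀ (by positivity) hkr r
        _ = (r : ℝ) ^ r * (r : ℝ) ^ r := by rw [← mul_pow]; congr 1; ring
        _ ≤ (r : ℝ) ^ r * (3 ^ r * (r.factorial : ℝ)) := mul_le_mul_of_nonneg_left f2 (by positivity)
        _ = _ := by ring
    have g2 : (r : ℝ) ^ u ≤ 4 ^ u * (u.factorial : ℝ) := by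
      have e1 : ((3 : ℝ) * r) ^ u ≤ (4 * u) ^ u := pow_le_pow_left₀ (by positivity) h34 u
      rw [mul_pow, mul_pow] at e1
      have e2 : (3 : ℝ) ^ u * (r : ℝ) ^ u ≤ 3 ^ u * (4 ^ u * (u.factorial : ℝ)) := by
        calc (3 : ℝ) ^ u * (r : ℝ) ^ u ≤ 4 ^ u * (u : ℝ) ^ u := e1
          _ ≤ 4 ^ u * (3 ^ u * (u.factorial : ℝ)) := mul_le_mul_of_nonneg_left f1 (by positivity)
          _ = _ := by ring
      exact le_of_mul_le_mul_left e2 (by positivity)
    have g3 : (3 : ℝ) ^ r * 4 ^ u * (r : ℝ) ^ (r + h) ≤ (N : ℝ) ^ h := by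
      have hr1 : (1 : ℝ) ≤ r := by linarith
      calc (3 : ℝ) ^ r * 4 ^ u * (r : ℝ) ^ (r + h) ≤ 3 ^ r * 4 ^ r * (r : ℝ) ^ (r + h) := by
            have : (4 : ℝ) ^ u ≤ 4 ^ r := pow_le_pow_right₀ (by norm_num) (by omega)
            gcongr
        _ = 12 ^ r * (r : ℝ) ^ (r + h) := by rw [← mul_pow]; norm_num
        _ ≤ 12 ^ (5 * h) * (r : ℝ) ^ (6 * h) := by
            apply mul_le_mul
            · exact pow_le_pow_right₀ (by norm_num) (by omega)
            · exact pow_le_pow_right₀ hr1 (by omega)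
            · positivity
            · positivity
        _ = (N : ℝ) ^ h := by rw [hNr, mul_pow, ← pow_mul, ← pow_mul]
    calc (N.choose u : ℝ) * ((u : ℝ) / N) ^ r
        ≤ (N : ℝ) ^ u / (u.factorial : ℝ) * ((u : ℝ) / N) ^ r :=
          mul_le_mul_of_nonneg_right hCu (by positivity)
      _ = (u : ℝ) ^ r / ((u.factorial : ℝ) * (N : ℝ) ^ h) := by
          have : (N : ℝ) ^ r = (N : ℝ) ^ u * (N : ℝ) ^ h := by rw [← pow_add]; congr 1; omega
          rw [div_pow, this]
          field_simp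
      _ ≤ 1 / (k.choose r : ℝ) := by
          rw [div_le_div_iff₀ (by positivity) hCk, one_mul]
          calc (u : ℝ) ^ r * (k.choose r : ℝ) ≤ (r : ℝ) ^ r * (3 ^ r * (r : ℝ) ^ r) :=
                mul_le_mul (pow_le_pow_left₀ hu0.le hur r) g1 hCk.le (by positivity)
            _ = (r : ℝ) ^ u * (3 ^ r * (r : ℝ) ^ (r + h)) := by
                have e3 : (r : ℝ) ^ r = (r : ℝ) ^ u * (r : ℝ) ^ h := by
                  rw [← pow_add]; congr 1; omega
                rw [pow_add (r : ℝ) r h]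
                nth_rewrite 1 [e3]
                ring
            _ ≤ (4 ^ u * (u.factorial : ℝ)) * (3 ^ r * (r : ℝ) ^ (r + h)) :=
                mul_le_mul_of_nonneg_right g2 (by positivity)
            _ = (u.factorial : ℝ) * (3 ^ r * 4 ^ u * (r : ℝ) ^ (r + h)) := by ring
            _ ≤ (u.factorial : ℝ) * (N : ℝ) ^ h := mul_le_mul_of_nonneg_left g3 hfu.le
  -- the factor of the coincidences
  have hB : (1 + 4 * R * r / N) ^ r ≤ 3 := by
    have e1 : 4 * R * r = 8 * k := by rw [hR]; field_simp; ring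
    rw [e1]
    calc (1 + 8 * (k : ℝ) / N) ^ r ≤ (Real.exp (8 * k / N)) ^ r := by
          apply pow_le_pow_left₀ (by positivity)
          have := Real.add_one_le_exp (8 * (k : ℝ) / N)
          linarith
      _ = Real.exp (r * (8 * k / N)) := by rw [← Real.exp_nat_mul]
      _ ≤ Real.exp 1 := by
          apply Real.exp_le_exp.2
          rw [← mul_div_assoc, div_le_one hN0, hNr]
          have e2 : (r : ℝ) * (8 * k) ≤ 8 * (r : ℝ) ^ 3 := by nlinarith
          have e3 : (r : ℝ) ^ 3 ≤ (r : ℝ) ^ 6 := pow_le_pow_right₀ (by linarith) (by norm_num)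
          nlinarith [show (0 : ℝ) ≤ (r : ℝ) ^ 6 by positivity]
      _ ≤ 3 := Real.exp_one_lt_three.le
  have hlogr : 0 ≤ Real.log r := Real.log_nonneg (by linarith)
  have hlog12 : Real.log 12 ≤ Real.log r := Real.log_le_log (by norm_num) hr0
  have hlogN : Real.log N ≤ 11 * Real.log r := by
    rw [hNr, Real.log_mul (by norm_num) (by positivity), Real.log_pow, Real.log_pow]
    push_cast
    linarith
  have hlog1 : 1 ≤ Real.log r := by
    rw [Real.le_log_iff_exp_le hrpos]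
    have := Real.exp_one_lt_three
    linarith
  have hk1 : (1 : ℝ) ≤ k := by linarith
  have hklog : 1 ≤ k * Real.log r := by nlinarith
  have hkk : (k : ℝ) * Real.log N + 2 ≤ 13 * (k * Real.log r) := by
    have := mul_le_mul_of_nonneg_left hlogN (show (0 : ℝ) ≤ k by linarith)
    linarith
  calc (N.choose u : ℝ) * ((u : ℝ) / N) ^ r +
      2 * ((k * Real.log N + 2) / (k.choose r : ℝ) * (1 + 4 * R * r / N) ^ r)
      ≤ 1 / (k.choose r : ℝ) + 2 * (13 * (k * Real.log r) / (k.choose r : ℝ) * 3) := by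
        gcongr
    _ ≤ k * Real.log r / (k.choose r : ℝ) +
        2 * (13 * (k * Real.log r) / (k.choose r : ℝ) * 3) := by
        gcongr
    _ = _ := by ring

theorem TD.small' {t k : ℕ} (ht : 2 ≤ t) (htk : t ≤ k) :
    TD (k - t) t ((2 * ((t : ℝ) - 1)) ^ (t - 1) / ((k : ℝ) - 1) ^ (t - 1)) := by
  obtain ⟨m, hm⟩ : ∃ m, m = (k - 1) / (t - 1) := ⟨_, rfl⟩
  have ht1 : 0 < t - 1 := by omega
  have hm1 : 1 ≤ m := by
    rw [hm, Nat.one_le_div_iff ht1]; omega
  have h1 : m * (t - 1) ≤ k - 1 := by rw [hm]; exact Nat.div_mul_le_self _ _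
  have h2 : k - 1 < m * (t - 1) + (t - 1) := by rw [hm]; exact Nat.lt_div_mul_add ht1
  refine TD.mono ((TD.zero t).partition (m := m) (s' := k - t) zero_le_one hm1 (by omega) ?_) ?_
  · rw [add_zero]; omega
  · have hk1 : (0 : ℝ) < (k : ℝ) - 1 := by
      have : (1 : ℝ) < k := by exact_mod_cast (show 1 < k by omega)
      linarith
    have hm0 : (1 : ℝ) ≤ m := by exact_mod_cast hm1
    have ht0 : (2 : ℝ) ≤ t := by exact_mod_cast ht
    have e1 : (k : ℝ) - 1 ≤ m * (2 * ((t : ℝ) - 1)) := by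
      have e3 : k ≤ m * (t - 1) + (t - 1) := by omega
      have e4 : (k : ℝ) ≤ m * ((t - 1 : ℕ) : ℝ) + ((t - 1 : ℕ) : ℝ) := by exact_mod_cast e3
      rw [Nat.cast_sub (by omega), Nat.cast_one] at e4
      nlinarith
    rw [div_le_div_iff₀ (by positivity) (by positivity), one_mul, ← mul_pow, mul_comm _ (m : ℝ)]
    exact pow_le_pow_left₀ hk1.le e1 _

/-- comparison of the two normalisations -/
theorem fact_le {t k : ℕ} (ht : 1 ≤ t) (htk : t ≤ k) (hk : 2 ≤ k) :
    (t.factorial : ℝ) / ((k : ℝ) - 1) ^ (t - 1) ≤ t / ((k - 1).choose (t - 1) : ℝ) := by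
  have h1 : ((k - 1).choose (t - 1) : ℝ) ≤ (((k - 1 : ℕ) : ℝ)) ^ (t - 1) / ((t - 1).factorial : ℝ) :=
    Nat.choose_le_pow_div (t - 1) (k - 1)
  have h2 : ((k - 1 : ℕ) : ℝ) = (k : ℝ) - 1 := by rw [Nat.cast_sub (by omega), Nat.cast_one]
  rw [h2] at h1
  have hC : (0 : ℝ) < ((k - 1).choose (t - 1) : ℝ) := by
    exact_mod_cast Nat.choose_pos (show t - 1 ≤ k - 1 by omega)
  have hk1 : (0 : ℝ) < (k : ℝ) - 1 := by
    have : (2 : ℝ) ≤ k := by exact_mod_cast hk
    linarith
  have hf : (0 : ℝ) < ((t - 1).factorial : ℝ) := by exact_mod_cast (t - 1).factorial_pos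
  rw [div_le_div_iff₀ (by positivity) hC]
  rw [le_div_iff₀ hf] at h1
  have h3 : (t.factorial : ℝ) = t * ((t - 1).factorial : ℝ) := by
    obtain ⟨q, rfl⟩ : ∃ q, t = q + 1 := ⟨t - 1, by omega⟩
    rw [Nat.factorial_succ, Nat.add_sub_cancel]
    push_cast
    ring
  rw [h3]
  calc (t : ℝ) * ((t - 1).factorial : ℝ) * ((k - 1).choose (t - 1) : ℝ)
      = t * (((k - 1).choose (t - 1) : ℝ) * ((t - 1).factorial : ℝ)) := by ring
    _ ≤ t * ((k : ℝ) - 1) ^ (t - 1) := mul_le_mul_of_nonneg_left h1 (by positivity)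

theorem choose_eq {t k : ℕ} (ht : 1 ≤ t) (htk : t ≤ k) :
    (k : ℝ) / (k.choose t : ℝ) = t / ((k - 1).choose (t - 1) : ℝ) := by
  have hC : (0 : ℝ) < ((k - 1).choose (t - 1) : ℝ) := by
    exact_mod_cast Nat.choose_pos (show t - 1 ≤ k - 1 by omega)
  have hC2 : (0 : ℝ) < (k.choose t : ℝ) := by exact_mod_cast Nat.choose_pos htk
  rw [div_eq_div_iff hC2.ne' hC.ne']
  obtain ⟨q, rfl⟩ : ∃ q, t = q + 1 := ⟨t - 1, by omega⟩
  obtain ⟨p, rfl⟩ : ∃ p, k = p + 1 := ⟨k - 1, by omega⟩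
  have := Nat.add_one_mul_choose_eq p q
  rw [Nat.add_sub_cancel, Nat.add_sub_cancel]
  have h2 : ((p + 1 : ℕ) : ℝ) * (p.choose q : ℝ) = ((p + 1).choose (q + 1) : ℝ) * ((q + 1 : ℕ) : ℝ) := by
    exact_mod_cast this
  linarith

/-- the uniform bound -/
theorem TD.uniform : ∃ C : ℝ, 0 < C ∧ ∀ t k : ℕ, 2 ≤ t → t ≤ k →
    TD (k - t) t (C * (t * Real.log t / ((k - 1).choose (t - 1) : ℝ))) := by
  obtain ⟨C1, hC1, hlarge⟩ := TD.large_const
  refine ⟨C1 + 79 + 2 * 34 ^ 17, by positivity, fun t k ht hk => ?_⟩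
  have ht0 : (2 : ℝ) ≤ t := by exact_mod_cast ht
  have hlog2 : (1 / 2 : ℝ) ≤ Real.log t := by
    have h1 : Real.log 2 ≤ Real.log t := Real.log_le_log (by norm_num) ht0
    have h2 := Real.log_two_gt_d9
    linarith
  have hC : (0 : ℝ) < ((k - 1).choose (t - 1) : ℝ) := by
    exact_mod_cast Nat.choose_pos (show t - 1 ≤ k - 1 by omega)
  have hpos : 0 ≤ t * Real.log t / ((k - 1).choose (t - 1) : ℝ) := by positivity
  have hfl := fact_le (t := t) (k := k) (by omega) (by omega) (by omega)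
  by_cases h1 : t ^ 2 < k
  · refine (hlarge t k ht h1).mono ?_
    calc C1 * Real.log t * ((t.factorial : ℝ) / ((k : ℝ) - 1) ^ (t - 1))
        ≤ C1 * Real.log t * (t / ((k - 1).choose (t - 1) : ℝ)) :=
          mul_le_mul_of_nonneg_left hfl (by positivity)
      _ = C1 * (t * Real.log t / ((k - 1).choose (t - 1) : ℝ)) := by ring
      _ ≤ _ := mul_le_mul_of_nonneg_right (by linarith [show (0 : ℝ) ≤ 2 * 34 ^ 17 by norm_num]) hpos
  · push Not at h1
    by_cases h2 : 12 ≤ t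
    · refine (TD.mid h2 hk h1).mono ?_
      have e1 : (k : ℝ) * Real.log t / (k.choose t : ℝ) =
          t * Real.log t / ((k - 1).choose (t - 1) : ℝ) := by
        rw [mul_div_right_comm, choose_eq (by omega) (by omega)]; ring
      rw [e1]
      exact mul_le_mul_of_nonneg_right (by linarith [show (0 : ℝ) ≤ 2 * 34 ^ 17 by norm_num]) hpos
    · push Not at h2
      refine (TD.small' ht (by omega)).mono ?_
      have hk1 : (0 : ℝ) < (k : ℝ) - 1 := by
        have : (1 : ℝ) < k := by exact_mod_cast (show 1 < k by omega)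
        linarith
      have e1 : (2 * ((t : ℝ) - 1)) ^ (t - 1) ≤ 34 ^ 17 := by
        have h17 : (t : ℝ) ≤ 17 := by exact_mod_cast (show t ≤ 17 by omega)
        calc (2 * ((t : ℝ) - 1)) ^ (t - 1) ≤ (34 : ℝ) ^ (t - 1) :=
              pow_le_pow_left₀ (by linarith) (by linarith) _
          _ ≤ 34 ^ 17 := pow_le_pow_right₀ (by norm_num) (by omega)
      have hf1 : (1 : ℝ) ≤ (t.factorial : ℝ) := by exact_mod_cast t.factorial_pos
      calc (2 * ((t : ℝ) - 1)) ^ (t - 1) / ((k : ℝ) - 1) ^ (t - 1)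
          ≤ 34 ^ 17 / ((k : ℝ) - 1) ^ (t - 1) := div_le_div_of_nonneg_right e1 (by positivity)
        _ ≤ (34 ^ 17 * (t.factorial : ℝ)) / ((k : ℝ) - 1) ^ (t - 1) := by
            apply div_le_div_of_nonneg_right _ (by positivity)
            nlinarith
        _ = 34 ^ 17 * ((t.factorial : ℝ) / ((k : ℝ) - 1) ^ (t - 1)) := by ring
        _ ≤ 34 ^ 17 * (t / ((k - 1).choose (t - 1) : ℝ)) :=
            mul_le_mul_of_nonneg_left hfl (by positivity)
        _ = (2 * 34 ^ 17) * (1 / 2) * (t / ((k - 1).choose (t - 1) : ℝ)) := by ring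
        _ ≤ (C1 + 79 + 2 * 34 ^ 17) * Real.log t * (t / ((k - 1).choose (t - 1) : ℝ)) := by
            apply mul_le_mul_of_nonneg_right _ (by positivity)
            apply mul_le_mul (by linarith) hlog2 (by norm_num) (by positivity)
        _ = _ := by ring

end Pool.Agent.H613T
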